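import Mathlib

open scoped Topology ZeroAtInfty

namespace Pool.Agent.MP_86f3ed

/-- A linear map `φ` between C*-algebras is completely positive if
`∑ i j, b_i^* φ(a_i^* a_j) b_j` is positive (of the form `c^* c`) for all finite families. -/
def IsCP {A B : Type*} [NonUnitalCStarAlgebra A] [NonUnitalCStarAlgebra B] (φ : A →ₗ[ℂ] B) :
    Prop :=
  ∀ (n : ℕ) (a : Fin n → A) (b : Fin n → B),
    ∃ c : B, ∑ i, ∑ j, star (b i) * φ (star (a i) * a j) * b j = star c * c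

/-- Nuclearity of a C*-algebra in the form of the completely positive approximation property: on
finite sets the identity is approximated in norm by compositions `A → D → A` of completely
positive contractions through finite-dimensional C*-algebras `D`. -/
def IsNuclear (A : Type*) [NonUnitalCStarAlgebra A] : Prop :=
  ∀ (F : Finset A) (ε : ℝ), 0 < ε → ∃ (D : Type) (_ : CStarAlgebra D) (_ : FiniteDimensional ℂ D)
    (φ : A →ₗ[ℂ] D) (ψ : D →ₗ[ℂ] A),
    IsCP φ ∧ IsCP ψ ∧ (∀ a, ‖φ a‖ ≤ ‖a‖) ∧ (∀ d, ‖ψ d‖ ≤ ‖d‖) ∧ ∀ a ∈ F, ‖ψ (φ a) - a‖ ≤ ε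

/-- The C*-algebra of linear operators on the Hilbert space `ℂ^n`, i.e. of `n × n` matrices. -/
abbrev Mat (n : ℕ) : Type := EuclideanSpace ℂ (Fin n) →L[ℂ] EuclideanSpace ℂ (Fin n)

/-- The matrix form of `IsNuclear` (used in the proofs only). -/
def Nuclear (A : Type*) [NonUnitalCStarAlgebra A] : Prop :=
  ∀ (F : Finset A) (ε : ℝ), 0 < ε → ∃ (n : ℕ) (φ : A →ₗ[ℂ] Mat n) (ψ : Mat n →ₗ[ℂ] A),
    IsCP φ ∧ IsCP ψ ∧ (∀ a, ‖φ a‖ ≤ ‖a‖) ∧ (∀ T, ‖ψ T‖ ≤ ‖T‖) ∧ ∀ a ∈ F, ‖ψ (φ a) - a‖ ≤ ε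

/-- `E` is a conditional expectation of `A` onto the image of `ι : C₀(X) → A`: a positive,
contractive, selfadjoint, `C₀(X)`-bimodular left inverse of `ι`. -/
structure IsExpectation {A : Type*} [NonUnitalCStarAlgebra A] {X : Type*} [TopologicalSpace X]
    (ι : C₀(X, ℂ) →⋆ₙₐ[ℂ] A) (E : A →ₗ[ℂ] C₀(X, ℂ)) : Prop where
  E_ι : ∀ f, E (ι f) = f
  E_left : ∀ f a, E (ι f * a) = f * E a
  E_right : ∀ f a, E (a * ι f) = E a * f
  E_star : ∀ a, E (star a) = star (E a)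
  E_pos : ∀ a x, 0 ≤ (E (star a * a) x).re
  E_norm : ∀ a, ‖E a‖ ≤ ‖a‖

/-- `N` is a selfadjoint multiplicative semigroup of normalizers of the image of `ι : C₀(X) → A`
which contains this image and spans a dense subspace of `A`. -/
structure IsNormalizing {A : Type*} [NonUnitalCStarAlgebra A] {X : Type*} [TopologicalSpace X]
    (ι : C₀(X, ℂ) →⋆ₙₐ[ℂ] A) (N : Set A) : Prop where
  ι_mem : ∀ f, ι f ∈ N
  star_mem : ∀ n ∈ N, star n ∈ N
  mul_mem : ∀ m ∈ N, ∀ n ∈ N, m * n ∈ N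
  norm_mem : ∀ n ∈ N, ∀ f, star n * ι f * n ∈ Set.range ι
  dense : ∀ a, a ∈ closure (Submodule.span ℂ N : Set A)

/-- A regular inclusion `C₀(X) ⊆ A` with an approximate unit of `A` in `C₀(X)`, a conditional
expectation `E` and a semigroup `N` of normalizers which spans `A` and whose members agree with
their expectation where the latter does not vanish (`n E(n)^* = E(n) E(n)^*`). -/
structure DiagonalPair (A : Type*) [NonUnitalCStarAlgebra A] (X : Type*) [TopologicalSpace X] where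
  /-- the inclusion of `C₀(X)` into `A` -/
  ι : C₀(X, ℂ) →⋆ₙₐ[ℂ] A
  /-- the conditional expectation of `A` onto `C₀(X)` -/
  E : A →ₗ[ℂ] C₀(X, ℂ)
  /-- the set of normalizers -/
  N : Set A
  isExpectation : IsExpectation ι E
  isNormalizing : IsNormalizing ι N
  approx_unit : ∀ a, ∀ ε > 0, ∃ f, ‖f‖ ≤ 1 ∧ ‖ι f * a - a‖ ≤ ε
  agree : ∀ n ∈ N, n * ι (star (E n)) = ι (E n * star (E n))

end Pool.Agent.MP_86f3ed
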