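import Pool.Agent.H.MP_86f3ed_an.Trc.Defs
import Pool.Agent.H.MP_86f3ed_an.Reg.Public

open scoped Topology ZeroAtInfty

namespace Pool.Agent.MP_86f3ed

namespace DiagonalPair

variable {A : Type*} [NonUnitalCStarAlgebra A] {X : Type*} [TopologicalSpace X]
  (P : DiagonalPair A X)

theorem E_ι : ∀ f, P.E (P.ι f) = f := P.isExpectation.E_ι
theorem E_left : ∀ f a, P.E (P.ι f * a) = f * P.E a := P.isExpectation.E_left
theorem E_right : ∀ f a, P.E (a * P.ι f) = P.E a * f := P.isExpectation.E_right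
theorem E_star : ∀ a, P.E (star a) = star (P.E a) := P.isExpectation.E_star
theorem E_pos : ∀ a x, 0 ≤ (P.E (star a * a) x).re := P.isExpectation.E_pos
theorem E_norm : ∀ a, ‖P.E a‖ ≤ ‖a‖ := P.isExpectation.E_norm
theorem ι_mem : ∀ f, P.ι f ∈ P.N := P.isNormalizing.ι_mem
theorem star_mem : ∀ n ∈ P.N, star n ∈ P.N := P.isNormalizing.star_mem
theorem mul_mem : ∀ m ∈ P.N, ∀ n ∈ P.N, m * n ∈ P.N := P.isNormalizing.mul_mem
theorem norm_mem : ∀ n ∈ P.N, ∀ f, star n * P.ι f * n ∈ Set.range P.ι :=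
  P.isNormalizing.norm_mem
theorem dense : ∀ a, a ∈ closure (Submodule.span ℂ P.N : Set A) := P.isNormalizing.dense

end DiagonalPair

end Pool.Agent.MP_86f3ed

namespace Pool.Agent.MP_86f3ed.Reg

/-- The unital version of a diagonal pair: `C(X) ⊆ B` for a compact space `X`. -/
structure UPair (B : Type*) [CStarAlgebra B] (X : Type*) [TopologicalSpace X] [CompactSpace X] where
  ι : C(X, ℂ) →⋆ₐ[ℂ] B
  E : B →ₗ[ℂ] C(X, ℂ)
  N : Set B
  E_ι : ∀ f, E (ι f) = f
  E_left : ∀ f b, E (ι f * b) = f * E b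
  E_right : ∀ f b, E (b * ι f) = E b * f
  E_star : ∀ b, E (star b) = star (E b)
  E_pos : ∀ b x, 0 ≤ (E (star b * b) x).re
  E_norm : ∀ b, ‖E b‖ ≤ ‖b‖
  ι_mem : ∀ f, ι f ∈ N
  star_mem : ∀ n ∈ N, star n ∈ N
  mul_mem : ∀ m ∈ N, ∀ n ∈ N, m * n ∈ N
  norm_mem : ∀ n ∈ N, ∀ f, star n * ι f * n ∈ Set.range ι
  dense : ∀ b, b ∈ closure (Submodule.span ℂ N : Set B)
  agree : ∀ n ∈ N, n * ι (star (E n)) = ι (E n * star (E n))

/-- Approximate diagonals, tested against bounded bilinear forms. -/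
def NearDiag (B : Type*) [CStarAlgebra B] : Prop :=
  ∀ (F : Finset B) (ε : ℝ), 0 < ε → ∃ (m : ℕ) (x y : Fin m → B),
    ‖∑ k, x k * y k - 1‖ ≤ ε ∧
    ∀ (G : B →L[ℂ] B →L[ℂ] ℂ), ∀ a ∈ F,
      ‖∑ k, (G (a * x k) (y k) - G (x k) (y k * a))‖ ≤ ε * ‖G‖

namespace UPair

variable {B : Type*} [CStarAlgebra B] {X : Type*} [TopologicalSpace X] [CompactSpace X]
  (P : UPair B X)

/-- The semi-inner product of the state `b ↦ E b x`. -/
noncomputable def ip (x : X) (a b : B) : ℂ := P.E (star a * b) x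

/-- The square of the seminorm of the state `b ↦ E b x`. -/
noncomputable def nu (a : B) (x : X) : ℝ := (P.E (star a * a) x).re

/-- The diagonal function of the element `∑ j, a_j^* ⊗ b_j` at the class of `m` over `x`. -/
noncomputable def ff {J : Type*} [Fintype J] (a b : J → B) (x : X) (m : B) : ℂ :=
  open Classical in ∑ i, if P.ip x (b i) m ≠ 0 then P.ip x (a i) (b i) else 0

/-- The weight of the class of `m` over `x`. -/
noncomputable def ww {J : Type*} [Fintype J] (b : J → B) (x : X) (m : B) : ℝ :=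
  open Classical in ∑ i, if P.ip x (b i) m ≠ 0 then P.nu (b i) x ^ 2 else 0

/-- The coefficient functions. -/
noncomputable def dd {J : Type*} [Fintype J] (a b : J → B) (δ : ℝ) (j : J) (x : X) : ℝ :=
  Real.sqrt ‖P.ff a b x (b j)‖ * P.nu (b j) x / (P.ww b x (b j) + δ)

/-- The map `b ↦ ∑ i j, (b_i c_i)^* E(b_i b b_j^*) (b_j c_j)`. -/
noncomputable def psi {J : Type*} [Fintype J] (b : J → B) (c : J → C(X, ℂ)) (z : B) : B :=
  ∑ i, ∑ j, star (b i * P.ι (c i)) * P.ι (P.E (b i * z * star (b j))) * (b j * P.ι (c j))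

end UPair

end Pool.Agent.MP_86f3ed.Reg
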