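import Pool.Agent.H.MP_86f3ed_an.Trc.Approx
import Pool.Agent.H.MP_86f3ed_an.Reg.Defs

open scoped Topology
open Filter

namespace Pool.Agent.MP_86f3ed.Reg

universe u v

section

variable {A : Type u} [NonUnitalCStarAlgebra A] {B : Type v} [CStarAlgebra B]

/-- Bounded bilinear forms on `B` (as an opaque type, to keep instance search simple). -/
def Bil (B : Type v) [CStarAlgebra B] : Type v := B →L[ℂ] B →L[ℂ] ℂ

noncomputable instance instBilN : NormedAddCommGroup (Bil B) :=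
  inferInstanceAs (NormedAddCommGroup (B →L[ℂ] B →L[ℂ] ℂ))

noncomputable instance instBilS : NormedSpace ℂ (Bil B) :=
  inferInstanceAs (NormedSpace ℂ (B →L[ℂ] B →L[ℂ] ℂ))

/-- A bilinear form as an element of `Bil B`. -/
def toBil (G : B →L[ℂ] B →L[ℂ] ℂ) : Bil B := G

/-- An element of `Bil B` as a bilinear form. -/
def Bil.un (G : Bil B) : B →L[ℂ] B →L[ℂ] ℂ := G

theorem Bil.norm_un (G : Bil B) : ‖G.un‖ = ‖G‖ := rfl

theorem norm_toBil (G : B →L[ℂ] B →L[ℂ] ℂ) : ‖toBil G‖ = ‖G‖ := rfl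

@[simp] theorem un_toBil (G : B →L[ℂ] B →L[ℂ] ℂ) : (toBil G).un = G := rfl

@[simp] theorem Bil.un_add (G G' : Bil B) : (G + G').un = G.un + G'.un := rfl

@[simp] theorem Bil.un_smul (c : ℂ) (G : Bil B) : (c • G).un = c • G.un := rfl

theorem Bil.ext' {G G' : Bil B} (h : ∀ u v, G.un u v = G'.un u v) : G = G' := by
  change G.un = G'.un
  ext u v
  exact h u v

/-- `(T a G)(u, v) = G (a u, v)`. -/
noncomputable def d0t (z : B) (G : Bil B) : Bil B :=
  toBil (G.un.comp (ContinuousLinearMap.mul ℂ B z))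

theorem d0t_apply (z : B) (G : Bil B) (u v : B) : (d0t z G).un u v = G.un (z * u) v := rfl

/-- `(S a G)(u, v) = G (u, v a)`. -/
noncomputable def d0s (z : B) (G : Bil B) : Bil B :=
  toBil (((ContinuousLinearMap.compL ℂ B B ℂ).flip
    ((ContinuousLinearMap.mul ℂ B).flip z)).comp G.un)

theorem d0s_apply (z : B) (G : Bil B) (u v : B) : (d0s z G).un u v = G.un u (v * z) := rfl

/-- `(T a G)(u, v) = G (a u, v)`. -/
noncomputable def d0T (j : A →L[ℂ] B) : A →L[ℂ] (Bil B →L[ℂ] Bil B) :=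
  LinearMap.mkContinuous₂ (LinearMap.mk₂ ℂ (fun (a : A) (G : Bil B) => d0t (j a) G)
    (by
      intro a b G
      refine Bil.ext' fun u v => ?_
      rw [Bil.un_add, add_apply, add_apply,
        d0t_apply, d0t_apply, d0t_apply, map_add, add_mul, map_add,
        add_apply])
    (by
      intro c a G
      refine Bil.ext' fun u v => ?_
      rw [Bil.un_smul, smul_apply, smul_apply,
        d0t_apply, d0t_apply, map_smul, smul_mul_assoc, map_smul,
        smul_apply])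
    (by
      intro a G G'
      refine Bil.ext' fun u v => ?_
      rw [Bil.un_add, add_apply, add_apply,
        d0t_apply, d0t_apply, d0t_apply, Bil.un_add, add_apply,
        add_apply])
    (by
      intro c a G
      refine Bil.ext' fun u v => ?_
      rw [Bil.un_smul, smul_apply, smul_apply,
        d0t_apply, d0t_apply, Bil.un_smul, smul_apply,
        smul_apply])) ‖j‖
    (by
      intro a G
      change ‖d0t (j a) G‖ ≤ _
      rw [← Bil.norm_un]
      refine ContinuousLinearMap.opNorm_le_bound₂ _ (by positivity) fun u v => ?_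
      rw [d0t_apply]
      refine (G.un.le_opNorm₂ _ _).trans ?_
      rw [Bil.norm_un]
      have h1 : ‖j a * u‖ ≤ ‖j‖ * ‖a‖ * ‖u‖ :=
        (norm_mul_le _ _).trans (mul_le_mul_of_nonneg_right (j.le_opNorm a) (norm_nonneg _))
      calc ‖G‖ * ‖j a * u‖ * ‖v‖ ≤ ‖G‖ * (‖j‖ * ‖a‖ * ‖u‖) * ‖v‖ := by gcongr
        _ = ‖j‖ * ‖a‖ * ‖G‖ * ‖u‖ * ‖v‖ := by ring)

theorem d0T_apply (j : A →L[ℂ] B) (a : A) (G : Bil B) : d0T j a G = d0t (j a) G := rfl

/-- `(S a G)(u, v) = G (u, v a)`. -/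
noncomputable def d0S (j : A →L[ℂ] B) : A →L[ℂ] (Bil B →L[ℂ] Bil B) :=
  LinearMap.mkContinuous₂ (LinearMap.mk₂ ℂ (fun (a : A) (G : Bil B) => d0s (j a) G)
    (by
      intro a b G
      refine Bil.ext' fun u v => ?_
      rw [Bil.un_add, add_apply, add_apply,
        d0s_apply, d0s_apply, d0s_apply, map_add, mul_add, map_add])
    (by
      intro c a G
      refine Bil.ext' fun u v => ?_
      rw [Bil.un_smul, smul_apply, smul_apply,
        d0s_apply, d0s_apply, map_smul, mul_smul_comm, map_smul])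
    (by
      intro a G G'
      refine Bil.ext' fun u v => ?_
      rw [Bil.un_add, add_apply, add_apply,
        d0s_apply, d0s_apply, d0s_apply, Bil.un_add, add_apply,
        add_apply])
    (by
      intro c a G
      refine Bil.ext' fun u v => ?_
      rw [Bil.un_smul, smul_apply, smul_apply,
        d0s_apply, d0s_apply, Bil.un_smul, smul_apply,
        smul_apply])) ‖j‖
    (by
      intro a G
      change ‖d0s (j a) G‖ ≤ _
      rw [← Bil.norm_un]
      refine ContinuousLinearMap.opNorm_le_bound₂ _ (by positivity) fun u v => ?_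
      rw [d0s_apply]
      refine (G.un.le_opNorm₂ _ _).trans ?_
      rw [Bil.norm_un]
      have h1 : ‖v * j a‖ ≤ ‖v‖ * (‖j‖ * ‖a‖) :=
        (norm_mul_le _ _).trans (mul_le_mul_of_nonneg_left (j.le_opNorm a) (norm_nonneg _))
      calc ‖G‖ * ‖u‖ * ‖v * j a‖ ≤ ‖G‖ * ‖u‖ * (‖v‖ * (‖j‖ * ‖a‖)) := by gcongr
        _ = ‖j‖ * ‖a‖ * ‖G‖ * ‖u‖ * ‖v‖ := by ring)

theorem d0S_apply (j : A →L[ℂ] B) (a : A) (G : Bil B) : d0S j a G = d0s (j a) G := rfl

/-- The bimodule: the dual space of the space of bounded bilinear forms. -/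
noncomputable def d0Bim (j : A →L[ℂ] B) (hj : ∀ a b, j (a * b) = j a * j b) :
    Bimod A (StrongDual ℂ (Bil B)) where
  l := (ContinuousLinearMap.compL ℂ (Bil B) (Bil B) ℂ).flip.comp (d0T j)
  r := (ContinuousLinearMap.compL ℂ (Bil B) (Bil B) ℂ).flip.comp (d0S j)
  l_mul a b x := by
    ext G
    change x (d0t (j (a * b)) G) = x (d0t (j b) (d0t (j a) G))
    congr 1
    refine Bil.ext' fun u v => ?_
    rw [d0t_apply, d0t_apply, d0t_apply, hj, mul_assoc]
  r_mul a b x := by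
    ext G
    change x (d0s (j (a * b)) G) = x (d0s (j a) (d0s (j b) G))
    congr 1
    refine Bil.ext' fun u v => ?_
    rw [d0s_apply, d0s_apply, d0s_apply, hj, mul_assoc]
  l_r a b x := by
    ext G
    change x (d0s (j b) (d0t (j a) G)) = x (d0t (j a) (d0s (j b) G))
    congr 1

theorem d0Bim_l (j : A →L[ℂ] B) (hj : ∀ a b, j (a * b) = j a * j b) (a : A)
    (x : StrongDual ℂ (Bil B)) (G : Bil B) : (d0Bim j hj).l a x G = x (d0t (j a) G) := rfl

theorem d0Bim_r (j : A →L[ℂ] B) (hj : ∀ a b, j (a * b) = j a * j b) (a : A)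
    (x : StrongDual ℂ (Bil B)) (G : Bil B) : (d0Bim j hj).r a x G = x (d0s (j a) G) := rfl

/-- The evaluation functional `G ↦ G (u, v)`. -/
noncomputable def d0E (u v : B) : StrongDual ℂ (Bil B) :=
  LinearMap.mkContinuous
    { toFun := fun G : Bil B => G.un u v
      map_add' := fun _ _ => rfl
      map_smul' := fun _ _ => rfl } (‖u‖ * ‖v‖) (by
    intro G
    refine (G.un.le_opNorm₂ u v).trans (le_of_eq ?_)
    rw [Bil.norm_un]
    ring)

theorem d0E_apply (u v : B) (G : Bil B) : d0E u v G = G.un u v := rfl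

/-- The bilinear form `(u, v) ↦ f (u v)`. -/
noncomputable def d0G (f : StrongDual ℂ B) : Bil B :=
  toBil (((ContinuousLinearMap.compL ℂ B B ℂ) f).comp (ContinuousLinearMap.mul ℂ B))

theorem d0G_apply (f : StrongDual ℂ B) (u v : B) : (d0G f).un u v = f (u * v) := rfl

theorem d0G_norm (f : StrongDual ℂ B) : ‖d0G f‖ ≤ ‖f‖ := by
  rw [← Bil.norm_un]
  refine ContinuousLinearMap.opNorm_le_bound₂ _ (norm_nonneg _) fun u v => ?_
  rw [d0G_apply]
  refine (f.le_opNorm _).trans ?_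
  rw [mul_assoc]
  exact mul_le_mul_of_nonneg_left (norm_mul_le _ _) (norm_nonneg _)

/-- The span of the evaluation functionals. -/
noncomputable def d0Span (B : Type v) [CStarAlgebra B] : Submodule ℂ (StrongDual ℂ (Bil B)) :=
  Submodule.span ℂ {w | ∃ u v : B, w = d0E u v}

/-- Functionals which vanish on all the forms `(u, v) ↦ f (u v)`. -/
def d0Ker (B : Type v) [CStarAlgebra B] : Submodule ℂ (StrongDual ℂ (Bil B)) where
  carrier := {w | ∀ f : StrongDual ℂ B, w (d0G f) = 0}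
  add_mem' := by
    intro a b ha hb f
    rw [add_apply, ha f, hb f, add_zero]
  zero_mem' := fun f => rfl
  smul_mem' := by
    intro c a ha f
    rw [smul_apply, ha f, smul_zero]

/-- The submodule into which the derivation maps. -/
noncomputable def d0V (B : Type v) [CStarAlgebra B] : Submodule ℂ (StrongDual ℂ (Bil B)) :=
  (d0Span B).topologicalClosure ⊓ d0Ker B

theorem d0_span_l (j : A →L[ℂ] B) (hj : ∀ a b, j (a * b) = j a * j b) (a : A)
    (w : StrongDual ℂ (Bil B)) (hw : w ∈ d0Span B) : (d0Bim j hj).l a w ∈ d0Span B := by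
  induction hw using Submodule.span_induction with
  | mem w h =>
    obtain ⟨x, y, rfl⟩ := h
    exact Submodule.subset_span ⟨j a * x, y, rfl⟩
  | zero => rw [map_zero]; exact zero_mem _
  | add w w' _ _ h h' => rw [map_add]; exact add_mem h h'
  | smul c w _ h => rw [map_smul]; exact Submodule.smul_mem _ _ h

theorem d0_span_r (j : A →L[ℂ] B) (hj : ∀ a b, j (a * b) = j a * j b) (a : A)
    (w : StrongDual ℂ (Bil B)) (hw : w ∈ d0Span B) : (d0Bim j hj).r a w ∈ d0Span B := by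
  induction hw using Submodule.span_induction with
  | mem w h =>
    obtain ⟨x, y, rfl⟩ := h
    exact Submodule.subset_span ⟨x, y * j a, rfl⟩
  | zero => rw [map_zero]; exact zero_mem _
  | add w w' _ _ h h' => rw [map_add]; exact add_mem h h'
  | smul c w _ h => rw [map_smul]; exact Submodule.smul_mem _ _ h

theorem d0t_G (z : B) (f : StrongDual ℂ B) :
    d0t z (d0G f) = d0G (f.comp (ContinuousLinearMap.mul ℂ B z)) := by
  refine Bil.ext' fun u v => ?_
  rw [d0t_apply, d0G_apply, d0G_apply, ContinuousLinearMap.comp_apply,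
    ContinuousLinearMap.mul_apply', mul_assoc]

theorem d0s_G (z : B) (f : StrongDual ℂ B) :
    d0s z (d0G f) = d0G (f.comp ((ContinuousLinearMap.mul ℂ B).flip z)) := by
  refine Bil.ext' fun u v => ?_
  rw [d0s_apply, d0G_apply, d0G_apply, ContinuousLinearMap.comp_apply,
    ContinuousLinearMap.flip_apply, ContinuousLinearMap.mul_apply', mul_assoc]

theorem d0V_l (j : A →L[ℂ] B) (hj : ∀ a b, j (a * b) = j a * j b) (a : A)
    (w : StrongDual ℂ (Bil B)) (hw : w ∈ d0V B) : (d0Bim j hj).l a w ∈ d0V B := by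
  refine ⟨?_, fun f => ?_⟩
  · have hc : Continuous fun w => (d0Bim j hj).l a w := ((d0Bim j hj).l a).continuous
    exact map_mem_closure hc hw.1 (fun w hw => d0_span_l j hj a w hw)
  · rw [d0Bim_l, d0t_G]
    exact hw.2 _

theorem d0V_r (j : A →L[ℂ] B) (hj : ∀ a b, j (a * b) = j a * j b) (a : A)
    (w : StrongDual ℂ (Bil B)) (hw : w ∈ d0V B) : (d0Bim j hj).r a w ∈ d0V B := by
  refine ⟨?_, fun f => ?_⟩
  · have hc : Continuous fun w => (d0Bim j hj).r a w := ((d0Bim j hj).r a).continuous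
    exact map_mem_closure hc hw.1 (fun w hw => d0_span_r j hj a w hw)
  · rw [d0Bim_r, d0s_G]
    exact hw.2 _

/-- The inner derivation of the bimodule given by `G ↦ G (1, 1)`. -/
noncomputable def d0D (j : A →L[ℂ] B) (hj : ∀ a b, j (a * b) = j a * j b) :
    A →L[ℂ] (d0V B) :=
  ContinuousLinearMap.codRestrict
    ((d0Bim j hj).l.flip (d0E 1 1) - (d0Bim j hj).r.flip (d0E 1 1)) (d0V B) (by
    intro a
    refine ⟨?_, fun f => ?_⟩
    · refine (d0Span B).le_topologicalClosure ?_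
      exact sub_mem (Submodule.subset_span ⟨j a * 1, 1, rfl⟩)
        (Submodule.subset_span ⟨1, 1 * j a, rfl⟩)
    · change f (j a * 1 * 1) - f (1 * (1 * j a)) = 0
      rw [mul_one, mul_one, one_mul, one_mul, sub_self])

theorem d0D_coe (j : A →L[ℂ] B) (hj : ∀ a b, j (a * b) = j a * j b) (a : A) :
    ((d0D j hj a : d0V B) : StrongDual ℂ (Bil B)) =
      (d0Bim j hj).l a (d0E 1 1) - (d0Bim j hj).r a (d0E 1 1) := rfl

theorem d0D_isDeriv (j : A →L[ℂ] B) (hj : ∀ a b, j (a * b) = j a * j b) :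
    IsDeriv ((d0Bim j hj).restrict (d0V B) (d0V_l j hj) (d0V_r j hj)) (d0D j hj) := by
  intro a b
  apply Subtype.ext
  rw [Submodule.coe_add, Bimod.restrict_l, Bimod.restrict_r, d0D_coe, d0D_coe, d0D_coe,
    map_sub, map_sub, (d0Bim j hj).l_mul, (d0Bim j hj).r_mul, (d0Bim j hj).l_r]
  abel

theorem nearDiag_of (hA : ApproxAmenable.{u, v} A) (j : A →L[ℂ] B)
    (hj : ∀ a b, j (a * b) = j a * j b) (F : Finset A) (ε : ℝ) (hε : 0 < ε) :
    ∃ (m : ℕ) (x y : Fin m → B), ‖∑ k, x k * y k - 1‖ ≤ ε ∧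
      ∀ (G : B →L[ℂ] B →L[ℂ] ℂ), ∀ a ∈ F,
        ‖∑ k, (G (j a * x k) (y k) - G (x k) (y k * j a))‖ ≤ ε * ‖G‖ := by
  classical
  set Bm := d0Bim j hj with hBm
  obtain ⟨M, hM⟩ : ∃ M : ℝ, ∀ a ∈ F, (‖Bm.l‖ + ‖Bm.r‖) * ‖a‖ ≤ M := by
    obtain ⟨M, hM⟩ := (F.finite_toSet.image fun a => (‖Bm.l‖ + ‖Bm.r‖) * ‖a‖).bddAbove
    exact ⟨M, fun a ha => hM ⟨a, ha, rfl⟩⟩
  set M' : ℝ := max M 0 with hM'
  have hM0 : 0 ≤ M' := le_max_right _ _
  set ε' : ℝ := ε / 2 with hε'
  have hε'0 : 0 < ε' := by positivity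
  set ε₁ : ℝ := ε / (2 * (M' + 1)) with hε₁
  have hε₁0 : 0 < ε₁ := by positivity
  have hε₁ε : ε₁ ≤ ε := by
    rw [hε₁, div_le_iff₀ (by positivity)]
    nlinarith
  have hε₁b : M' * ε₁ ≤ ε / 2 := by
    rw [hε₁, mul_div_assoc', div_le_iff₀ (by positivity)]
    nlinarith
  obtain ⟨Φ, hΦ⟩ := approx_in_module hA (Bm.restrict (d0V B) (d0V_l j hj) (d0V_r j hj))
    (d0D j hj) (d0D_isDeriv j hj) F ε' hε'0
  have hΦ1 : (Φ : StrongDual ℂ (Bil B)) ∈ (d0Span B).topologicalClosure := Φ.2.1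
  have hΦ2 : ∀ f : StrongDual ℂ B, (Φ : StrongDual ℂ (Bil B)) (d0G f) = 0 := Φ.2.2
  set Ψ : StrongDual ℂ (Bil B) := d0E 1 1 - (Φ : StrongDual ℂ (Bil B)) with hΨ
  have hΨmem : Ψ ∈ (d0Span B).topologicalClosure :=
    sub_mem ((d0Span B).le_topologicalClosure (Submodule.subset_span ⟨1, 1, rfl⟩)) hΦ1
  have hΨ1 : ∀ f : StrongDual ℂ B, Ψ (d0G f) = f 1 := by
    intro f
    rw [hΨ, sub_apply, hΦ2, sub_zero, d0E_apply, d0G_apply, mul_one]
  have hΨa : ∀ a ∈ F, ‖Bm.l a Ψ - Bm.r a Ψ‖ ≤ ε' := by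
    intro a ha
    have h1 := (hΦ a ha).le
    rw [Bimod.restrict_norm, d0D_coe] at h1
    rw [hΨ, map_sub, map_sub]
    refine le_of_eq_of_le ?_ h1
    congr 1
    abel
  obtain ⟨w, hw, hwΨ⟩ := Metric.mem_closure_iff.mp hΨmem ε₁ hε₁0
  have hwΨ' : ‖w - Ψ‖ ≤ ε₁ := by
    rw [← norm_neg, neg_sub, ← dist_eq_norm]; exact hwΨ.le
  obtain ⟨n, c, g, hg⟩ := Submodule.mem_span_set'.mp hw
  choose x y hxy using fun k => (g k).2
  have hwG : ∀ G : Bil B, w G = ∑ k, G.un (c k • x k) (y k) := by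
    intro G
    rw [← hg, sum_apply]
    refine Finset.sum_congr rfl fun k _ => ?_
    rw [hxy k, smul_apply, d0E_apply, map_smul,
      smul_apply]
  refine ⟨n, fun k => c k • x k, y, ?_, ?_⟩
  · refine NormedSpace.norm_le_dual_bound ℂ _ (hε₁0.le.trans hε₁ε) fun f => ?_
    have h1 : f (∑ k, (c k • x k) * y k - 1) = (w - Ψ) (d0G f) := by
      rw [map_sub, map_sum, sub_apply, hΨ1, hwG]
      rfl
    rw [h1]
    calc ‖(w - Ψ) (d0G f)‖ ≤ ‖w - Ψ‖ * ‖d0G f‖ := ContinuousLinearMap.le_opNorm _ _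
      _ ≤ ε₁ * ‖f‖ := mul_le_mul hwΨ' (d0G_norm f) (norm_nonneg _) hε₁0.le
      _ ≤ ε * ‖f‖ := mul_le_mul_of_nonneg_right hε₁ε (norm_nonneg _)
  · intro G a ha
    have h1 : ∑ k, (G (j a * (c k • x k)) (y k) - G (c k • x k) (y k * j a)) =
        (Bm.l a w - Bm.r a w) (toBil G) := by
      rw [sub_apply, hBm, d0Bim_l, d0Bim_r, hwG, hwG, Finset.sum_sub_distrib]
      rfl
    rw [h1]
    refine (ContinuousLinearMap.le_opNorm _ _).trans
      (mul_le_mul_of_nonneg_right ?_ (norm_nonneg _))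
    have h2 : Bm.l a w - Bm.r a w = (Bm.l a Ψ - Bm.r a Ψ) +
        (Bm.l a (w - Ψ) - Bm.r a (w - Ψ)) := by
      rw [map_sub (Bm.l a) w Ψ, map_sub (Bm.r a) w Ψ]; abel
    rw [h2]
    have h3 : ‖Bm.l a (w - Ψ)‖ ≤ ‖Bm.l‖ * ‖a‖ * ε₁ :=
      (Bm.l.le_opNorm₂ a (w - Ψ)).trans (mul_le_mul_of_nonneg_left hwΨ' (by positivity))
    have h4 : ‖Bm.r a (w - Ψ)‖ ≤ ‖Bm.r‖ * ‖a‖ * ε₁ :=
      (Bm.r.le_opNorm₂ a (w - Ψ)).trans (mul_le_mul_of_nonneg_left hwΨ' (by positivity))
    have h5 : (‖Bm.l‖ + ‖Bm.r‖) * ‖a‖ * ε₁ ≤ M' * ε₁ :=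
      mul_le_mul_of_nonneg_right ((hM a ha).trans (le_max_left _ _)) hε₁0.le
    calc ‖(Bm.l a Ψ - Bm.r a Ψ) + (Bm.l a (w - Ψ) - Bm.r a (w - Ψ))‖
        ≤ ‖Bm.l a Ψ - Bm.r a Ψ‖ + ‖Bm.l a (w - Ψ) - Bm.r a (w - Ψ)‖ := norm_add_le _ _
      _ ≤ ε' + (‖Bm.l a (w - Ψ)‖ + ‖Bm.r a (w - Ψ)‖) := add_le_add (hΨa a ha) (norm_sub_le _ _)
      _ ≤ ε := by
        have : ε' = ε / 2 := rfl
        nlinarith

end

/-- Approximate amenability gives approximate diagonals for the unitization. -/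
theorem nearDiag_unitization {A : Type u} [NonUnitalCStarAlgebra A]
    (hA : ApproxAmenable.{u, u} A) : NearDiag (Unitization ℂ A) := by
  classical
  intro F ε hε
  set j : A →L[ℂ] Unitization ℂ A := LinearMap.mkContinuous
    (Unitization.inrHom ℂ ℂ A : A →ₗ[ℂ] Unitization ℂ A) 1 (by
      intro a
      rw [one_mul]
      exact (Unitization.norm_inr (𝕜 := ℂ) a).le) with hj
  have hj1 : ∀ a, j a = (a : Unitization ℂ A) := fun a => rfl
  have hj2 : ∀ a b, j (a * b) = j a * j b := by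
    intro a b
    rw [hj1, hj1, hj1, Unitization.inr_mul]
  obtain ⟨m, x, y, h1, h2⟩ := nearDiag_of hA j hj2 (F.image fun z => z.snd) ε hε
  refine ⟨m, x, y, h1, fun G z hz => ?_⟩
  have h3 := h2 G z.snd (Finset.mem_image_of_mem _ hz)
  have h4 : ∀ k, G (z * x k) (y k) - G (x k) (y k * z) =
      G (j z.snd * x k) (y k) - G (x k) (y k * j z.snd) := by
    intro k
    have e1 : z = z.fst • (1 : Unitization ℂ A) + j z.snd := by
      rw [hj1]
      conv_lhs => rw [← Unitization.inl_fst_add_inr_snd_eq z]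
      rw [← Algebra.algebraMap_eq_smul_one]
      rfl
    have e2 : z * x k = z.fst • x k + j z.snd * x k := by
      conv_lhs => rw [e1]
      rw [add_mul, smul_mul_assoc, one_mul]
    have e3 : y k * z = z.fst • y k + y k * j z.snd := by
      conv_lhs => rw [e1]
      rw [mul_add, mul_smul_comm, mul_one]
    rw [e2, e3, map_add, map_add, map_smul, map_smul, add_apply,
      smul_apply]
    ring
  simp only [h4]
  exact h3

end Pool.Agent.MP_86f3ed.Reg
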