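import Pool.Agent.H.MP_86f3ed_an.Reg.Form

open scoped Topology

namespace Pool.Agent.MP_86f3ed.Reg.UPair

variable {B : Type*} [CStarAlgebra B] {X : Type*} [TopologicalSpace X] [CompactSpace X]
  (P : UPair B X)

/-- Approximate diagonals can be chosen in the algebraic span of the normalizers. -/
theorem exists_good (hB : NearDiag B) (F : Finset B) (ε : ℝ) (hε : 0 < ε) :
    ∃ (J : Type) (_ : Fintype J) (a b : J → B), (∀ j, b j ∈ P.N) ∧
      Good F ε a b := by
  obtain ⟨m, x, y, h1, h2⟩ := hB F (ε / 2) (by positivity)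
  set M : ℝ := ∑ z ∈ F, ‖z‖ with hM
  set S : ℝ := ∑ k, ‖x k‖ with hS
  have hM0 : 0 ≤ M := Finset.sum_nonneg fun _ _ => norm_nonneg _
  have hS0 : 0 ≤ S := Finset.sum_nonneg fun _ _ => norm_nonneg _
  have hMz : ∀ z ∈ F, ‖z‖ ≤ M := fun z hz =>
    Finset.single_le_sum (f := fun z : B => ‖z‖) (fun _ _ => norm_nonneg _) hz
  set η : ℝ := ε / (2 * ((2 * M + 1) * (S + 1))) with hη
  have hη0 : 0 < η := by positivity
  have hη1 : η * ((2 * M + 1) * (S + 1)) = ε / 2 := by
    rw [hη]; field_simp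
  have hη2 : η * S ≤ ε / 2 := by
    rw [← hη1]
    have : S ≤ (2 * M + 1) * (S + 1) := by nlinarith [mul_nonneg hM0 hS0]
    exact mul_le_mul_of_nonneg_left this hη0.le
  have hη3 : 2 * M * (η * S) ≤ ε / 2 := by
    rw [← hη1]
    have : 2 * M * S ≤ (2 * M + 1) * (S + 1) := by nlinarith [mul_nonneg hM0 hS0]
    have := mul_le_mul_of_nonneg_left this hη0.le
    linarith
  have hd : ∀ k, ∃ w ∈ (Submodule.span ℂ P.N : Set B), dist (y k) w < η := fun k =>
    Metric.mem_closure_iff.mp (P.dense (y k)) η hη0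
  choose y' hy' hd' using hd
  have hd'' : ∀ k, ‖y' k - y k‖ ≤ η := fun k => by
    rw [← dist_eq_norm, dist_comm]; exact (hd' k).le
  have hs : ∀ k, ∃ (n : ℕ) (f : Fin n → ℂ) (g : Fin n → P.N), ∑ i, f i • (g i : B) = y' k :=
    fun k => Submodule.mem_span_set'.mp (hy' k)
  choose l c g hg using hs
  refine ⟨Σ k : Fin m, Fin (l k), inferInstance, fun j => star (c j.1 j.2 • x j.1),
    fun j => (g j.1 j.2 : B), fun j => (g j.1 j.2).2, ?_, ?_⟩
  · have e1 : ∑ j : (Σ k : Fin m, Fin (l k)), star (star (c j.1 j.2 • x j.1)) *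
        (g j.1 j.2 : B) = ∑ k, x k * y' k := by
      rw [Fintype.sum_sigma]
      refine Finset.sum_congr rfl fun k _ => ?_
      rw [← hg k, Finset.mul_sum]
      refine Finset.sum_congr rfl fun i _ => ?_
      rw [star_star, smul_mul_assoc, mul_smul_comm]
    rw [e1]
    have e2 : ∑ k, x k * y' k - 1 = (∑ k, x k * y k - 1) + ∑ k, x k * (y' k - y k) := by
      simp only [mul_sub, Finset.sum_sub_distrib]
      abel
    rw [e2]
    have e3 : ‖∑ k, x k * (y' k - y k)‖ ≤ η * S := by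
      calc ‖∑ k, x k * (y' k - y k)‖ ≤ ∑ k, ‖x k * (y' k - y k)‖ := norm_sum_le _ _
        _ ≤ ∑ k, ‖x k‖ * η := Finset.sum_le_sum fun k _ =>
            (norm_mul_le _ _).trans (mul_le_mul_of_nonneg_left (hd'' k) (norm_nonneg _))
        _ = η * S := by rw [← Finset.sum_mul, hS, mul_comm]
    calc _ ≤ ‖∑ k, x k * y k - 1‖ + ‖∑ k, x k * (y' k - y k)‖ := norm_add_le _ _
      _ ≤ ε / 2 + ε / 2 := add_le_add h1 (e3.trans hη2)
      _ = ε := by ring
  · intro G z hz
    have e1 : ∑ j : (Σ k : Fin m, Fin (l k)), (G (z * star (star (c j.1 j.2 • x j.1)))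
        (g j.1 j.2 : B) - G (star (star (c j.1 j.2 • x j.1))) ((g j.1 j.2 : B) * z)) =
        ∑ k, (G (z * x k) (y' k) - G (x k) (y' k * z)) := by
      rw [Fintype.sum_sigma]
      refine Finset.sum_congr rfl fun k _ => ?_
      rw [← hg k, map_sum, Finset.sum_mul, map_sum, ← Finset.sum_sub_distrib]
      refine Finset.sum_congr rfl fun i _ => ?_
      simp only [star_star, mul_smul_comm, smul_mul_assoc, map_smul,
        smul_apply]
    rw [e1]
    have e2 : ∑ k, (G (z * x k) (y' k) - G (x k) (y' k * z)) =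
        ∑ k, (G (z * x k) (y k) - G (x k) (y k * z)) +
        ∑ k, (G (z * x k) (y' k - y k) - G (x k) ((y' k - y k) * z)) := by
      rw [← Finset.sum_add_distrib]
      refine Finset.sum_congr rfl fun k _ => ?_
      rw [map_sub, sub_mul, map_sub]
      ring
    rw [e2]
    have hG0 : 0 ≤ ‖G‖ := ContinuousLinearMap.opNorm_nonneg G
    have e3 : ∀ k, ‖G (z * x k) (y' k - y k) - G (x k) ((y' k - y k) * z)‖ ≤
        ‖G‖ * (2 * M * (η * ‖x k‖)) := by
      intro k
      have b1 : ‖G (z * x k) (y' k - y k)‖ ≤ ‖G‖ * (M * (η * ‖x k‖)) := by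
        calc ‖G (z * x k) (y' k - y k)‖ ≤ ‖G‖ * ‖z * x k‖ * ‖y' k - y k‖ :=
              G.le_opNorm₂ _ _
          _ ≤ ‖G‖ * (M * ‖x k‖) * η := by
              gcongr
              · exact (norm_mul_le _ _).trans
                  (mul_le_mul_of_nonneg_right (hMz z hz) (norm_nonneg _))
              · exact hd'' k
          _ = _ := by ring
      have b2 : ‖G (x k) ((y' k - y k) * z)‖ ≤ ‖G‖ * (M * (η * ‖x k‖)) := by
        calc ‖G (x k) ((y' k - y k) * z)‖ ≤ ‖G‖ * ‖x k‖ * ‖(y' k - y k) * z‖ :=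
              G.le_opNorm₂ _ _
          _ ≤ ‖G‖ * ‖x k‖ * (η * M) := by
              gcongr
              exact (norm_mul_le _ _).trans
                (mul_le_mul (hd'' k) (hMz z hz) (norm_nonneg _) hη0.le)
          _ = _ := by ring
      calc _ ≤ ‖G (z * x k) (y' k - y k)‖ + ‖G (x k) ((y' k - y k) * z)‖ := norm_sub_le _ _
        _ ≤ ‖G‖ * (M * (η * ‖x k‖)) + ‖G‖ * (M * (η * ‖x k‖)) := add_le_add b1 b2
        _ = _ := by ring
    have e4 : ‖∑ k, (G (z * x k) (y' k - y k) - G (x k) ((y' k - y k) * z))‖ ≤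
        ε / 2 * ‖G‖ := by
      calc _ ≤ ∑ k, ‖G (z * x k) (y' k - y k) - G (x k) ((y' k - y k) * z)‖ :=
            norm_sum_le _ _
        _ ≤ ∑ k, ‖G‖ * (2 * M * (η * ‖x k‖)) := Finset.sum_le_sum fun k _ => e3 k
        _ = 2 * M * (η * S) * ‖G‖ := by
            rw [← Finset.mul_sum, ← Finset.mul_sum, ← Finset.mul_sum, hS]; ring
        _ ≤ ε / 2 * ‖G‖ := mul_le_mul_of_nonneg_right hη3 hG0
    calc _ ≤ ‖∑ k, (G (z * x k) (y k) - G (x k) (y k * z))‖ +
          ‖∑ k, (G (z * x k) (y' k - y k) - G (x k) ((y' k - y k) * z))‖ := norm_add_le _ _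
      _ ≤ ε / 2 * ‖G‖ + ε / 2 * ‖G‖ := add_le_add (h2 G z hz) e4
      _ = ε * ‖G‖ := by ring

end Pool.Agent.MP_86f3ed.Reg.UPair
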