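import Pool.Agent.H.MP_86f3ed_an.Reg.Defs

open scoped Topology

namespace Pool.Agent.MP_86f3ed.Reg.UPair

variable {B : Type*} [CStarAlgebra B] {X : Type*} [TopologicalSpace X] [CompactSpace X]
  (P : UPair B X)

theorem E_one : P.E 1 = 1 := by
  have h := P.E_ι 1
  rwa [map_one] at h

theorem one_mem : (1 : B) ∈ P.N := by
  have h := P.ι_mem 1
  rwa [map_one] at h

theorem norm_ι (f : C(X, ℂ)) : ‖P.ι f‖ = ‖f‖ := by
  refine le_antisymm (NonUnitalStarAlgHom.norm_apply_le P.ι f) ?_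
  have h := P.E_norm (P.ι f)
  rwa [P.E_ι] at h

theorem ip_conj (x : X) (a b : B) : P.ip x b a = (starRingEnd ℂ) (P.ip x a b) := by
  have h := P.E_star (star a * b)
  rw [star_mul, star_star] at h
  rw [ip, ip, h]
  rfl

theorem ip_self (x : X) (a : B) : P.ip x a a = (P.nu a x : ℂ) := by
  have h := P.ip_conj x a a
  have h2 := Complex.conj_eq_iff_real.mp h.symm
  obtain ⟨r, hr⟩ := h2
  rw [hr, nu]
  have h3 : P.E (star a * a) x = r := hr
  rw [h3, Complex.ofReal_re]

theorem nu_nonneg (a : B) (x : X) : 0 ≤ P.nu a x := P.E_pos a x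

theorem ip_add_right (x : X) (a b c : B) : P.ip x a (b + c) = P.ip x a b + P.ip x a c := by
  simp [ip, mul_add]

theorem ip_add_left (x : X) (a b c : B) : P.ip x (a + b) c = P.ip x a c + P.ip x b c := by
  simp [ip, add_mul]

theorem ip_sub_right (x : X) (a b c : B) : P.ip x a (b - c) = P.ip x a b - P.ip x a c := by
  simp [ip, mul_sub]

theorem ip_sub_left (x : X) (a b c : B) : P.ip x (a - b) c = P.ip x a c - P.ip x b c := by
  simp [ip, sub_mul]

theorem ip_smul_right (x : X) (z : ℂ) (a b : B) : P.ip x a (z • b) = z * P.ip x a b := by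
  simp [ip]

theorem ip_smul_left (x : X) (z : ℂ) (a b : B) :
    P.ip x (z • a) b = (starRingEnd ℂ) z * P.ip x a b := by
  simp [ip]

theorem ip_sum_right (x : X) {K : Type*} (s : Finset K) (a : B) (b : K → B) :
    P.ip x a (∑ k ∈ s, b k) = ∑ k ∈ s, P.ip x a (b k) := by
  classical
  induction s using Finset.induction_on with
  | empty => simp [ip]
  | insert k s hk ih => rw [Finset.sum_insert hk, Finset.sum_insert hk, ip_add_right, ih]

theorem ip_sum_left (x : X) {K : Type*} (s : Finset K) (a : K → B) (b : B) :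
    P.ip x (∑ k ∈ s, a k) b = ∑ k ∈ s, P.ip x (a k) b := by
  classical
  induction s using Finset.induction_on with
  | empty => simp [ip]
  | insert k s hk ih => rw [Finset.sum_insert hk, Finset.sum_insert hk, ip_add_left, ih]

theorem ip_mul_right (x : X) (a b c : B) : P.ip x a (c * b) = P.ip x (star c * a) b := by
  simp [ip, mul_assoc]

theorem ip_mul_left (x : X) (a b c : B) : P.ip x (c * a) b = P.ip x a (star c * b) := by
  simp [ip, mul_assoc]

theorem ip_ι_right (x : X) (a b : B) (f : C(X, ℂ)) :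
    P.ip x a (b * P.ι f) = P.ip x a b * f x := by
  simp [ip, ← mul_assoc, P.E_right]

theorem ip_ι_left (x : X) (a b : B) (f : C(X, ℂ)) :
    P.ip x (a * P.ι f) b = (starRingEnd ℂ) (f x) * P.ip x a b := by
  have h : star (P.ι f) = P.ι (star f) := (map_star P.ι f).symm
  simp [ip, h, mul_assoc, P.E_left]

/-- The semi-inner product as a core. -/
@[reducible] noncomputable def core (x : X) : PreInnerProductSpace.Core ℂ B where
  inner a b := P.ip x a b
  conj_inner_symm a b := (P.ip_conj x b a).symm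
  re_inner_nonneg a := P.E_pos a x
  add_left a b c := P.ip_add_left x a b c
  smul_left a b z := P.ip_smul_left x z a b

theorem norm_ip_sq_le (x : X) (a b : B) : ‖P.ip x a b‖ ^ 2 ≤ P.nu a x * P.nu b x := by
  have h := @InnerProductSpace.Core.inner_mul_inner_self_le ℂ B _ _ _ (P.core x) a b
  have h1 : ‖P.ip x a b‖ * ‖P.ip x b a‖ ≤ P.nu a x * P.nu b x := h
  rw [P.ip_conj x a b, RCLike.norm_conj, ← sq] at h1
  exact h1

theorem nu_le (a : B) (x : X) : P.nu a x ≤ ‖a‖ ^ 2 := by
  have h1 : ‖P.E (star a * a)‖ ≤ ‖a‖ ^ 2 := by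
    refine (P.E_norm _).trans ?_
    rw [CStarRing.norm_star_mul_self, sq]
  have h2 : ‖P.E (star a * a) x‖ ≤ ‖P.E (star a * a)‖ := (P.E (star a * a)).norm_coe_le_norm x
  exact ((Complex.re_le_norm _).trans h2).trans h1

theorem norm_ip_le (x : X) (a b : B) : ‖P.ip x a b‖ ≤ ‖a‖ * ‖b‖ := by
  have h1 : ‖P.E (star a * b) x‖ ≤ ‖P.E (star a * b)‖ := (P.E (star a * b)).norm_coe_le_norm x
  refine (h1.trans (P.E_norm _)).trans ?_
  refine (norm_mul_le _ _).trans ?_
  rw [norm_star]

theorem ip_eq_zero_of_nu {b : B} {x : X} (h : P.nu b x = 0) (a : B) : P.ip x a b = 0 := by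
  have h1 := P.norm_ip_sq_le x a b
  rw [h, mul_zero] at h1
  have h2 : ‖P.ip x a b‖ ^ 2 = 0 := le_antisymm h1 (sq_nonneg _)
  exact norm_eq_zero.mp (pow_eq_zero_iff (two_ne_zero)|>.mp h2)

theorem ip_eq_zero_of_nu' {a : B} {x : X} (h : P.nu a x = 0) (b : B) : P.ip x a b = 0 := by
  rw [P.ip_conj x b a, P.ip_eq_zero_of_nu h, map_zero]

theorem continuous_ip (a b : B) : Continuous fun x => P.ip x a b :=
  (P.E (star a * b)).continuous

theorem continuous_nu (a : B) : Continuous fun x => P.nu a x :=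
  Complex.continuous_re.comp (P.E (star a * a)).continuous

theorem nu_smul (z : ℂ) (a : B) (x : X) : P.nu (z • a) x = ‖z‖ ^ 2 * P.nu a x := by
  have h := P.ip_self x (z • a)
  rw [P.ip_smul_left, P.ip_smul_right, P.ip_self] at h
  have h2 : ((starRingEnd ℂ) z * (z * (P.nu a x : ℂ))) = ((‖z‖ ^ 2 * P.nu a x : ℝ) : ℂ) := by
    rw [← mul_assoc, mul_comm ((starRingEnd ℂ) z) z, Complex.mul_conj, Complex.normSq_eq_norm_sq]
    push_cast
    ring
  rw [h2] at h
  exact (Complex.ofReal_injective h).symm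

theorem nu_mul_ι (a : B) (f : C(X, ℂ)) (x : X) : P.nu (a * P.ι f) x = ‖f x‖ ^ 2 * P.nu a x := by
  have h := P.ip_self x (a * P.ι f)
  rw [P.ip_ι_left, P.ip_ι_right, P.ip_self] at h
  have h2 : ((starRingEnd ℂ) (f x) * ((P.nu a x : ℂ) * f x)) =
      ((‖f x‖ ^ 2 * P.nu a x : ℝ) : ℂ) := by
    rw [mul_comm (P.nu a x : ℂ) (f x), ← mul_assoc, mul_comm ((starRingEnd ℂ) (f x)) (f x),
      Complex.mul_conj, Complex.normSq_eq_norm_sq]
    push_cast
    ring
  rw [h2] at h
  exact (Complex.ofReal_injective h).symm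

theorem nu_one (x : X) : P.nu 1 x = 1 := by
  simp [nu, P.E_one]

/-- `n^* ι(f) n` lies in `C(X)`. -/
theorem conj_eq {n : B} (hn : n ∈ P.N) (f : C(X, ℂ)) :
    star n * P.ι f * n = P.ι (P.E (star n * P.ι f * n)) := by
  obtain ⟨g, hg⟩ := P.norm_mem n hn f
  rw [← hg, P.E_ι]

theorem conj_eq' {n : B} (hn : n ∈ P.N) (f : C(X, ℂ)) :
    n * P.ι f * star n = P.ι (P.E (n * P.ι f * star n)) := by
  have h := P.conj_eq (P.star_mem n hn) f
  rwa [star_star] at h

theorem star_mul_eq {n : B} (hn : n ∈ P.N) : star n * n = P.ι (P.E (star n * n)) := by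
  have h := P.conj_eq hn 1
  rwa [map_one, mul_one] at h

theorem mul_star_eq {n : B} (hn : n ∈ P.N) : n * star n = P.ι (P.E (n * star n)) := by
  have h := P.star_mul_eq (P.star_mem n hn)
  rwa [star_star] at h

theorem ι_comm (f g : C(X, ℂ)) : P.ι f * P.ι g = P.ι g * P.ι f := by
  rw [← map_mul, mul_comm, map_mul]

theorem E_cont : Continuous P.E :=
  AddMonoidHomClass.continuous_of_bound P.E 1 (fun b => by rw [one_mul]; exact P.E_norm b)

end Pool.Agent.MP_86f3ed.Reg.UPair
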