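import Pool.Agent.H.MP_86f3ed_an.Reg.Trans2

open scoped Topology

namespace Pool.Agent.MP_86f3ed.Reg.UPair

variable {B : Type*} [CStarAlgebra B] {X : Type*} [TopologicalSpace X] [CompactSpace X]
  [T2Space X] (P : UPair B X)

/-- At `x`, left multiplication by `ι(c)` on `n` is multiplication by the value at `y`. -/
theorem ip_ι_mul {n : B} {x y : X}
    (hy : ∀ c : B, P.E (star n * c * n) x = P.nu n x * P.E c y) (c : C(X, ℂ)) (w : B) :
    P.ip x (P.ι c * n) w = (starRingEnd ℂ) (c y) * P.ip x n w := by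
  set d : C(X, ℂ) := c - algebraMap ℂ C(X, ℂ) (c y) with hd
  have hdy : d y = 0 := by
    simp [hd]
  have h1 : P.nu (P.ι d * n) x = 0 := by
    have h2 : P.E (star (P.ι d * n) * (P.ι d * n)) x = 0 := by
      have h3 : star (P.ι d * n) * (P.ι d * n) = star n * P.ι (star d * d) * n := by
        rw [star_mul, map_mul, map_star]
        simp only [mul_assoc]
      rw [h3, hy, P.E_ι, ContinuousMap.mul_apply, hdy, mul_zero, mul_zero]
    unfold nu
    rw [h2, Complex.zero_re]
  have h4 := P.ip_eq_zero_of_nu' h1 w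
  have h5 : P.ι d * n = P.ι c * n - (c y) • n := by
    rw [hd, map_sub, AlgHomClass.commutes, sub_mul, Algebra.algebraMap_eq_smul_one, smul_mul_assoc,
      one_mul]
  rw [h5, P.ip_sub_left, P.ip_smul_left] at h4
  exact sub_eq_zero.mp h4

/-- The value of a block of the map `psi`. -/
theorem E_block {m m' n : B} (hm : m ∈ P.N) (hm' : m' ∈ P.N) (hn : n ∈ P.N) {x y : X}
    (hx : P.nu n x ≠ 0) (hy : ∀ c : B, P.E (star n * c * n) x = P.nu n x * P.E c y)
    (c d : C(X, ℂ)) :
    P.E (star n * (star (m * P.ι c) * P.ι (P.E (m * n * star m')) * (m' * P.ι d))) x =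
      (starRingEnd ℂ) (c y) * d x * ((‖P.ip x m' (m * n)‖ ^ 2 : ℝ) : ℂ) := by
  set q := P.E (m * n * star m') with hq
  -- reduce to the middle block
  have h1 : star n * (star (m * P.ι c) * P.ι q * (m' * P.ι d)) =
      star (P.ι c * n) * (star m * P.ι q * m') * P.ι d := by
    rw [star_mul, star_mul]
    simp only [mul_assoc]
  rw [h1, P.E_right, ContinuousMap.mul_apply]
  have h2 : P.E (star (P.ι c * n) * (star m * P.ι q * m')) x =
      (starRingEnd ℂ) (c y) * P.ip x n (star m * P.ι q * m') :=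
    P.ip_ι_mul hy c _
  rw [h2]
  have h3 : P.ip x n (star m * P.ι q * m') = P.ip x (P.ι (star q) * (m * n)) m' := by
    rw [mul_assoc, P.ip_mul_right, star_star, P.ip_mul_right, map_star]
  have h4 : P.ip x (P.ι (star q) * (m * n)) m' = ((‖P.ip x m' (m * n)‖ ^ 2 : ℝ) : ℂ) := by
    by_cases h0 : P.nu m' x = 0
    · rw [P.ip_eq_zero_of_nu h0, P.ip_eq_zero_of_nu' h0, norm_zero]
      norm_num
    · obtain ⟨y', hy'⟩ := P.exists_transport hm' h0
      have h5 : P.ip x (m * n) (P.ι q * m') = q y' * P.ip x (m * n) m' := by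
        rw [P.ip_conj x (P.ι q * m') (m * n), P.ip_ι_mul hy' q, map_mul, Complex.conj_conj,
          ← P.ip_conj x m' (m * n)]
      have h6 : q y' = P.ip x m' (m * n) := by
        have h7 := hy' (m * n * star m')
        have h8 : star m' * (m * n * star m') * m' = star m' * (m * n) * (star m' * m') := by
          simp only [mul_assoc]
        have h9 : P.E (star m' * m') x = (P.nu m' x : ℂ) := P.ip_self x m'
        rw [h8, P.star_mul_eq hm', P.E_right, ContinuousMap.mul_apply, h9, ← hq] at h7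
        have h10 : (P.nu m' x : ℂ) ≠ 0 := Complex.ofReal_ne_zero.mpr h0
        have h11 : (P.nu m' x : ℂ) * q y' = (P.nu m' x : ℂ) * P.ip x m' (m * n) := by
          rw [← h7, mul_comm]
          rfl
        exact mul_left_cancel₀ h10 h11
      have h12 : P.ip x (P.ι (star q) * (m * n)) m' = P.ip x (m * n) (P.ι q * m') := by
        rw [P.ip_mul_left, ← map_star, star_star]
      rw [h12, h5, h6, P.ip_conj x m' (m * n), Complex.mul_conj, Complex.normSq_eq_norm_sq]
  rw [h3, h4]
  ring

end Pool.Agent.MP_86f3ed.Reg.UPair
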