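import Pool.Agent.H.MP_86f3ed_an.Reg.Public

open scoped Topology

namespace Pool.Agent.MP_86f3ed.Reg

/-- A finite sum of elements `z^* z` is of this form. -/
theorem exists_sum_star {B : Type*} [CStarAlgebra B] {K : Type*} (s : Finset K) (z : K → B) :
    ∃ c : B, ∑ k ∈ s, star (z k) * z k = star c * c := by
  let _ := CStarAlgebra.spectralOrder B
  have := CStarAlgebra.spectralOrderedRing B
  exact CStarAlgebra.nonneg_iff_eq_star_mul_self.mp
    (Finset.sum_nonneg fun k _ => star_mul_self_nonneg (z k))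

theorem IsCP.smul {A B : Type*} [CStarAlgebra A] [CStarAlgebra B] {φ : A →ₗ[ℂ] B} (h : IsCP φ)
    {r : ℝ} (hr : 0 ≤ r) : IsCP ((r : ℂ) • φ) := by
  intro n a b
  obtain ⟨c, hc⟩ := h n a b
  refine ⟨((Real.sqrt r : ℝ) : ℂ) • c, ?_⟩
  have h1 : ∑ i, ∑ j, star (b i) * ((r : ℂ) • φ) (star (a i) * a j) * b j =
      (r : ℂ) • ∑ i, ∑ j, star (b i) * φ (star (a i) * a j) * b j := by
    simp only [Finset.smul_sum, LinearMap.smul_apply, mul_smul_comm, smul_mul_assoc]
  rw [h1, hc, star_smul, smul_mul_smul_comm]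
  congr 1
  rw [Complex.star_def, Complex.conj_ofReal, ← Complex.ofReal_mul, Real.mul_self_sqrt hr]

section

variable {A B : Type*} [CStarAlgebra A] [CStarAlgebra B] {φ : A →ₗ[ℂ] B}

/-- positivity in the form of squares -/
theorem cp_sq (h : IsCP φ) (a : A) : ∃ c : B, φ (star a * a) = star c * c := by
  obtain ⟨c, hc⟩ := h 1 (fun _ => a) (fun _ => 1)
  refine ⟨c, ?_⟩
  simpa using hc

theorem cp_two (h : IsCP φ) (T : A) (b c : B) :
    ∃ d : B, star b * φ 1 * b + star b * φ T * c + (star c * φ (star T) * b +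
      star c * φ (star T * T) * c) = star d * d := by
  obtain ⟨d, hd⟩ := h 2 ![1, T] ![b, c]
  refine ⟨d, ?_⟩
  rw [← hd]
  simp [Fin.sum_univ_two]

/-- completely positive maps are hermitian -/
theorem cp_star (h : IsCP φ) (T : A) : φ (star T) = star (φ T) := by
  obtain ⟨p, hp⟩ := cp_sq h 1
  obtain ⟨q, hq⟩ := cp_sq h T
  obtain ⟨d, hd⟩ := cp_two h T 1 1
  obtain ⟨e, he⟩ := cp_two h T 1 (Complex.I • 1)
  simp only [star_one, one_mul, mul_one] at hp hd
  have hp' : star (φ 1) = φ 1 := by rw [hp, star_mul, star_star]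
  have hq' : star (φ (star T * T)) = φ (star T * T) := by rw [hq, star_mul, star_star]
  have hd' := congrArg star hd
  rw [star_mul, star_star, ← hd] at hd'
  simp only [star_add, hp', hq'] at hd'
  have he' := congrArg star he
  rw [star_mul, star_star, ← he] at he'
  simp only [star_one, one_mul, mul_one, star_smul, mul_smul_comm, smul_mul_assoc, star_add, hp',
    smul_smul, RCLike.star_def, Complex.conj_I, hq', neg_mul, neg_smul, neg_neg,
    Complex.I_mul_I, star_neg, one_smul] at he'
  have he2 := congrArg (fun z : B => Complex.I • z) he'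
  simp only [smul_add, smul_neg, smul_smul, Complex.I_mul_I, neg_smul, one_smul,
    neg_neg] at he2
  have h3 : (2 : ℂ) • φ (star T) = (2 : ℂ) • star (φ T) := by
    linear_combination (norm := module) (-1 : ℂ) • hd' + (-1 : ℂ) • he2
  exact smul_right_injective B two_ne_zero h3

end

/-- A completely positive map on a unital algebra has norm at most `‖φ 1‖`. -/
theorem IsCP.norm_le {A B : Type*} [CStarAlgebra A] [CStarAlgebra B] {φ : A →ₗ[ℂ] B}
    (h : IsCP φ) (a : A) : ‖φ a‖ ≤ ‖φ 1‖ * ‖a‖ := by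
  let _ := CStarAlgebra.spectralOrder A
  have := CStarAlgebra.spectralOrderedRing A
  let _ := CStarAlgebra.spectralOrder B
  have := CStarAlgebra.spectralOrderedRing B
  -- monotonicity
  have hmono : ∀ x y : A, x ≤ y → φ x ≤ φ y := by
    intro x y hxy
    obtain ⟨d, hd⟩ := CStarAlgebra.nonneg_iff_eq_star_mul_self.mp (sub_nonneg.mpr hxy)
    obtain ⟨c, hc⟩ := cp_sq h d
    rw [← hd, map_sub] at hc
    rw [← sub_nonneg, hc]
    exact star_mul_self_nonneg c
  have hp0 : 0 ≤ φ 1 := by
    obtain ⟨c, hc⟩ := cp_sq h 1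
    rw [star_one, one_mul] at hc
    rw [hc]
    exact star_mul_self_nonneg c
  have key : ∀ k : ℝ, 0 < k → ‖φ 1‖ ≤ k → ‖φ a‖ ≤ k * ‖a‖ := by
    intro k hk hk1
    have hp1 : φ 1 ≤ algebraMap ℝ B k :=
      (CStarAlgebra.norm_le_iff_le_algebraMap (φ 1) hk.le hp0).mp hk1
    obtain ⟨d, hd⟩ := cp_two h a (((-(1 / k) : ℝ)) • φ a) 1
    rw [cp_star h] at hd
    have h1 : star (φ a) * φ 1 * φ a ≤ k • (star (φ a) * φ a) := by
      have h2 := star_left_conjugate_le_conjugate hp1 (φ a)
      rw [Algebra.algebraMap_eq_smul_one] at h2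
      simpa using h2
    have h2 : (1 / k) • (star (φ a) * φ a) ≤ φ (star a * a) := by
      have h3 : φ (star a * a) - (1 / k) • (star (φ a) * φ a) =
          star d * d + (1 / k ^ 2) • (k • (star (φ a) * φ a) - star (φ a) * φ 1 * φ a) := by
        rw [← hd]
        simp only [star_smul, star_trivial, smul_mul_assoc, mul_smul_comm, star_one, one_mul,
          mul_one, smul_smul, smul_sub]
        match_scalars <;> field_simp <;> ring
      rw [← sub_nonneg, h3]
      refine add_nonneg (star_mul_self_nonneg d) (smul_nonneg (by positivity) (sub_nonneg.mpr h1))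
    have h4 : star a * a ≤ algebraMap ℝ A (‖a‖ ^ 2) := by
      refine (CStarAlgebra.norm_le_iff_le_algebraMap _ (by positivity)
        (star_mul_self_nonneg a)).mp ?_
      rw [CStarRing.norm_star_mul_self, ← _root_.sq]
    have h5 : φ (star a * a) ≤ (‖a‖ ^ 2) • φ 1 := by
      have h6 := hmono _ _ h4
      rwa [Algebra.algebraMap_eq_smul_one, LinearMap.map_smul_of_tower] at h6
    have h6 : star (φ a) * φ a ≤ algebraMap ℝ B ((k * ‖a‖) ^ 2) := by
      have h7 : (‖a‖ ^ 2) • φ 1 ≤ (‖a‖ ^ 2) • algebraMap ℝ B k :=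
        smul_le_smul_of_nonneg_left hp1 (by positivity)
      have h8 := (h2.trans h5).trans h7
      have h9 := smul_le_smul_of_nonneg_left h8 hk.le
      have h10 : k • (1 / k) • (star (φ a) * φ a) = star (φ a) * φ a := by
        rw [smul_smul]
        field_simp
        rw [one_smul]
      have h11 : k • (‖a‖ ^ 2) • algebraMap ℝ B k = algebraMap ℝ B ((k * ‖a‖) ^ 2) := by
        rw [Algebra.algebraMap_eq_smul_one, Algebra.algebraMap_eq_smul_one, smul_smul, smul_smul]
        congr 1
        ring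
      rwa [h10, h11] at h9
    have h7 : ‖star (φ a) * φ a‖ ≤ (k * ‖a‖) ^ 2 :=
      (CStarAlgebra.norm_le_iff_le_algebraMap _ (by positivity) (star_mul_self_nonneg _)).mpr h6
    rw [CStarRing.norm_star_mul_self, ← _root_.sq] at h7
    exact le_of_sq_le_sq h7 (by positivity)
  refine le_of_forall_pos_le_add fun ε hε => ?_
  have h1 := key (‖φ 1‖ + ε / (‖a‖ + 1)) (by positivity) (by
    have : 0 < ε / (‖a‖ + 1) := by positivity
    linarith)
  have h2 : ε / (‖a‖ + 1) * ‖a‖ ≤ ε := by
    rw [div_mul_eq_mul_div, div_le_iff₀ (by positivity)]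
    nlinarith [norm_nonneg a]
  linarith

end Pool.Agent.MP_86f3ed.Reg
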