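import Pool.Agent.H.MP_86f3ed_an.Reg.Dich

open scoped Topology

namespace Pool.Agent.MP_86f3ed.Reg.UPair

variable {B : Type*} [CStarAlgebra B] {X : Type*} [TopologicalSpace X] [CompactSpace X]
  [T2Space X] (P : UPair B X)

open Classical in
/-- A function carried by the normalizer `b`, restricted to the class of `m`, is continuous
where `m` does not vanish. -/
theorem continuousAt_ind {b m : B} (hb : b ∈ P.N) (hm : m ∈ P.N) {g : X → ℂ}
    (hg : Continuous g) (hgb : ∀ x, P.nu b x = 0 → g x = 0) {x₀ : X} (h0 : P.nu m x₀ ≠ 0) :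
    ContinuousAt (fun x => if P.ip x b m ≠ 0 then g x else 0) x₀ := by
  by_cases hb0 : P.nu b x₀ = 0
  · have hg0 : g x₀ = 0 := hgb x₀ hb0
    have h1 : (if P.ip x₀ b m ≠ 0 then g x₀ else 0) = 0 := by
      simp only [hg0, ite_self]
    show Filter.Tendsto (fun x => if P.ip x b m ≠ 0 then g x else 0) (𝓝 x₀)
      (𝓝 (if P.ip x₀ b m ≠ 0 then g x₀ else 0))
    rw [h1]
    have h2 : Filter.Tendsto (fun x => ‖g x‖) (𝓝 x₀) (𝓝 0) := by
      have := (hg.norm).tendsto x₀
      rwa [hg0, norm_zero] at this
    refine squeeze_zero_norm (fun x => ?_) h2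
    split_ifs
    · exact le_rfl
    · rw [norm_zero]
      exact norm_nonneg _
  · have h1 : ∀ᶠ x in 𝓝 x₀, P.nu b x ≠ 0 := (P.continuous_nu b).continuousAt.eventually_ne hb0
    have h2 : ∀ᶠ x in 𝓝 x₀, P.nu m x ≠ 0 := (P.continuous_nu m).continuousAt.eventually_ne h0
    have h3 : ContinuousAt (fun x => g x * ((‖P.ip x b m‖ ^ 2 / (P.nu b x * P.nu m x) : ℝ) : ℂ))
        x₀ := by
      refine hg.continuousAt.mul (Complex.continuous_ofReal.continuousAt.comp ?_)
      exact ((P.continuous_ip b m).norm.pow 2).continuousAt.div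
        ((P.continuous_nu b).mul (P.continuous_nu m)).continuousAt (mul_ne_zero hb0 h0)
    refine h3.congr ?_
    filter_upwards [h1, h2] with x hx1 hx2
    by_cases h4 : P.ip x b m = 0
    · simp [h4]
    · rw [if_pos h4, P.dich hb hm h4, div_self (mul_ne_zero hx1 hx2), Complex.ofReal_one, mul_one]

theorem ww_nonneg {J : Type*} [Fintype J] (b : J → B) (x : X) (m : B) : 0 ≤ P.ww b x m := by
  classical
  unfold ww
  refine Finset.sum_nonneg fun i _ => ?_
  split_ifs
  · positivity
  · exact le_rfl

theorem norm_ff_le {J : Type*} [Fintype J] (a b : J → B) (x : X) (m : B) :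
    ‖P.ff a b x m‖ ≤ ∑ i, ‖a i‖ * ‖b i‖ := by
  classical
  unfold ff
  refine (norm_sum_le _ _).trans (Finset.sum_le_sum fun i _ => ?_)
  split_ifs
  · exact P.norm_ip_le x (a i) (b i)
  · rw [norm_zero]
    positivity

theorem continuous_dd {J : Type*} [Fintype J] (a b : J → B) (hb : ∀ j, b j ∈ P.N) {δ : ℝ}
    (hδ : 0 < δ) (j : J) : Continuous (P.dd a b δ j) := by
  classical
  rw [continuous_iff_continuousAt]
  intro x₀
  by_cases h0 : P.nu (b j) x₀ = 0
  · have h1 : P.dd a b δ j x₀ = 0 := by
      unfold dd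
      rw [h0, mul_zero, zero_div]
    rw [ContinuousAt, h1]
    set C : ℝ := ∑ i, ‖a i‖ * ‖b i‖ with hC
    have h2 : Filter.Tendsto (fun x => Real.sqrt C * P.nu (b j) x / δ) (𝓝 x₀) (𝓝 0) := by
      have h3 : Continuous fun x => Real.sqrt C * P.nu (b j) x / δ :=
        (continuous_const.mul (P.continuous_nu (b j))).div_const δ
      have := h3.tendsto x₀
      rwa [h0, mul_zero, zero_div] at this
    refine squeeze_zero (fun x => ?_) (fun x => ?_) h2
    · unfold dd
      have h3 := P.ww_nonneg b x (b j)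
      have h4 := P.nu_nonneg (b j) x
      positivity
    · unfold dd
      have h3 := P.ww_nonneg b x (b j)
      have h4 := P.nu_nonneg (b j) x
      have h5 : Real.sqrt ‖P.ff a b x (b j)‖ ≤ Real.sqrt C :=
        Real.sqrt_le_sqrt (P.norm_ff_le a b x (b j))
      have h6 : δ ≤ P.ww b x (b j) + δ := by linarith
      gcongr
  · have hff : ContinuousAt (fun x => P.ff a b x (b j)) x₀ := by
      unfold ff
      refine tendsto_finsetSum _ fun i _ => ?_
      exact P.continuousAt_ind (hb i) (hb j) (P.continuous_ip (a i) (b i))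
        (fun x hx => P.ip_eq_zero_of_nu hx _) h0
    have hww : ContinuousAt (fun x => P.ww b x (b j)) x₀ := by
      unfold ww
      refine tendsto_finsetSum _ fun i _ => ?_
      have h1 := P.continuousAt_ind (hb i) (hb j) (g := fun x => ((P.nu (b i) x ^ 2 : ℝ) : ℂ))
        (Complex.continuous_ofReal.comp ((P.continuous_nu (b i)).pow 2))
        (fun x hx => by simp [hx]) h0
      have h2 := Complex.continuous_re.continuousAt.comp h1
      refine h2.congr (Filter.Eventually.of_forall fun x => ?_)
      simp only [Function.comp_apply]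
      split_ifs
      · rw [Complex.ofReal_re]
      · rw [Complex.zero_re]
    unfold dd
    refine ((hff.norm.sqrt).mul (P.continuous_nu (b j)).continuousAt).div
      (hww.add continuousAt_const) ?_
    have := P.ww_nonneg b x₀ (b j)
    linarith

end Pool.Agent.MP_86f3ed.Reg.UPair
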