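import Pool.Agent.H.MP_86f3ed_an.Reg.Trans

open scoped Topology

namespace Pool.Agent.MP_86f3ed.Reg.UPair

variable {B : Type*} [CStarAlgebra B] {X : Type*} [TopologicalSpace X] [CompactSpace X]
  [T2Space X] (P : UPair B X)

/-- Two normalizers are orthogonal or parallel at each point. -/
theorem dich {m n : B} (hm : m ∈ P.N) (hn : n ∈ P.N) {x : X} (h : P.ip x m n ≠ 0) :
    ‖P.ip x m n‖ ^ 2 = P.nu m x * P.nu n x := by
  have hνn : P.nu n x ≠ 0 := fun h0 => h (P.ip_eq_zero_of_nu h0 _)
  have hνc : (P.nu n x : ℂ) ≠ 0 := Complex.ofReal_ne_zero.mpr hνn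
  obtain ⟨y, hy⟩ := P.exists_point hn hνn
  set q := P.E (star m * n) with hq
  set k := P.E (m * star m) with hk
  have hmk : m * star m = P.ι k := P.mul_star_eq hm
  have hQ : P.ip x m n = q x := rfl
  have hag : star m * n * P.ι (star q) = P.ι (q * star q) :=
    P.agree _ (P.mul_mem _ (P.star_mem m hm) _ hn)
  have hstar : ∀ f : C(X, ℂ), star (P.ι f) = P.ι (star f) := fun f => (map_star P.ι f).symm
  -- first identity
  have e1 : P.ι q * (star n * P.ι k * n) * P.ι (star q) =
      P.ι (star (q * star q) * (q * star q)) := by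
    have h1 : star (star m * n * P.ι (star q)) * (star m * n * P.ι (star q)) =
        star (P.ι (q * star q)) * P.ι (q * star q) := by rw [hag]
    rw [hstar, ← map_mul] at h1
    rw [← h1, star_mul, star_mul, star_star, hstar, star_star, ← hmk]
    simp only [mul_assoc]
  have e2 : P.ι q * (star n * P.ι (star k * k) * n) * P.ι (star q) =
      P.ι (star (q * star q)) * (star m * m) * P.ι (q * star q) := by
    have h1 : P.ι k * n * P.ι (star q) = m * P.ι (q * star q) := by
      rw [← hag, ← hmk]
      simp only [mul_assoc]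
    have h2 : star (P.ι k * n * P.ι (star q)) * (P.ι k * n * P.ι (star q)) =
        star (m * P.ι (q * star q)) * (m * P.ι (q * star q)) := by rw [h1]
    rw [star_mul, star_mul, hstar, hstar, star_star, star_mul, hstar] at h2
    rw [map_mul P.ι (star k) k]
    simp only [mul_assoc] at h2 ⊢
    exact h2
  have f1 : P.E (P.ι q * (star n * P.ι k * n) * P.ι (star q)) x =
      P.E (P.ι (star (q * star q) * (q * star q))) x := by rw [e1]
  have f2 : P.E (P.ι q * (star n * P.ι (star k * k) * n) * P.ι (star q)) x =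
      P.E (P.ι (star (q * star q)) * (star m * m) * P.ι (q * star q)) x := by rw [e2]
  have hm2 : P.E (star m * m) x = (P.nu m x : ℂ) := P.ip_self x m
  rw [P.E_right, P.E_left, P.E_ι] at f1
  rw [P.E_right, P.E_left, P.E_right, P.E_left] at f2
  simp only [ContinuousMap.mul_apply, ContinuousMap.star_apply, star_mul', star_star, hy, hm2]
    at f1 f2
  rw [hQ] at h ⊢
  set Q := q x with hQdef
  set κ := k y with hκdef
  have hQs : star Q ≠ 0 := star_ne_zero.mpr h
  have g1 : (P.nu n x : ℂ) * κ = Q * star Q := by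
    have : (Q * star Q) * ((P.nu n x : ℂ) * κ) = (Q * star Q) * (Q * star Q) := by
      linear_combination f1
    exact mul_left_cancel₀ (mul_ne_zero h hQs) this
  have g1' : (P.nu n x : ℂ) * star κ = Q * star Q := by
    have h3 := congrArg star g1
    rw [star_mul', star_mul', star_star] at h3
    have h4 : star (P.nu n x : ℂ) = (P.nu n x : ℂ) := Complex.conj_ofReal _
    rw [h4] at h3
    rw [h3]
    ring
  have g2 : (P.nu n x : ℂ) * (star κ * κ) = (Q * star Q) * (P.nu m x : ℂ) := by
    have : (Q * star Q) * ((P.nu n x : ℂ) * (star κ * κ)) =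
        (Q * star Q) * ((Q * star Q) * (P.nu m x : ℂ)) := by
      linear_combination f2
    exact mul_left_cancel₀ (mul_ne_zero h hQs) this
  have g3 : (Q * star Q) * (Q * star Q) = (Q * star Q) * ((P.nu m x : ℂ) * (P.nu n x : ℂ)) := by
    calc (Q * star Q) * (Q * star Q) = ((P.nu n x : ℂ) * star κ) * ((P.nu n x : ℂ) * κ) := by
          rw [g1, g1']
      _ = (P.nu n x : ℂ) * ((P.nu n x : ℂ) * (star κ * κ)) := by ring
      _ = (P.nu n x : ℂ) * ((Q * star Q) * (P.nu m x : ℂ)) := by rw [g2]
      _ = _ := by ring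
  have g4 : Q * star Q = (P.nu m x : ℂ) * (P.nu n x : ℂ) :=
    mul_left_cancel₀ (mul_ne_zero h hQs) g3
  have g5 : ((‖Q‖ ^ 2 : ℝ) : ℂ) = Q * star Q := by
    rw [← Complex.normSq_eq_norm_sq, ← Complex.mul_conj]
    rfl
  rw [g4, ← Complex.ofReal_mul] at g5
  exact Complex.ofReal_injective g5

end Pool.Agent.MP_86f3ed.Reg.UPair
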