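import Pool.Agent.H.MP_86f3ed_an.Reg.Par
import Pool.Agent.H.MP_86f3ed_an.Reg.Dich

open scoped Topology

namespace Pool.Agent.MP_86f3ed.Reg.UPair

variable {B : Type*} [CStarAlgebra B] {X : Type*} [TopologicalSpace X] [CompactSpace X]
  [T2Space X] (P : UPair B X)

/-- The relation 'parallel at `x`' on the nonnull members of a family of normalizers. -/
def parSetoid {K : Type} (m : K → B) (hm : ∀ k, m k ∈ P.N) (x : X) :
    Setoid {k : K // P.nu (m k) x ≠ 0} where
  r k l := P.ip x (m k) (m l) ≠ 0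
  iseqv :=
    { refl := fun k => by
        rw [P.ip_self]
        exact Complex.ofReal_ne_zero.mpr k.2
      symm := fun {k l} h => by
        rw [P.ip_conj x (m k) (m l)]
        exact (map_ne_zero _).mpr h
      trans := fun {k l l'} h1 h2 => by
        have h3 := P.par (P.dich (hm l) (hm l') h2) (m k)
        intro h4
        rw [h4, mul_zero] at h3
        exact (mul_ne_zero h1 h2) h3 }

/-- A finite family of normalizers has an orthonormal family to which it is adapted. -/
theorem exists_ortho {K : Type} [Fintype K] (m : K → B) (hm : ∀ k, m k ∈ P.N) (x : X) :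
    ∃ (R : Type) (_ : Fintype R) (e : R → B), P.Ortho x e ∧ ∀ k, P.Adapted x e (m k) := by
  classical
  have hfin : Finite (Quotient (P.parSetoid m hm x)) := inferInstance
  let c : Quotient (P.parSetoid m hm x) → ℂ := fun r =>
    (((Real.sqrt (P.nu (m r.out) x))⁻¹ : ℝ) : ℂ)
  have hpos : ∀ r : Quotient (P.parSetoid m hm x), 0 < P.nu (m r.out) x := fun r =>
    lt_of_le_of_ne (P.nu_nonneg _ x) (Ne.symm r.out.2)
  have hc : ∀ r, c r * c r * (P.nu (m r.out) x : ℂ) = 1 := by
    intro r
    have h1 : (Real.sqrt (P.nu (m r.out) x))⁻¹ * (Real.sqrt (P.nu (m r.out) x))⁻¹ *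
        P.nu (m r.out) x = 1 := by
      have h2 := Real.mul_self_sqrt (hpos r).le
      have h3 : Real.sqrt (P.nu (m r.out) x) ≠ 0 := (Real.sqrt_pos.mpr (hpos r)).ne'
      field_simp
      nlinarith
    show (((Real.sqrt (P.nu (m r.out) x))⁻¹ : ℝ) : ℂ) *
      (((Real.sqrt (P.nu (m r.out) x))⁻¹ : ℝ) : ℂ) * (P.nu (m r.out) x : ℂ) = 1
    rw [← Complex.ofReal_mul, ← Complex.ofReal_mul, h1, Complex.ofReal_one]
  have hcc : ∀ r, (starRingEnd ℂ) (c r) = c r := fun r => Complex.conj_ofReal _
  refine ⟨Quotient (P.parSetoid m hm x), Fintype.ofFinite _, fun r => c r • m r.out, ⟨?_, ?_⟩, ?_⟩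
  · intro r
    rw [P.ip_smul_left, P.ip_smul_right, P.ip_self, hcc, ← mul_assoc, hc]
  · intro r s hrs
    rw [P.ip_smul_left, P.ip_smul_right]
    have h : P.ip x (m r.out) (m s.out) = 0 := by
      by_contra h
      apply hrs
      have h1 : Quotient.mk (P.parSetoid m hm x) r.out = Quotient.mk (P.parSetoid m hm x) s.out :=
        Quotient.sound h
      rwa [Quotient.out_eq, Quotient.out_eq] at h1
    rw [h, mul_zero, mul_zero]
  · intro k
    by_cases h0 : P.nu (m k) x = 0
    · exact Or.inl h0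
    · refine Or.inr ⟨Quotient.mk (P.parSetoid m hm x) ⟨k, h0⟩, ?_⟩
      have h1 : P.ip x (m (Quotient.mk (P.parSetoid m hm x) ⟨k, h0⟩).out) (m k) ≠ 0 :=
        Quotient.exact (Quotient.out_eq (Quotient.mk (P.parSetoid m hm x) ⟨k, h0⟩))
      have h2 := P.dich (hm _) (hm k) h1
      have h3 := hc (Quotient.mk (P.parSetoid m hm x) ⟨k, h0⟩)
      rw [P.ip_smul_left, norm_mul, mul_pow, h2, RCLike.norm_conj]
      have h4 : ‖c (Quotient.mk (P.parSetoid m hm x) ⟨k, h0⟩)‖ ^ 2 *
          P.nu (m (Quotient.mk (P.parSetoid m hm x) ⟨k, h0⟩).out) x = 1 := by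
        have h5 := congrArg norm h3
        have h6 : ‖((P.nu (m (Quotient.mk (P.parSetoid m hm x) ⟨k, h0⟩).out) x : ℝ) : ℂ)‖ =
            P.nu (m (Quotient.mk (P.parSetoid m hm x) ⟨k, h0⟩).out) x := by
          rw [Complex.norm_real]
          exact Real.norm_of_nonneg (P.nu_nonneg _ x)
        rw [norm_mul, norm_mul, norm_one, h6] at h5
        rw [sq]
        exact h5
      rw [← mul_assoc, h4, one_mul]

end Pool.Agent.MP_86f3ed.Reg.UPair
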