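import Mathlib

open scoped Topology

namespace Pool.Agent.MP_86f3ed.Reg

/-- Finite partitions of unity approximating finitely many continuous functions. -/
theorem exists_partition {X : Type*} [TopologicalSpace X] [CompactSpace X] [T2Space X]
    {K : Type*} [Finite K] (g : K → C(X, ℂ)) {ε : ℝ} (hε : 0 < ε) :
    ∃ (T : Type) (_ : Fintype T) (p : T → X) (h : T → C(X, ℂ)),
      (∀ t, ∃ k : C(X, ℂ), h t = star k * k) ∧ (∑ t, h t = 1) ∧
      ∀ k, ‖g k - ∑ t, (g k (p t)) • h t‖ ≤ ε := by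
  classical
  set U : X → Set X := fun x₀ => {x | ∀ k, ‖g k x - g k x₀‖ < ε} with hU
  have hUo : ∀ x₀, IsOpen (U x₀) := by
    intro x₀
    have : U x₀ = ⋂ k, {x | ‖g k x - g k x₀‖ < ε} := by
      ext x
      simp [hU]
    rw [this]
    exact isOpen_iInter_of_finite fun k => isOpen_lt (by fun_prop) continuous_const
  have hUm : ∀ x₀, U x₀ ∈ 𝓝 x₀ := fun x₀ => (hUo x₀).mem_nhds (fun k => by simpa using hε)
  obtain ⟨s, hs⟩ := CompactSpace.elim_nhds_subcover U hUm
  set p : Fin s.card → X := fun i => (s.equivFin.symm i : X) with hp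
  have hcov : (Set.univ : Set X) ⊆ ⋃ i, U (p i) := by
    intro x _
    have hx : x ∈ ⋃ x₀ ∈ s, U x₀ := by rw [hs]; trivial
    rw [Set.mem_iUnion₂] at hx
    obtain ⟨x₀, hx₀, hx⟩ := hx
    rw [Set.mem_iUnion]
    exact ⟨s.equivFin ⟨x₀, hx₀⟩, by simpa [hp] using hx⟩
  obtain ⟨f, hf⟩ := PartitionOfUnity.exists_isSubordinate isClosed_univ (fun i => U (p i))
    (fun i => hUo _) hcov
  have hsum : ∀ x, ∑ i, f i x = 1 := by
    intro x
    rw [← finsum_eq_sum_of_fintype]
    exact f.sum_eq_one (Set.mem_univ x)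
  refine ⟨Fin s.card, inferInstance, p, fun i => ⟨fun x => ((f i x : ℝ) : ℂ), by fun_prop⟩, ?_, ?_, ?_⟩
  · intro i
    refine ⟨⟨fun x => ((Real.sqrt (f i x) : ℝ) : ℂ), by fun_prop⟩, ?_⟩
    ext x
    simp only [ContinuousMap.coe_mk, ContinuousMap.mul_apply, ContinuousMap.star_apply,
      RCLike.star_def, Complex.conj_ofReal]
    rw [← Complex.ofReal_mul, Real.mul_self_sqrt (f.nonneg i x)]
  · ext x
    simp only [ContinuousMap.coe_sum, Finset.sum_apply, ContinuousMap.coe_mk, ContinuousMap.one_apply]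
    rw [← Complex.ofReal_sum, hsum x, Complex.ofReal_one]
  · intro k
    rw [ContinuousMap.norm_le _ hε.le]
    intro x
    simp only [ContinuousMap.sub_apply, ContinuousMap.coe_sum, Finset.sum_apply,
      ContinuousMap.coe_smul, Pi.smul_apply, ContinuousMap.coe_mk, smul_eq_mul]
    have h1 : g k x = ∑ i, g k x * ((f i x : ℝ) : ℂ) := by
      rw [← Finset.mul_sum, ← Complex.ofReal_sum, hsum x, Complex.ofReal_one, mul_one]
    have h2 : g k x - ∑ i, g k (p i) * ((f i x : ℝ) : ℂ) =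
        ∑ i, (g k x - g k (p i)) * ((f i x : ℝ) : ℂ) := by
      conv_lhs => rw [h1]
      rw [← Finset.sum_sub_distrib]
      exact Finset.sum_congr rfl fun i _ => by ring
    rw [h2]
    refine (norm_sum_le _ _).trans ?_
    have h3 : ∀ i ∈ Finset.univ, ‖(g k x - g k (p i)) * ((f i x : ℝ) : ℂ)‖ ≤ ε * f i x := by
      intro i _
      rw [norm_mul, Complex.norm_real, Real.norm_of_nonneg (f.nonneg i x)]
      by_cases hz : f i x = 0
      · rw [hz]
        simp
      · have hmem : x ∈ U (p i) := hf i (subset_closure hz)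
        exact mul_le_mul_of_nonneg_right (hmem k).le (f.nonneg i x)
    refine (Finset.sum_le_sum h3).trans ?_
    rw [← Finset.mul_sum, hsum x, mul_one]

end Pool.Agent.MP_86f3ed.Reg
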