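import Pool.Agent.H.MP_86f3ed_an.Reg.CP
import Pool.Agent.H.MP_86f3ed_an.Reg.Basic

open scoped Topology InnerProductSpace

namespace Pool.Agent.MP_86f3ed.Reg.UPair

variable {B : Type*} [CStarAlgebra B] {X : Type*} [TopologicalSpace X] [CompactSpace X]
  (P : UPair B X)

open Classical in
/-- The map back into `B`. -/
theorem exists_psi (N : ℕ) {T : Type*} (τ : Fin N → T) (h : T → C(X, ℂ))
    (hh : ∀ t, ∃ k : C(X, ℂ), h t = star k * k) (D : Fin N → B) :
    ∃ ψ : Mat N →ₗ[ℂ] B, IsCP ψ ∧
      ∀ S : Mat N, ψ S = ∑ α, ∑ β, if τ α = τ β then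
        ⟪EuclideanSpace.single α (1 : ℂ), S (EuclideanSpace.single β (1 : ℂ))⟫_ℂ •
          (star (D α) * P.ι (h (τ α)) * D β) else 0 := by
  choose k hk using hh
  let E : Fin N → EuclideanSpace ℂ (Fin N) := fun α => EuclideanSpace.single α (1 : ℂ)
  let c : Fin N → Fin N → B := fun α β =>
    if τ α = τ β then star (D α) * P.ι (h (τ α)) * D β else 0
  let ψ : Mat N →ₗ[ℂ] B :=
    { toFun := fun S => ∑ α, ∑ β, ⟪E α, S (E β)⟫_ℂ • c α β
      map_add' := by
        intro S S'
        simp only [ContinuousLinearMap.add_apply, inner_add_right, add_smul,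
          Finset.sum_add_distrib]
      map_smul' := by
        intro r S
        simp only [ContinuousLinearMap.smul_apply, inner_smul_right, mul_smul, Finset.smul_sum,
          RingHom.id_apply] }
  have hιh : ∀ t, P.ι (h t) = star (P.ι (k t)) * P.ι (k t) := by
    intro t
    rw [hk t, map_mul, map_star]
  refine ⟨ψ, ?_, ?_⟩
  · intro n S b
    let s : Fin n → Fin N → Fin N → ℂ := fun j γ β => ⟪E γ, S j (E β)⟫_ℂ
    let T' : Finset T := Finset.univ.image τ
    let w : Fin n × Fin N → Fin N × T → B := fun p g =>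
      P.ι (k g.2) * (if τ p.2 = g.2 then s p.1 g.1 p.2 • (D p.2 * b p.1) else 0)
    obtain ⟨c', hc'⟩ := exists_sum_star (Finset.univ ×ˢ T' : Finset (Fin N × T))
      (fun g => ∑ p, w p g)
    refine ⟨c', ?_⟩
    rw [← hc']
    have hentry : ∀ i j α β, ⟪E α, (star (S i) * S j) (E β)⟫_ℂ =
        ∑ γ, (starRingEnd ℂ) (s i γ α) * s j γ β := by
      intro i j α β
      rw [ContinuousLinearMap.star_eq_adjoint, ContinuousLinearMap.mul_apply,
        ContinuousLinearMap.adjoint_inner_right]
      rw [← (EuclideanSpace.basisFun (Fin N) ℂ).sum_inner_mul_inner (S i (E α)) (S j (E β))]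
      refine Finset.sum_congr rfl fun γ _ => ?_
      rw [EuclideanSpace.basisFun_apply, ← inner_conj_symm]
    have hw : ∀ i j α β, ∑ g ∈ (Finset.univ ×ˢ T' : Finset (Fin N × T)),
        star (w (i, α) g) * w (j, β) g =
        star (b i) * (⟪E α, (star (S i) * S j) (E β)⟫_ℂ • c α β) * b j := by
      intro i j α β
      rw [Finset.sum_product, hentry, Finset.sum_smul, Finset.mul_sum, Finset.sum_mul]
      refine Finset.sum_congr rfl fun γ _ => ?_
      have h1 : ∀ t ∈ T', star (w (i, α) (γ, t)) * w (j, β) (γ, t) =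
          if τ α = t then star (b i) * (((starRingEnd ℂ) (s i γ α) * s j γ β) • c α β) * b j
          else 0 := by
        intro t _
        simp only [w, c]
        by_cases ha : τ α = t
        · subst ha
          simp only [if_true]
          by_cases hb : τ β = τ α
          · simp only [hb, if_true, hιh, star_mul, star_smul, mul_smul_comm, smul_mul_assoc,
              smul_smul, mul_assoc, Complex.star_def]
            rw [mul_comm (s j γ β)]
          · rw [if_neg hb, if_neg (fun h => hb h.symm)]
            simp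
        · rw [if_neg ha, if_neg ha]
          simp
      rw [Finset.sum_congr rfl h1, Finset.sum_ite_eq, if_pos]
      exact Finset.mem_image_of_mem _ (Finset.mem_univ _)
    calc ∑ i, ∑ j, star (b i) * ψ (star (S i) * S j) * b j
        = ∑ i, ∑ j, ∑ α, ∑ β,
            star (b i) * (⟪E α, (star (S i) * S j) (E β)⟫_ℂ • c α β) * b j := by
          refine Finset.sum_congr rfl fun i _ => Finset.sum_congr rfl fun j _ => ?_
          show star (b i) * (∑ α, ∑ β, ⟪E α, (star (S i) * S j) (E β)⟫_ℂ • c α β) * b j = _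
          simp only [Finset.mul_sum, Finset.sum_mul]
      _ = ∑ i, ∑ j, ∑ α, ∑ β, ∑ g ∈ (Finset.univ ×ˢ T' : Finset (Fin N × T)),
            star (w (i, α) g) * w (j, β) g := by simp only [hw]
      _ = ∑ g ∈ (Finset.univ ×ˢ T' : Finset (Fin N × T)), ∑ i, ∑ j, ∑ α, ∑ β,
            star (w (i, α) g) * w (j, β) g :=
          Eq.symm (Finset.sum_comm.trans (Finset.sum_congr rfl fun i _ =>
            Finset.sum_comm.trans (Finset.sum_congr rfl fun j _ =>
            Finset.sum_comm.trans (Finset.sum_congr rfl fun α _ => Finset.sum_comm))))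
      _ = ∑ g ∈ (Finset.univ ×ˢ T' : Finset (Fin N × T)), star (∑ p, w p g) * ∑ p, w p g := by
          refine Finset.sum_congr rfl fun g _ => ?_
          rw [star_sum, Finset.sum_mul_sum]
          simp only [Fintype.sum_prod_type]
          refine Finset.sum_congr rfl fun i _ => ?_
          rw [Finset.sum_comm]
  · intro S
    show ∑ α, ∑ β, ⟪E α, S (E β)⟫_ℂ • c α β = _
    refine Finset.sum_congr rfl fun α _ => Finset.sum_congr rfl fun β _ => ?_
    simp only [c, smul_ite, smul_zero]
    rfl

end Pool.Agent.MP_86f3ed.Reg.UPair
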