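import Pool.Agent.H.MP_86f3ed_an.Reg.Phi
import Pool.Agent.H.MP_86f3ed_an.Reg.Psi
import Pool.Agent.H.MP_86f3ed_an.Reg.Part
import Pool.Agent.H.MP_86f3ed_an.Reg.Ortho

open scoped Topology InnerProductSpace

namespace Pool.Agent.MP_86f3ed.Reg.UPair

variable {B : Type*} [CStarAlgebra B] {X : Type*} [TopologicalSpace X] [CompactSpace X]
  [T2Space X] (P : UPair B X)

omit [T2Space X] in
/-- The block of the composition over one point. -/
theorem disc_block {J : Type} [Fintype J] (b : J → B) (c : J → C(X, ℂ)) {R : Type} [Fintype R]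
    {x : X} {e : R → B} (he : P.Ortho x e) (had : ∀ j, P.Adapted x e (star (b j)))
    (h : C(X, ℂ)) (z : B) :
    ∑ r, ∑ s, P.ip x (e r) (z * e s) •
      (star (∑ j, P.ip x (e r) (star (b j)) • (b j * P.ι (c j))) * P.ι h *
        ∑ j, P.ip x (e s) (star (b j)) • (b j * P.ι (c j)))
      = ∑ i, ∑ j, star (b i * P.ι (c i)) *
          P.ι ((P.E (b i * z * star (b j)) x) • h) * (b j * P.ι (c j)) := by
  have h1 : ∀ r j, ∑ s, P.ip x (e r) (z * e s) * P.ip x (e s) (star (b j))
      = P.ip x (e r) (z * star (b j)) := by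
    intro r j
    have h2 := he.parseval (had j) (star z * e r)
    rw [P.ip_mul_right x (e r) (star (b j)) z, ← h2]
    refine Finset.sum_congr rfl fun s _ => ?_
    rw [P.ip_mul_right x (e r) (e s) z]
  have h3 : ∀ i j, ∑ r, P.ip x (e r) (z * star (b j)) *
      (starRingEnd ℂ) (P.ip x (e r) (star (b i))) = P.E (b i * z * star (b j)) x := by
    intro i j
    have h2 := he.parseval (had i) (z * star (b j))
    have h4 : P.E (b i * z * star (b j)) x = P.ip x (star (b i)) (z * star (b j)) := by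
      rw [ip, star_star, mul_assoc]
    rw [h4, P.ip_conj x (z * star (b j)) (star (b i)), ← h2, map_sum]
    refine Finset.sum_congr rfl fun r _ => ?_
    rw [map_mul, ← P.ip_conj x (z * star (b j)) (e r)]
  have h5 : ∀ r, ∑ s, P.ip x (e r) (z * e s) •
      (star (∑ j, P.ip x (e r) (star (b j)) • (b j * P.ι (c j))) * P.ι h *
        ∑ j, P.ip x (e s) (star (b j)) • (b j * P.ι (c j)))
      = ∑ j, (star (∑ j, P.ip x (e r) (star (b j)) • (b j * P.ι (c j))) * P.ι h) *
        (P.ip x (e r) (z * star (b j)) • (b j * P.ι (c j))) := by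
    intro r
    simp_rw [← h1, Finset.mul_sum, Finset.sum_smul, Finset.smul_sum, Finset.mul_sum]
    rw [Finset.sum_comm]
    refine Finset.sum_congr rfl fun j _ => Finset.sum_congr rfl fun s _ => ?_
    rw [mul_smul_comm, mul_smul_comm, smul_smul]
  rw [Finset.sum_congr rfl fun r _ => h5 r, Finset.sum_comm]
  conv_rhs => rw [Finset.sum_comm]
  refine Finset.sum_congr rfl fun j _ => ?_
  have h6 : ∑ i, star (b i * P.ι (c i)) * P.ι ((P.E (b i * z * star (b j)) x) • h) *
      (b j * P.ι (c j)) = (∑ i, (P.E (b i * z * star (b j)) x) • star (b i * P.ι (c i))) *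
        P.ι h * (b j * P.ι (c j)) := by
    rw [Finset.sum_mul, Finset.sum_mul]
    refine Finset.sum_congr rfl fun i _ => ?_
    rw [map_smul, mul_smul_comm, smul_mul_assoc, smul_mul_assoc, smul_mul_assoc]
  rw [h6]
  simp_rw [← h3]
  have h7 : ∀ r, star (∑ j, P.ip x (e r) (star (b j)) • (b j * P.ι (c j))) * P.ι h *
        (P.ip x (e r) (z * star (b j)) • (b j * P.ι (c j)))
      = ∑ i, (P.ip x (e r) (z * star (b j)) * (starRingEnd ℂ) (P.ip x (e r) (star (b i)))) •
        (star (b i * P.ι (c i)) * P.ι h * (b j * P.ι (c j))) := by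
    intro r
    rw [star_sum, Finset.sum_mul, Finset.sum_mul]
    refine Finset.sum_congr rfl fun i _ => ?_
    rw [star_smul, mul_smul_comm, smul_mul_assoc, smul_mul_assoc, smul_smul]
    rfl
  rw [Finset.sum_congr rfl fun r _ => h7 r, Finset.sum_comm, Finset.sum_mul, Finset.sum_mul]
  refine Finset.sum_congr rfl fun i _ => ?_
  rw [← Finset.sum_smul, smul_mul_assoc, smul_mul_assoc]

/-- Factorization of `psi` through matrices, up to `ε` on a finite set. -/
theorem disc {J : Type} [Fintype J] (b : J → B) (hb : ∀ j, b j ∈ P.N) (c : J → C(X, ℂ))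
    (F : Finset B) {ε : ℝ} (hε : 0 < ε) :
    ∃ (N : ℕ) (φ : B →ₗ[ℂ] Mat N) (ψ : Mat N →ₗ[ℂ] B), IsCP φ ∧ IsCP ψ ∧ φ 1 = 1 ∧
      ∀ z ∈ F, ‖ψ (φ z) - P.psi b c z‖ ≤ ε := by
  classical
  obtain ⟨C, hC⟩ : ∃ C : ℝ, C = ∑ i, ∑ j, ‖b i * P.ι (c i)‖ * ‖b j * P.ι (c j)‖ := ⟨_, rfl⟩
  have hC0 : 0 ≤ C := by
    rw [hC]
    exact Finset.sum_nonneg fun i _ => Finset.sum_nonneg fun j _ => by positivity
  have hε' : 0 < ε / (C + 1) := by positivity
  obtain ⟨T, _, p, h, hk, hsum, happ⟩ := exists_partition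
    (fun k : J × J × F => P.E (b k.1 * (k.2.2 : B) * star (b k.2.1))) hε'
  choose R instR e he had using fun t =>
    P.exists_ortho (fun j => star (b j)) (fun j => P.star_mem _ (hb j)) (p t)
  obtain ⟨N, eq⟩ : ∃ N, Nonempty (Fin N ≃ Σ t, R t) :=
    ⟨_, ⟨(Fintype.equivFin (Σ t, R t)).symm⟩⟩
  obtain ⟨eq⟩ := eq
  obtain ⟨φ, hφ, hφ1, hφf⟩ := P.exists_phi N (fun α => (eq α).1) p (fun α => e (eq α).1 (eq α).2)
    (fun α => (he (eq α).1).one (eq α).2) (by
      intro α β hαβ hτ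
      have h1 : eq α ≠ eq β := fun h => hαβ (eq.injective h)
      revert h1 hτ
      generalize eq α = x
      generalize eq β = y
      obtain ⟨t, r⟩ := x
      obtain ⟨t', s⟩ := y
      intro hτ h1
      simp only at hτ
      subst hτ
      exact (he t).zero r s (fun h => h1 (by rw [h])))
  obtain ⟨ψ, hψ, hψf⟩ := P.exists_psi N (fun α => (eq α).1) h hk
    (fun α => ∑ j, P.ip (p (eq α).1) (e (eq α).1 (eq α).2) (star (b j)) • (b j * P.ι (c j)))
  refine ⟨N, φ, ψ, hφ, hψ, hφ1, fun z hz => ?_⟩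
  -- the composition
  have hcomp : ψ (φ z) = ∑ i, ∑ j, star (b i * P.ι (c i)) *
      P.ι (∑ t, (P.E (b i * z * star (b j)) (p t)) • h t) * (b j * P.ι (c j)) := by
    rw [hψf]
    obtain ⟨G, hG⟩ : ∃ G : (Σ t, R t) → (Σ t, R t) → B, ∀ x y, G x y = if x.1 = y.1 then
        P.ip (p x.1) (e x.1 x.2) (z * e y.1 y.2) •
          (star (∑ j, P.ip (p x.1) (e x.1 x.2) (star (b j)) • (b j * P.ι (c j))) * P.ι (h x.1) *
            ∑ j, P.ip (p y.1) (e y.1 y.2) (star (b j)) • (b j * P.ι (c j))) else 0 :=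
      ⟨_, fun _ _ => rfl⟩
    have h1 : ∀ α β, (if (eq α).1 = (eq β).1 then
        ⟪EuclideanSpace.single α (1 : ℂ), φ z (EuclideanSpace.single β (1 : ℂ))⟫_ℂ •
          (star (∑ j, P.ip (p (eq α).1) (e (eq α).1 (eq α).2) (star (b j)) •
            (b j * P.ι (c j))) * P.ι (h (eq α).1) *
            ∑ j, P.ip (p (eq β).1) (e (eq β).1 (eq β).2) (star (b j)) • (b j * P.ι (c j)))
          else 0) = G (eq α) (eq β) := by
      intro α β
      rw [hG, hφf]
      by_cases h2 : (eq α).1 = (eq β).1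
      · rw [if_pos h2, if_pos h2, if_pos h2]
      · rw [if_neg h2, if_neg h2]
    have h2 : ∑ α, ∑ β, (if (eq α).1 = (eq β).1 then
        ⟪EuclideanSpace.single α (1 : ℂ), φ z (EuclideanSpace.single β (1 : ℂ))⟫_ℂ •
          (star (∑ j, P.ip (p (eq α).1) (e (eq α).1 (eq α).2) (star (b j)) •
            (b j * P.ι (c j))) * P.ι (h (eq α).1) *
            ∑ j, P.ip (p (eq β).1) (e (eq β).1 (eq β).2) (star (b j)) • (b j * P.ι (c j)))
          else 0) = ∑ x, ∑ y, G x y := by
      rw [← eq.sum_comp]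
      refine Finset.sum_congr rfl fun α _ => ?_
      rw [← eq.sum_comp]
      exact Finset.sum_congr rfl fun β _ => h1 α β
    rw [h2, Fintype.sum_sigma]
    have h3 : ∀ t, ∑ r, ∑ y, G ⟨t, r⟩ y = ∑ i, ∑ j, star (b i * P.ι (c i)) *
          P.ι ((P.E (b i * z * star (b j)) (p t)) • h t) * (b j * P.ι (c j)) := by
      intro t
      rw [← P.disc_block b c (he t) (had t) (h t) z]
      refine Finset.sum_congr rfl fun r _ => ?_
      rw [Fintype.sum_sigma, Finset.sum_eq_single t]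
      · refine Finset.sum_congr rfl fun s _ => ?_
        rw [hG, if_pos rfl]
      · intro t' _ ht'
        refine Finset.sum_eq_zero fun s _ => ?_
        rw [hG, if_neg (fun h => ht' h.symm)]
      · intro h; exact absurd (Finset.mem_univ t) h
    rw [Finset.sum_congr rfl fun t _ => h3 t, Finset.sum_comm]
    refine Finset.sum_congr rfl fun i _ => ?_
    rw [Finset.sum_comm]
    refine Finset.sum_congr rfl fun j _ => ?_
    rw [map_sum, Finset.mul_sum, Finset.sum_mul]
  rw [hcomp, psi, ← Finset.sum_sub_distrib]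
  have h4 : ∀ i j, ‖star (b i * P.ι (c i)) *
      P.ι (∑ t, (P.E (b i * z * star (b j)) (p t)) • h t) * (b j * P.ι (c j)) -
      star (b i * P.ι (c i)) * P.ι (P.E (b i * z * star (b j))) * (b j * P.ι (c j))‖
      ≤ ‖b i * P.ι (c i)‖ * ‖b j * P.ι (c j)‖ * (ε / (C + 1)) := by
    intro i j
    rw [← sub_mul, ← mul_sub, ← map_sub]
    refine (norm_mul_le _ _).trans ?_
    refine (mul_le_mul_of_nonneg_right (norm_mul_le _ _) (norm_nonneg _)).trans ?_
    rw [norm_star, P.norm_ι, norm_sub_rev]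
    have h5 := happ (i, j, ⟨z, hz⟩)
    simp only at h5
    have h6 : ‖b i * P.ι (c i)‖ * ‖P.E (b i * z * star (b j)) -
        ∑ t, (P.E (b i * z * star (b j)) (p t)) • h t‖ * ‖b j * P.ι (c j)‖
        ≤ ‖b i * P.ι (c i)‖ * (ε / (C + 1)) * ‖b j * P.ι (c j)‖ := by
      gcongr
    refine h6.trans (le_of_eq ?_)
    ring
  have h7 : ‖∑ i, (∑ j, star (b i * P.ι (c i)) *
      P.ι (∑ t, (P.E (b i * z * star (b j)) (p t)) • h t) * (b j * P.ι (c j)) -
      ∑ j, star (b i * P.ι (c i)) * P.ι (P.E (b i * z * star (b j))) * (b j * P.ι (c j)))‖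
      ≤ C * (ε / (C + 1)) := by
    refine (norm_sum_le _ _).trans ?_
    rw [hC, Finset.sum_mul, ← hC]
    refine Finset.sum_le_sum fun i _ => ?_
    rw [← Finset.sum_sub_distrib]
    refine (norm_sum_le _ _).trans ?_
    rw [Finset.sum_mul]
    exact Finset.sum_le_sum fun j _ => h4 i j
  refine h7.trans ?_
  rw [← mul_div_assoc, div_le_iff₀ (by positivity)]
  nlinarith

end Pool.Agent.MP_86f3ed.Reg.UPair
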