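import Pool.Agent.H.MP_86f3ed_an.Reg.Public

open scoped Topology

namespace Pool.Agent.MP_86f3ed.Reg

theorem Down_exists_unit {A : Type*} [NonUnitalCStarAlgebra A] (F : Finset A) {ε : ℝ}
    (hε : 0 < ε) : ∃ e : A, star e = e ∧ ‖e‖ ≤ 1 ∧ ∀ a ∈ F, ‖e * a * e - a‖ ≤ ε := by
  let _ : PartialOrder A := CStarAlgebra.spectralOrder A
  let _ : StarOrderedRing A := CStarAlgebra.spectralOrderedRing A
  have h := CStarAlgebra.increasingApproximateUnit A
  have hne := h.neBot
  have h1 : ∀ a ∈ F, ∀ᶠ e in CStarAlgebra.approximateUnit A, ‖a * e - a‖ < ε / 2 := by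
    intro a _
    have := (Metric.tendsto_nhds.mp (h.tendsto_mul_left a)) (ε / 2) (by positivity)
    simpa [dist_eq_norm] using this
  have h2 : ∀ a ∈ F, ∀ᶠ e in CStarAlgebra.approximateUnit A, ‖e * a - a‖ < ε / 2 := by
    intro a _
    have := (Metric.tendsto_nhds.mp (h.tendsto_mul_right a)) (ε / 2) (by positivity)
    simpa [dist_eq_norm] using this
  have h1' := (Filter.eventually_all_finset F).mpr h1
  have h2' := (Filter.eventually_all_finset F).mpr h2
  obtain ⟨e, he1, he2, he3, he4⟩ :=
    (h.eventually_star_eq.and (h.eventually_norm.and (h1'.and h2'))).exists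
  refine ⟨e, he1, he2, fun a ha => ?_⟩
  have h3 : e * a * e - a = e * (a * e - a) + (e * a - a) := by
    rw [mul_sub, mul_assoc]; abel
  rw [h3]
  have h4 : ‖e * (a * e - a)‖ ≤ ‖a * e - a‖ := by
    refine (norm_mul_le _ _).trans ?_
    calc ‖e‖ * ‖a * e - a‖ ≤ 1 * ‖a * e - a‖ :=
          mul_le_mul_of_nonneg_right he2 (norm_nonneg _)
      _ = _ := one_mul _
  have h5 := norm_add_le (e * (a * e - a)) (e * a - a)
  have h6 := he3 a ha
  have h7 := he4 a ha
  linarith

/-- Nuclearity passes from the unitization to the algebra. -/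
theorem nuclear_of_unitization {A : Type*} [NonUnitalCStarAlgebra A]
    (h : Nuclear (Unitization ℂ A)) : Nuclear A := by
  classical
  intro F ε hε
  obtain ⟨e, hes, hen, hea⟩ := Down_exists_unit F (half_pos hε)
  obtain ⟨n, φ, ψ, hφ, hψ, hφn, hψn, hF⟩ :=
    h (Finset.image (Unitization.inrHom ℂ ℂ A) F) (ε / 2) (half_pos hε)
  set e' : Unitization ℂ A := (e : Unitization ℂ A) with he'
  have hes' : star e' = e' := by
    rw [he', ← Unitization.inr_star, hes]
  have hen' : ‖e'‖ ≤ 1 := by
    rw [he', Unitization.norm_inr]; exact hen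
  -- the compression
  let Q : Unitization ℂ A → A := fun z => (e' * z * e').snd
  have hQ : ∀ z, ((Q z : A) : Unitization ℂ A) = e' * z * e' := by
    intro z
    refine Unitization.ext ?_ ?_
    · simp [he']
    · simp [Q]
  let ψ' : Mat n →ₗ[ℂ] A :=
    { toFun := fun T => Q (ψ T)
      map_add' := by
        intro S T
        apply Unitization.inr_injective (R := ℂ)
        rw [hQ, Unitization.inr_add, hQ, hQ, map_add, mul_add, add_mul]
      map_smul' := by
        intro r T
        apply Unitization.inr_injective (R := ℂ)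
        rw [hQ, RingHom.id_apply, Unitization.inr_smul, hQ, map_smul, mul_smul_comm,
          smul_mul_assoc] }
  have hψ' : ∀ T, ((ψ' T : A) : Unitization ℂ A) = e' * ψ T * e' := fun T => hQ _
  refine ⟨n, φ.comp (Unitization.inrHom ℂ ℂ A), ψ', ?_, ?_, ?_, ?_, ?_⟩
  · intro m a b
    obtain ⟨c, hc⟩ := hφ m (fun i => ((a i : A) : Unitization ℂ A)) b
    refine ⟨c, ?_⟩
    rw [← hc]
    refine Finset.sum_congr rfl fun i _ => Finset.sum_congr rfl fun j _ => ?_
    congr 2
    rw [LinearMap.comp_apply, Unitization.inrHom_apply, Unitization.inr_mul,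
      Unitization.inr_star]
  · intro m S b
    obtain ⟨c, hc⟩ := hψ m S (fun i => e' * ((b i : A) : Unitization ℂ A))
    have h1 : ((∑ i, ∑ j, star (b i) * ψ' (star (S i) * S j) * b j : A) : Unitization ℂ A)
        = star c * c := by
      rw [← hc]
      have h2 : ∀ f : Fin m → A, ((∑ i, f i : A) : Unitization ℂ A)
          = ∑ i, ((f i : A) : Unitization ℂ A) := by
        intro f
        exact map_sum (Unitization.inrHom ℂ ℂ A) f Finset.univ
      rw [h2]
      refine Finset.sum_congr rfl fun i _ => ?_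
      rw [h2]
      refine Finset.sum_congr rfl fun j _ => ?_
      rw [Unitization.inr_mul, Unitization.inr_mul, hψ', Unitization.inr_star, star_mul, hes']
      simp only [mul_assoc]
    have h3 : c.fst = 0 := by
      have h4 := congrArg (fun z : Unitization ℂ A => z.fst) h1
      beta_reduce at h4
      rw [Unitization.fst_inr, Unitization.fst_mul, Unitization.fst_star] at h4
      have h5 : star c.fst * c.fst = 0 := h4.symm
      exact (CStarRing.star_mul_self_eq_zero_iff c.fst).mp h5
    have h6 : c = ((c.snd : A) : Unitization ℂ A) := by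
      refine Unitization.ext ?_ ?_
      · simp [h3]
      · simp
    refine ⟨c.snd, ?_⟩
    apply Unitization.inr_injective (R := ℂ)
    rw [h1, Unitization.inr_mul, Unitization.inr_star, ← h6]
  · intro a
    rw [LinearMap.comp_apply, Unitization.inrHom_apply]
    exact (hφn _).trans (le_of_eq (Unitization.norm_inr a))
  · intro T
    have h1 : ‖ψ' T‖ = ‖e' * ψ T * e'‖ := by
      rw [← hψ', Unitization.norm_inr]
    rw [h1]
    calc ‖e' * ψ T * e'‖ ≤ ‖e'‖ * ‖ψ T‖ * ‖e'‖ :=
          (norm_mul_le _ _).trans (mul_le_mul_of_nonneg_right (norm_mul_le _ _) (norm_nonneg _))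
      _ ≤ 1 * ‖ψ T‖ * 1 := by gcongr
      _ = ‖ψ T‖ := by ring
      _ ≤ ‖T‖ := hψn T
  · intro a ha
    have h1 : ‖ψ' (φ.comp (Unitization.inrHom ℂ ℂ A) a) - a‖
        = ‖e' * (ψ (φ (a : Unitization ℂ A)) - (a : Unitization ℂ A)) * e'
          + ((e * a * e - a : A) : Unitization ℂ A)‖ := by
      rw [← Unitization.norm_inr (𝕜 := ℂ)]
      congr 1
      rw [Unitization.inr_sub, hψ', LinearMap.comp_apply, Unitization.inrHom_apply,
        Unitization.inr_sub, Unitization.inr_mul, Unitization.inr_mul, ← he', mul_sub, sub_mul]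
      abel
    rw [h1]
    have h2 : ‖e' * (ψ (φ (a : Unitization ℂ A)) - (a : Unitization ℂ A)) * e'‖ ≤ ε / 2 := by
      have h3 := hF (a : Unitization ℂ A) (Finset.mem_image_of_mem (Unitization.inrHom ℂ ℂ A) ha)
      calc ‖e' * (ψ (φ (a : Unitization ℂ A)) - (a : Unitization ℂ A)) * e'‖
          ≤ ‖e'‖ * ‖ψ (φ (a : Unitization ℂ A)) - (a : Unitization ℂ A)‖ * ‖e'‖ :=
          (norm_mul_le _ _).trans (mul_le_mul_of_nonneg_right (norm_mul_le _ _) (norm_nonneg _))
        _ ≤ 1 * (ε / 2) * 1 := by gcongr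
        _ = ε / 2 := by ring
    have h4 : ‖((e * a * e - a : A) : Unitization ℂ A)‖ ≤ ε / 2 := by
      rw [Unitization.norm_inr]
      exact hea a ha
    have h5 := norm_add_le (e' * (ψ (φ (a : Unitization ℂ A)) - (a : Unitization ℂ A)) * e')
      ((e * a * e - a : A) : Unitization ℂ A)
    linarith

end Pool.Agent.MP_86f3ed.Reg
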