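import Pool.Agent.H.MP_86f3ed_an.Reg.Par

open scoped Topology

namespace Pool.Agent.MP_86f3ed.Reg.UPair

variable {B : Type*} [CStarAlgebra B] {X : Type*} [TopologicalSpace X] [CompactSpace X]
  {P : UPair B X} {x : X} {R : Type*} [Fintype R] {e : R → B} {J : Type*} [Fintype J]

/-- If an adapted vector sees `e r`, then `e r` carries it. -/
theorem Ortho.carry (he : P.Ortho x e) {v : B} (hv : P.Adapted x e v) {r : R}
    (hr : P.ip x (e r) v ≠ 0) : ‖P.ip x (e r) v‖ ^ 2 = P.nu v x ∧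
      ∀ a, P.ip x a (e r) * P.ip x (e r) v = P.ip x a v := by
  have h0 : P.nu v x ≠ 0 := fun h => hr (P.ip_eq_zero_of_nu h _)
  obtain ⟨r', h1, h2, h3⟩ := he.exists_unique hv h0
  have hrr : r = r' := by
    by_contra h
    exact hr (h2 r h)
  subst hrr
  exact ⟨h1, h3⟩

theorem ff_eq (he : P.Ortho x e) {a b : J → B} (hb : ∀ i, P.Adapted x e (b i)) {m : B}
    (hm : P.Adapted x e m) {r : R} (hr : P.ip x (e r) m ≠ 0) :
    P.ff a b x m = ∑ i, P.ip x (a i) (e r) * P.ip x (e r) (b i) := by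
  classical
  unfold ff
  refine Finset.sum_congr rfl fun i _ => ?_
  by_cases h : P.ip x (e r) (b i) = 0
  · have h1 : ¬ P.ip x (b i) m ≠ 0 := by
      rw [he.ip_ne_zero_iff (hb i) hm hr]
      exact fun h2 => h2 h
    rw [if_neg h1, h, mul_zero]
  · have h1 : P.ip x (b i) m ≠ 0 := (he.ip_ne_zero_iff (hb i) hm hr).mpr h
    rw [if_pos h1, (he.carry (hb i) h).2]

theorem ww_eq (he : P.Ortho x e) {b : J → B} (hb : ∀ i, P.Adapted x e (b i)) {m : B}
    (hm : P.Adapted x e m) {r : R} (hr : P.ip x (e r) m ≠ 0) :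
    P.ww b x m = ∑ i, ‖P.ip x (e r) (b i)‖ ^ 4 := by
  classical
  unfold ww
  refine Finset.sum_congr rfl fun i _ => ?_
  by_cases h : P.ip x (e r) (b i) = 0
  · have h1 : ¬ P.ip x (b i) m ≠ 0 := by
      rw [he.ip_ne_zero_iff (hb i) hm hr]
      exact fun h2 => h2 h
    rw [if_neg h1, h, norm_zero]
    norm_num
  · have h1 : P.ip x (b i) m ≠ 0 := (he.ip_ne_zero_iff (hb i) hm hr).mpr h
    rw [if_pos h1, ← (he.carry (hb i) h).1]
    ring

theorem eta_eq (he : P.Ortho x e) {a b : J → B} (hb : ∀ i, P.Adapted x e (b i)) {δ : ℝ}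
    (hδ : 0 < δ) (r : R) :
    ∑ j, P.dd a b δ j x * ‖P.ip x (e r) (b j)‖ ^ 2 =
      Real.sqrt ‖∑ i, P.ip x (a i) (e r) * P.ip x (e r) (b i)‖ *
        (∑ i, ‖P.ip x (e r) (b i)‖ ^ 4) / ((∑ i, ‖P.ip x (e r) (b i)‖ ^ 4) + δ) := by
  rw [Finset.mul_sum, Finset.sum_div]
  refine Finset.sum_congr rfl fun j _ => ?_
  by_cases h : P.ip x (e r) (b j) = 0
  · rw [h, norm_zero]
    norm_num
  · unfold dd
    rw [ff_eq he hb (hb j) h, ww_eq he hb (hb j) h, ← (he.carry (hb j) h).1]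
    ring

end Pool.Agent.MP_86f3ed.Reg.UPair
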