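import Pool.Agent.H.MP_86f3ed_an.Reg.Par

open scoped Topology

namespace Pool.Agent.MP_86f3ed.Reg.UPair

variable {B : Type*} [CStarAlgebra B] {X : Type*} [TopologicalSpace X] [CompactSpace X]
  {P : UPair B X} {x : X} {R : Type*} [Fintype R] {e : R → B} {J : Type*} [Fintype J]

theorem ip_transport {n : B} {y : X}
    (hy : ∀ c : B, P.E (star n * c * n) x = P.nu n x * P.E c y) (a b : B) :
    P.ip x (a * n) (b * n) = P.nu n x * P.ip y a b := by
  rw [ip, ip, ← hy]
  congr 2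
  rw [star_mul]
  simp only [mul_assoc]

theorem nu_transport {n : B} {y : X}
    (hy : ∀ c : B, P.E (star n * c * n) x = P.nu n x * P.E c y) (b : B) :
    P.nu (b * n) x = P.nu n x * P.nu b y := by
  have h := ip_transport hy b b
  rw [P.ip_self, P.ip_self] at h
  exact_mod_cast h

/-- The nonnull adapted vector carried by `e r`. -/
theorem Ortho.carried (he : P.Ortho x e) {v : B} (hv : P.Adapted x e v) {r : R}
    (hr : P.ip x (e r) v ≠ 0) : ‖P.ip x (e r) v‖ ^ 2 = P.nu v x ∧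
      ∀ a, P.ip x a (e r) * P.ip x (e r) v = P.ip x a v := by
  have h0 : P.nu v x ≠ 0 := fun h => hr (P.ip_eq_zero_of_nu h _)
  obtain ⟨r', h1, h2, h3⟩ := he.exists_unique hv h0
  have hrr : r = r' := by
    by_contra h
    exact hr (h2 r h)
  subst hrr
  exact ⟨h1, h3⟩

theorem cond_transport (he : P.Ortho x e) {b : J → B} {n : B} {y : X} (hx : P.nu n x ≠ 0)
    (hy : ∀ c : B, P.E (star n * c * n) x = P.nu n x * P.E c y)
    (hb : ∀ i, P.Adapted x e (b i * n)) {r : R} {j : J} (hj : P.ip x (e r) (b j * n) ≠ 0)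
    (i : J) : P.ip y (b i) (b j) ≠ 0 ↔ P.ip x (e r) (b i * n) ≠ 0 := by
  rw [← he.ip_ne_zero_iff (hb i) (hb j) hj, ip_transport hy]
  have hx' : (P.nu n x : ℂ) ≠ 0 := by exact_mod_cast hx
  constructor
  · intro h
    exact mul_ne_zero hx' h
  · intro h
    exact right_ne_zero_of_mul h

theorem ff_transport (he : P.Ortho x e) {a b : J → B} {n : B} {y : X} (hx : P.nu n x ≠ 0)
    (hy : ∀ c : B, P.E (star n * c * n) x = P.nu n x * P.E c y)
    (hb : ∀ i, P.Adapted x e (b i * n)) {r : R} {j : J} (hj : P.ip x (e r) (b j * n) ≠ 0) :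
    P.ff a b y (b j) =
      (∑ i, P.ip x (a i * n) (e r) * P.ip x (e r) (b i * n)) / (P.nu n x : ℂ) := by
  classical
  have hx' : (P.nu n x : ℂ) ≠ 0 := by exact_mod_cast hx
  rw [ff, Finset.sum_div]
  refine Finset.sum_congr rfl fun i _ => ?_
  by_cases h : P.ip x (e r) (b i * n) ≠ 0
  · have h1 : P.ip y (b i) (b j) ≠ 0 := (cond_transport he hx hy hb hj i).mpr h
    rw [if_pos h1, (he.carried (hb i) h).2, ip_transport hy, mul_div_cancel_left₀ _ hx']
  · have h1 : ¬ P.ip y (b i) (b j) ≠ 0 := fun h2 => h ((cond_transport he hx hy hb hj i).mp h2)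
    rw [if_neg h1, not_not.mp h, mul_zero, zero_div]

theorem nu_transport_carried (he : P.Ortho x e) {b : J → B} {n : B} {y : X} (hx : P.nu n x ≠ 0)
    (hy : ∀ c : B, P.E (star n * c * n) x = P.nu n x * P.E c y)
    (hb : ∀ i, P.Adapted x e (b i * n)) {r : R} {i : J} (hi : P.ip x (e r) (b i * n) ≠ 0) :
    P.nu (b i) y = (‖P.ip x (e r) (b i * n)‖ / Real.sqrt (P.nu n x)) ^ 2 := by
  rw [div_pow, Real.sq_sqrt (P.nu_nonneg n x), (he.carried (hb i) hi).1, nu_transport hy,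
    mul_div_cancel_left₀ _ hx]

theorem ww_transport (he : P.Ortho x e) {b : J → B} {n : B} {y : X} (hx : P.nu n x ≠ 0)
    (hy : ∀ c : B, P.E (star n * c * n) x = P.nu n x * P.E c y)
    (hb : ∀ i, P.Adapted x e (b i * n)) {r : R} {j : J} (hj : P.ip x (e r) (b j * n) ≠ 0) :
    P.ww b y (b j) = ∑ i, (‖P.ip x (e r) (b i * n)‖ / Real.sqrt (P.nu n x)) ^ 4 := by
  classical
  rw [ww]
  refine Finset.sum_congr rfl fun i _ => ?_
  by_cases h : P.ip x (e r) (b i * n) ≠ 0
  · have h1 : P.ip y (b i) (b j) ≠ 0 := (cond_transport he hx hy hb hj i).mpr h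
    rw [if_pos h1, nu_transport_carried he hx hy hb h]
    ring
  · have h1 : ¬ P.ip y (b i) (b j) ≠ 0 := fun h2 => h ((cond_transport he hx hy hb hj i).mp h2)
    rw [if_neg h1, not_not.mp h, norm_zero, zero_div]
    norm_num

/-- The same formula at the point `y` to which `x` is moved by `n`, in terms of `x`. -/
theorem eta_eq' (he : P.Ortho x e) {a b : J → B} {n : B} {y : X} (hx : P.nu n x ≠ 0)
    (hy : ∀ c : B, P.E (star n * c * n) x = P.nu n x * P.E c y)
    (hb : ∀ i, P.Adapted x e (b i * n)) {δ : ℝ} (hδ : 0 < δ) (r : R) :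
    ∑ j, P.dd a b δ j y * (‖P.ip x (e r) (b j * n)‖ ^ 2 / P.nu n x) =
      Real.sqrt ‖(∑ i, P.ip x (a i * n) (e r) * P.ip x (e r) (b i * n)) / (P.nu n x : ℂ)‖ *
        (∑ i, (‖P.ip x (e r) (b i * n)‖ / Real.sqrt (P.nu n x)) ^ 4) /
          ((∑ i, (‖P.ip x (e r) (b i * n)‖ / Real.sqrt (P.nu n x)) ^ 4) + δ) := by
  rw [Finset.mul_sum, Finset.sum_div]
  refine Finset.sum_congr rfl fun j _ => ?_
  by_cases h : P.ip x (e r) (b j * n) ≠ 0
  · rw [dd, ff_transport he hx hy hb h, ww_transport he hx hy hb h,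
      nu_transport_carried he hx hy hb h]
    have h2 : ‖P.ip x (e r) (b j * n)‖ ^ 2 / P.nu n x =
        (‖P.ip x (e r) (b j * n)‖ / Real.sqrt (P.nu n x)) ^ 2 := by
      rw [div_pow, Real.sq_sqrt (P.nu_nonneg n x)]
    rw [h2]
    ring
  · rw [not_not.mp h, norm_zero]
    simp

end Pool.Agent.MP_86f3ed.Reg.UPair
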