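import Pool.Agent.H.MP_86f3ed_an.Reg.Disc

open scoped Topology InnerProductSpace

namespace Pool.Agent.MP_86f3ed.Reg.UPair

variable {B : Type*} [CStarAlgebra B] {X : Type*} [TopologicalSpace X] [CompactSpace X]
  [T2Space X] (P : UPair B X)

theorem Nuc_norm_one_le (A : Type*) [CStarAlgebra A] : ‖(1 : A)‖ ≤ 1 := by
  rcases subsingleton_or_nontrivial A with h | h
  · have : (1 : A) = 0 := Subsingleton.elim _ _
    rw [this, norm_zero]
    exact zero_le_one
  · exact le_of_eq CStarRing.norm_one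

/-- From the approximation of the identity on normalizers to nuclearity. -/
theorem nuclear_of (h : ∀ (F : Finset B) (ε : ℝ), 0 < ε → (∀ n ∈ F, n ∈ P.N) →
      ∃ (J : Type) (_ : Fintype J) (b : J → B) (c : J → C(X, ℂ)), (∀ j, b j ∈ P.N) ∧
        ∀ n ∈ F, ‖P.psi b c n - n‖ ≤ ε) : Nuclear B := by
  classical
  intro F ε hε
  have hδ : 0 < ε / 4 := by positivity
  choose a' ha' hd using fun a => Metric.mem_closure_iff.1 (P.dense a) (ε / 4) hδ
  have hrep : ∀ a, ∃ (k : ℕ) (c : Fin k → ℂ) (g : Fin k → P.N), ∑ i, c i • (g i : B) = a' a :=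
    fun a => Submodule.mem_span_set'.1 (ha' a)
  choose k c g hg using hrep
  set K : ℝ := 1 + ∑ a ∈ F, ∑ i, ‖c a i‖ * (1 + ‖(g a i : B)‖) with hK
  have hKpos : 0 < K := by
    have : 0 ≤ ∑ a ∈ F, ∑ i, ‖c a i‖ * (1 + ‖(g a i : B)‖) :=
      Finset.sum_nonneg fun a _ => Finset.sum_nonneg fun i _ => by positivity
    rw [hK]; linarith
  have hKa : ∀ a ∈ F, ∑ i, ‖c a i‖ * (1 + ‖(g a i : B)‖) ≤ K := by
    intro a ha
    have := Finset.single_le_sum (f := fun a => ∑ i, ‖c a i‖ * (1 + ‖(g a i : B)‖))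
      (fun a _ => Finset.sum_nonneg fun i _ => by positivity) ha

    rw [hK]; linarith
  set η : ℝ := ε / (4 * K) with hη
  have hηpos : 0 < η := by positivity
  set F' : Finset B := insert 1 (F.biUnion fun a => Finset.univ.image fun i => (g a i : B))
    with hF'
  have hF'N : ∀ n ∈ F', n ∈ P.N := by
    intro n hn
    rw [hF', Finset.mem_insert, Finset.mem_biUnion] at hn
    rcases hn with rfl | ⟨a, _, hn⟩
    · have := P.ι_mem 1
      rwa [map_one] at this
    · rw [Finset.mem_image] at hn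
      obtain ⟨i, _, rfl⟩ := hn
      exact (g a i).2
  obtain ⟨J, hJ, b, cc, hb, happ⟩ := h F' (η / 2) (by positivity) hF'N
  obtain ⟨N, φ, ψ, hφ, hψ, hφ1, hdisc⟩ := P.disc b hb cc F' (ε := η / 2) (by positivity)
  have herr : ∀ n ∈ F', ‖ψ (φ n) - n‖ ≤ η := by
    intro n hn
    have h1 := hdisc n hn
    have h2 := happ n hn
    have h3 : ψ (φ n) - n = (ψ (φ n) - P.psi b cc n) + (P.psi b cc n - n) := by abel
    rw [h3]
    refine (norm_add_le _ _).trans ?_
    linarith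
  have hφle : ∀ a, ‖φ a‖ ≤ ‖a‖ := by
    intro a
    have h1 := IsCP.norm_le hφ a
    rw [hφ1] at h1
    refine h1.trans ?_
    have h2 : ‖(1 : Mat N)‖ ≤ 1 := ContinuousLinearMap.norm_id_le
    calc ‖(1 : Mat N)‖ * ‖a‖ ≤ 1 * ‖a‖ := mul_le_mul_of_nonneg_right h2 (norm_nonneg _)
      _ = ‖a‖ := one_mul _
  have hψ1 : ‖ψ 1‖ ≤ 1 + η := by
    have h1 := herr 1 (by rw [hF']; exact Finset.mem_insert_self _ _)
    rw [hφ1] at h1
    have h2 : ψ 1 = (ψ 1 - 1) + 1 := by abel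
    rw [h2]
    refine (norm_add_le _ _).trans ?_
    have := Nuc_norm_one_le B
    linarith
  have h1η : 0 < 1 + η := by positivity
  set s : ℝ := (1 + η)⁻¹ with hs
  have hs0 : 0 ≤ s := by positivity
  have hs1 : s ≤ 1 := by
    rw [hs]; exact inv_le_one_of_one_le₀ (by linarith)
  have hsη : 1 - s ≤ η := by
    have : s * (1 + η) = 1 := by rw [hs]; exact inv_mul_cancel₀ h1η.ne'
    nlinarith
  have hns : ‖(s : ℂ)‖ = s := by
    rw [Complex.norm_real, Real.norm_eq_abs, abs_of_nonneg hs0]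
  have hψle : ∀ T, ‖((s : ℂ) • ψ) T‖ ≤ ‖T‖ := by
    intro T
    rw [LinearMap.smul_apply, norm_smul, hns]
    have h1 := IsCP.norm_le hψ T
    calc s * ‖ψ T‖ ≤ s * (‖ψ 1‖ * ‖T‖) := mul_le_mul_of_nonneg_left h1 hs0
      _ ≤ s * ((1 + η) * ‖T‖) := by gcongr
      _ = ‖T‖ := by rw [← mul_assoc, hs, inv_mul_cancel₀ h1η.ne', one_mul]
  refine ⟨N, φ, (s : ℂ) • ψ, hφ, IsCP.smul hψ hs0, hφle, hψle, ?_⟩
  intro a ha
  have hn : ∀ n ∈ F', ‖((s : ℂ) • ψ) (φ n) - n‖ ≤ η * (1 + ‖n‖) := by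
    intro n hn
    have h1 : ((s : ℂ) • ψ) (φ n) - n = (s : ℂ) • (ψ (φ n) - n) - ((1 - s : ℝ) : ℂ) • n := by
      rw [LinearMap.smul_apply, smul_sub]
      push_cast
      rw [sub_smul, one_smul]
      abel
    rw [h1]
    refine (norm_sub_le _ _).trans ?_
    rw [norm_smul, norm_smul, hns, Complex.norm_real, Real.norm_eq_abs,
      abs_of_nonneg (by linarith : (0 : ℝ) ≤ 1 - s)]
    have h2 := herr n hn
    have h3 : s * ‖ψ (φ n) - n‖ ≤ 1 * η := by
      apply mul_le_mul hs1 h2 (norm_nonneg _) zero_le_one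
    have h4 : (1 - s) * ‖n‖ ≤ η * ‖n‖ := mul_le_mul_of_nonneg_right hsη (norm_nonneg _)
    linarith
  have ha'err : ‖((s : ℂ) • ψ) (φ (a' a)) - a' a‖ ≤ η * K := by
    have h1 : ((s : ℂ) • ψ) (φ (a' a)) - a' a
        = ∑ i, c a i • (((s : ℂ) • ψ) (φ (g a i : B)) - (g a i : B)) := by
      conv_lhs => rw [← hg a]
      rw [map_sum, map_sum, ← Finset.sum_sub_distrib]
      refine Finset.sum_congr rfl fun i _ => ?_
      rw [map_smul, map_smul, smul_sub]
    rw [h1]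
    calc ‖∑ i, c a i • (((s : ℂ) • ψ) (φ (g a i : B)) - (g a i : B))‖
        ≤ ∑ i, ‖c a i • (((s : ℂ) • ψ) (φ (g a i : B)) - (g a i : B))‖ := norm_sum_le _ _
      _ ≤ ∑ i, η * (‖c a i‖ * (1 + ‖(g a i : B)‖)) := by
          refine Finset.sum_le_sum fun i _ => ?_
          rw [norm_smul]
          have hmem : (g a i : B) ∈ F' := by
            rw [hF']
            refine Finset.mem_insert_of_mem (Finset.mem_biUnion.2 ⟨a, ha, ?_⟩)
            exact Finset.mem_image_of_mem _ (Finset.mem_univ i)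
          have := mul_le_mul_of_nonneg_left (hn _ hmem) (norm_nonneg (c a i))
          linarith
      _ = η * ∑ i, ‖c a i‖ * (1 + ‖(g a i : B)‖) := by rw [Finset.mul_sum]
      _ ≤ η * K := mul_le_mul_of_nonneg_left (hKa a ha) hηpos.le
  have hηK : η * K = ε / 4 := by
    rw [hη]; field_simp
  have hda : ‖a - a' a‖ ≤ ε / 4 := by
    have := hd a
    rw [dist_eq_norm] at this
    exact this.le
  have h5 : ((s : ℂ) • ψ) (φ a) - a = ((s : ℂ) • ψ) (φ (a - a' a))
      + (((s : ℂ) • ψ) (φ (a' a)) - a' a) - (a - a' a) := by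
    rw [map_sub, map_sub]; abel
  rw [h5]
  refine (norm_sub_le _ _).trans ?_
  have h6 := norm_add_le (((s : ℂ) • ψ) (φ (a - a' a))) (((s : ℂ) • ψ) (φ (a' a)) - a' a)
  have h7 : ‖((s : ℂ) • ψ) (φ (a - a' a))‖ ≤ ‖a - a' a‖ := (hψle _).trans (hφle _)
  linarith

end Pool.Agent.MP_86f3ed.Reg.UPair
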