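import Pool.Agent.H.MP_86f3ed_an.Reg.Unit1

open scoped Topology ZeroAtInfty

namespace Pool.Agent.MP_86f3ed.Reg

/-- A diagonal pair gives a unital one for the unitization. -/
theorem exists_upair {A : Type*} [NonUnitalCStarAlgebra A] {X : Type*} [TopologicalSpace X]
    [T2Space X] [LocallyCompactSpace X] (P : DiagonalPair A X) :
    Nonempty (UPair (Unitization ℂ A) (OnePoint X)) := by
  obtain ⟨ι', E', h1, h2, h3, h4, h5, h6, h7, h8, h9⟩ := exists_maps P
  set j : A → Unitization ℂ A := fun a => (a : Unitization ℂ A) with hj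
  have hjc : Continuous j := (Unitization.isometry_inr (𝕜 := ℂ) (A := A)).continuous
  have hjn : ∀ a, ‖j a‖ = ‖a‖ := fun a => Unitization.norm_inr (𝕜 := ℂ) a
  have hjm : ∀ a b, j (a * b) = j a * j b := fun a b => Unitization.inr_mul ℂ a b
  have hja : ∀ a b, j (a + b) = j a + j b := fun a b => Unitization.inr_add ℂ a b
  have hjs : ∀ a b, j (a - b) = j a - j b := fun a b => Unitization.inr_sub ℂ a b
  have hjz : ∀ (z : ℂ) a, j (z • a) = z • j a := fun z a => Unitization.inr_smul ℂ z a
  have hjst : ∀ a, j (star a) = star (j a) := fun a => Unitization.inr_star a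
  have hιc : Continuous ι' := by
    refine AddMonoidHomClass.continuous_of_bound ι' 1 (fun f => ?_)
    rw [one_mul]
    exact NonUnitalStarAlgHom.norm_apply_le ι' f
  have hEc : Continuous E' := by
    refine AddMonoidHomClass.continuous_of_bound E' 1 (fun f => ?_)
    rw [one_mul]
    exact h6 f
  set R : Set (Unitization ℂ A) := Set.range ι' with hR
  have hRcl : IsClosed R := by
    have : R = {b | ι' (E' b) = b} := by
      ext b
      constructor
      · rintro ⟨f, rfl⟩
        show ι' (E' (ι' f)) = ι' f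
        rw [h1]
      · intro hb
        exact ⟨E' b, hb⟩
    rw [this]
    exact isClosed_eq (hιc.comp hEc) continuous_id
  set M0 : Set (Unitization ℂ A) := j '' P.N with hM0
  set Cl : Set (Unitization ℂ A) := closure M0 with hCl
  have hClcl : closure Cl = Cl := isClosed_closure.closure_eq
  have F1 : ∀ n ∈ Cl, star n ∈ Cl := by
    intro n hn
    refine map_mem_closure continuous_star hn ?_
    rintro _ ⟨a, ha, rfl⟩
    exact ⟨star a, P.star_mem a ha, hjst a⟩
  have F2 : ∀ m ∈ Cl, ∀ n ∈ Cl, m * n ∈ Cl := by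
    intro m hm n hn
    refine map_mem_closure₂ continuous_mul hm hn ?_
    rintro _ ⟨a, ha, rfl⟩ _ ⟨b, hb, rfl⟩
    exact ⟨a * b, P.mul_mem a ha b hb, hjm a b⟩
  have F3 : ∀ g, ∀ n ∈ Cl, ι' g * n ∈ Cl := by
    intro g n hn
    have hc : Continuous (fun y : Unitization ℂ A => ι' g * y) := continuous_const.mul continuous_id
    have := map_mem_closure (t := Cl) hc hn ?_
    · rwa [hClcl] at this
    rintro _ ⟨a, ha, rfl⟩
    obtain ⟨z, f, hzf⟩ := h8 g
    rw [hzf]
    rw [hCl, Metric.mem_closure_iff]
    intro ε hε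
    obtain ⟨e, _, he⟩ := P.approx_unit a (ε / (2 * (‖z‖ + 1))) (by positivity)
    refine ⟨j (P.ι (z • e + f) * a), ⟨_, P.mul_mem _ (P.ι_mem _) _ ha, rfl⟩, ?_⟩
    have e1 : (algebraMap ℂ (Unitization ℂ A) z + (P.ι f : Unitization ℂ A)) * j a -
        j (P.ι (z • e + f) * a) = -(z • j (P.ι e * a - a)) := by
      have e0 : P.ι (z • e + f) * a = z • (P.ι e * a) + P.ι f * a := by
        rw [map_add, map_smul, add_mul, smul_mul_assoc]
      rw [e0, hja, hjz, hjs, hjm, hjm, add_mul,
        Algebra.algebraMap_eq_smul_one, smul_mul_assoc, one_mul, smul_sub]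
      show z • j a + j (P.ι f) * j a - (z • (j (P.ι e) * j a) + j (P.ι f) * j a) =
        -(z • (j (P.ι e) * j a) - z • j a)
      abel
    rw [dist_eq_norm]
    show ‖(algebraMap ℂ (Unitization ℂ A) z + (P.ι f : Unitization ℂ A)) * j a -
        j (P.ι (z • e + f) * a)‖ < ε
    rw [e1, norm_neg, norm_smul, hjn]
    calc ‖z‖ * ‖P.ι e * a - a‖ ≤ ‖z‖ * (ε / (2 * (‖z‖ + 1))) :=
          mul_le_mul_of_nonneg_left he (norm_nonneg _)
      _ ≤ (‖z‖ + 1) * (ε / (2 * (‖z‖ + 1))) := by
          refine mul_le_mul_of_nonneg_right (by linarith) (by positivity)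
      _ = ε / 2 := by field_simp
      _ < ε := by linarith
  have F3' : ∀ g, ∀ n ∈ Cl, n * ι' g ∈ Cl := by
    intro g n hn
    have := F1 _ (F3 (star g) _ (F1 n hn))
    rwa [star_mul, star_star, map_star, star_star] at this
  refine ⟨{
    ι := ι'
    E := E'
    N := Cl ∪ R
    E_ι := h1
    E_left := h2
    E_right := h3
    E_star := h4
    E_pos := h5
    E_norm := h6
    ι_mem := fun f => Or.inr ⟨f, rfl⟩
    star_mem := ?_
    mul_mem := ?_
    norm_mem := ?_
    dense := ?_
    agree := ?_ }⟩
  · rintro n (hn | ⟨f, rfl⟩)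
    · exact Or.inl (F1 n hn)
    · exact Or.inr ⟨star f, map_star _ _⟩
  · rintro m (hm | ⟨f, rfl⟩) n (hn | ⟨g, rfl⟩)
    · exact Or.inl (F2 m hm n hn)
    · exact Or.inl (F3' g m hm)
    · exact Or.inl (F3 f n hn)
    · exact Or.inr ⟨f * g, map_mul _ _ _⟩
  · rintro n (hn | ⟨h, rfl⟩) g
    · have hc : Continuous (fun y : Unitization ℂ A => star y * ι' g * y) :=
        (continuous_star.mul continuous_const).mul continuous_id
      have := map_mem_closure (t := R) hc hn ?_
      · rwa [hRcl.closure_eq] at this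
      rintro _ ⟨a, ha, rfl⟩
      obtain ⟨z, f, hzf⟩ := h8 g
      have hS : j (star a * a) ∈ R := by
        have : j (star a * a) ∈ closure R := by
          rw [Metric.mem_closure_iff]
          intro ε hε
          obtain ⟨e, _, he⟩ := P.approx_unit a (ε / (2 * (‖a‖ + 1))) (by positivity)
          obtain ⟨f', hf'⟩ := P.norm_mem a ha e
          obtain ⟨g', hg'⟩ := h7 f'
          refine ⟨ι' g', ⟨g', rfl⟩, ?_⟩
          have e1 : j (star a * a) - ι' g' = -(j (star a * (P.ι e * a - a))) := by
            rw [hg']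
            show j (star a * a) - j (P.ι f') = _
            rw [hf', mul_sub, hjs, mul_assoc]
            abel
          rw [dist_eq_norm, e1, norm_neg, hjn]
          calc ‖star a * (P.ι e * a - a)‖ ≤ ‖star a‖ * ‖P.ι e * a - a‖ := norm_mul_le _ _
            _ ≤ ‖a‖ * (ε / (2 * (‖a‖ + 1))) := by
              rw [norm_star]
              exact mul_le_mul_of_nonneg_left he (norm_nonneg _)
            _ ≤ (‖a‖ + 1) * (ε / (2 * (‖a‖ + 1))) := by
              refine mul_le_mul_of_nonneg_right (by linarith) (by positivity)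
            _ = ε / 2 := by field_simp
            _ < ε := by linarith
        rwa [hRcl.closure_eq] at this
      obtain ⟨g1, hg1⟩ := hS
      obtain ⟨f2, hf2⟩ := P.norm_mem a ha f
      obtain ⟨g2, hg2⟩ := h7 f2
      refine ⟨z • g1 + g2, ?_⟩
      rw [map_add, map_smul, hg1, hg2]
      show z • j (star a * a) + j (P.ι f2) = star (j a) * ι' g * j a
      rw [hf2, hzf, Algebra.algebraMap_eq_smul_one, hjm, hjm, hjm, hjst]
      show _ = star (j a) * (z • 1 + j (P.ι f)) * j a
      rw [mul_add, add_mul, mul_smul_comm, smul_mul_assoc, mul_one]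
    · refine ⟨star h * g * h, ?_⟩
      rw [map_mul, map_mul, map_star]
  · intro b
    set T := Submodule.span ℂ (Cl ∪ R) with hT
    have hcl : (closure (T : Set (Unitization ℂ A))) = (T.topologicalClosure : Set _) :=
      T.topologicalClosure_coe.symm
    rw [hcl]
    show b ∈ T.topologicalClosure
    have hb : b = algebraMap ℂ (Unitization ℂ A) b.fst + j b.snd :=
      (Unitization.inl_fst_add_inr_snd_eq b).symm
    rw [hb]
    refine add_mem ?_ ?_
    · refine T.le_topologicalClosure ?_
      rw [Algebra.algebraMap_eq_smul_one]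
      refine T.smul_mem _ (Submodule.subset_span (Or.inr ⟨1, map_one _⟩))
    · show j b.snd ∈ (T.topologicalClosure : Set _)
      rw [T.topologicalClosure_coe]
      refine map_mem_closure hjc (P.dense b.snd) ?_
      intro a ha
      show j a ∈ T
      refine Submodule.span_induction (p := fun a _ => j a ∈ T) ?_ ?_ ?_ ?_ ha
      · intro x hx
        exact Submodule.subset_span (Or.inl (subset_closure ⟨x, hx, rfl⟩))
      · have : j 0 = 0 := Unitization.inr_zero ℂ
        rw [this]
        exact T.zero_mem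
      · intro x y _ _ hx hy
        rw [hja]
        exact T.add_mem hx hy
      · intro z x _ hx
        rw [hjz]
        exact T.smul_mem z hx
  · rintro n (hn | ⟨g, rfl⟩)
    · have hcl : IsClosed {y : Unitization ℂ A | y * ι' (star (E' y)) = ι' (E' y * star (E' y))} := by
        refine isClosed_eq ?_ ?_
        · exact continuous_id.mul (hιc.comp (continuous_star.comp hEc))
        · exact hιc.comp (hEc.mul (continuous_star.comp hEc))
      refine (closure_minimal (s := M0) ?_ hcl) hn
      rintro _ ⟨a, ha, rfl⟩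
      show j a * ι' (star (E' (j a))) = ι' (E' (j a) * star (E' (j a)))
      have e1 : ι' (E' (j a)) = j (P.ι (P.E a)) := h9 a
      have e2 : ι' (star (E' (j a))) = j (P.ι (star (P.E a))) := by
        rw [map_star, e1, map_star, hjst]
      rw [map_mul, e1, e2, ← hjm, ← hjm, ← map_mul, P.agree a ha]
    · show ι' g * ι' (star (E' (ι' g))) = ι' (E' (ι' g) * star (E' (ι' g)))
      rw [h1, map_mul]

end Pool.Agent.MP_86f3ed.Reg
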