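import Pool.Agent.H.MP_86f3ed_an.Reg.Main
import Pool.Agent.H.MP_86f3ed_an.Reg.Nuc
import Pool.Agent.H.MP_86f3ed_an.Reg.Unit
import Pool.Agent.H.MP_86f3ed_an.Reg.Down
import Pool.Agent.H.MP_86f3ed_an.Reg.Diag0
import Pool.Agent.H.MP_86f3ed_an.Trc.Bridge

open scoped Topology

namespace Pool.Agent.MP_86f3ed.Reg

universe u w

theorem isNuclear_of_nuclear {A : Type*} [NonUnitalCStarAlgebra A] (h : Nuclear A) :
    IsNuclear A := by
  intro F ε hε
  obtain ⟨n, φ, ψ, h1, h2, h3, h4, h5⟩ := h F ε hε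
  refine ⟨Mat n, inferInstance, ?_, φ, ψ, h1, h2, h3, h4, h5⟩
  exact LinearEquiv.finiteDimensional (LinearMap.toContinuousLinearMap
    (𝕜 := ℂ) (E := EuclideanSpace ℂ (Fin n)) (F' := EuclideanSpace ℂ (Fin n)))

theorem nuclear_of_diagonalPair {A : Type u} [NonUnitalCStarAlgebra A]
    (hA : ApproximatelyAmenable.{u, u} A) {X : Type w} [TopologicalSpace X] [T2Space X]
    [LocallyCompactSpace X] (P : DiagonalPair A X) : IsNuclear A := by
  obtain ⟨Q⟩ := exists_upair P
  exact isNuclear_of_nuclear (nuclear_of_unitization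
    (Q.nuclear_of (fun F ε hε hF => Q.main (nearDiag_unitization (approxAmenable_of_public hA))
      F ε hε hF)))

end Pool.Agent.MP_86f3ed.Reg
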