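import Pool.Agent.H.MP_86f3ed_an.Reg.Par

open scoped Topology

namespace Pool.Agent.MP_86f3ed.Reg.UPair

variable {B : Type*} [CStarAlgebra B] {X : Type*} [TopologicalSpace X] [CompactSpace X]
  {P : UPair B X} {x : X} {R : Type*} [Fintype R] {e : R → B}

theorem Ortho.form_bound (he : P.Ortho x e) (σ : R → ℂ) (hσ : ∀ r, ‖σ r‖ ≤ 1) (u v : B) :
    ‖∑ r, σ r * (P.ip x (star u) (e r) * P.ip x (e r) v)‖ ≤ ‖u‖ * ‖v‖ := by
  have h1 : ‖∑ r, σ r * (P.ip x (star u) (e r) * P.ip x (e r) v)‖ ≤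
      ∑ r, ‖P.ip x (e r) (star u)‖ * ‖P.ip x (e r) v‖ := by
    refine (norm_sum_le _ _).trans (Finset.sum_le_sum fun r _ => ?_)
    rw [norm_mul, norm_mul, P.ip_conj x (e r) (star u), RCLike.norm_conj]
    calc ‖σ r‖ * (‖P.ip x (e r) (star u)‖ * ‖P.ip x (e r) v‖)
        ≤ 1 * (‖P.ip x (e r) (star u)‖ * ‖P.ip x (e r) v‖) :=
          mul_le_mul_of_nonneg_right (hσ r) (by positivity)
      _ = _ := one_mul _
  refine h1.trans ?_
  have h2 := Finset.sum_mul_sq_le_sq_mul_sq Finset.univ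
    (fun r => ‖P.ip x (e r) (star u)‖) (fun r => ‖P.ip x (e r) v‖)
  have h3 : ∑ r, ‖P.ip x (e r) (star u)‖ ^ 2 ≤ ‖u‖ ^ 2 := by
    refine (he.bessel _).trans ((P.nu_le _ x).trans ?_)
    rw [norm_star]
  have h4 : ∑ r, ‖P.ip x (e r) v‖ ^ 2 ≤ ‖v‖ ^ 2 := (he.bessel _).trans (P.nu_le _ x)
  have h5 : (∑ r, ‖P.ip x (e r) (star u)‖ * ‖P.ip x (e r) v‖) ^ 2 ≤ (‖u‖ * ‖v‖) ^ 2 := by
    rw [mul_pow]
    exact h2.trans (mul_le_mul h3 h4 (Finset.sum_nonneg fun _ _ => by positivity) (by positivity))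
  exact le_of_sq_le_sq h5 (by positivity)

/-- The diagonal bilinear form. -/
theorem exists_form (he : P.Ortho x e) (σ : R → ℂ) (hσ : ∀ r, ‖σ r‖ ≤ 1) :
    ∃ G : B →L[ℂ] B →L[ℂ] ℂ, ‖G‖ ≤ 1 ∧
      ∀ u v, G u v = ∑ r, σ r * (P.ip x (star u) (e r) * P.ip x (e r) v) := by
  let G₀ : B →ₗ[ℂ] B →ₗ[ℂ] ℂ := LinearMap.mk₂ ℂ
    (fun u v => ∑ r, σ r * (P.ip x (star u) (e r) * P.ip x (e r) v))
    (fun u u' v => by
      simp only [star_add, P.ip_add_left, add_mul, mul_add, Finset.sum_add_distrib])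
    (fun c u v => by
      simp only [star_smul, P.ip_smul_left, smul_eq_mul, Finset.mul_sum]
      refine Finset.sum_congr rfl fun r _ => ?_
      rw [Complex.star_def, Complex.conj_conj]
      ring)
    (fun u v v' => by
      simp only [P.ip_add_right, mul_add, Finset.sum_add_distrib])
    (fun c u v => by
      simp only [P.ip_smul_right, smul_eq_mul, Finset.mul_sum]
      refine Finset.sum_congr rfl fun r _ => ?_
      ring)
  refine ⟨LinearMap.mkContinuous₂ G₀ 1 fun u v => ?_, ?_, fun u v => rfl⟩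
  · rw [one_mul]
    exact he.form_bound σ hσ u v
  · exact LinearMap.mkContinuous₂_norm_le G₀ zero_le_one _

/-- `J`-indexed elements `a_j, b_j` such that `∑ a_j^* ⊗ b_j` is an approximate diagonal. -/
def Good {J : Type*} [Fintype J] (F : Finset B) (ε : ℝ) (a b : J → B) : Prop :=
  ‖∑ j, star (a j) * b j - 1‖ ≤ ε ∧
    ∀ (G : B →L[ℂ] B →L[ℂ] ℂ), ∀ z ∈ F,
      ‖∑ j, (G (z * star (a j)) (b j) - G (star (a j)) (b j * z))‖ ≤ ε * ‖G‖

theorem total_sum {J : Type*} [Fintype J] {F : Finset B} {ε : ℝ} {a b : J → B}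
    (hG : Good F ε a b) (he : P.Ortho x e) (hb : ∀ j, P.Adapted x e (b j)) :
    ‖∑ r, ∑ j, P.ip x (a j) (e r) * P.ip x (e r) (b j) - 1‖ ≤ ε := by
  have h1 : ∑ r, ∑ j, P.ip x (a j) (e r) * P.ip x (e r) (b j) =
      P.E (∑ j, star (a j) * b j) x := by
    rw [Finset.sum_comm]
    rw [map_sum, ContinuousMap.sum_apply]
    exact Finset.sum_congr rfl fun j _ => he.parseval (hb j) (a j)
  have h2 : P.E (∑ j, star (a j) * b j) x - 1 = P.E (∑ j, star (a j) * b j - 1) x := by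
    rw [map_sub, P.E_one]
    rfl
  rw [h1, h2]
  exact ((P.E (∑ j, star (a j) * b j - 1)).norm_coe_le_norm x).trans ((P.E_norm _).trans hG.1)

end Pool.Agent.MP_86f3ed.Reg.UPair
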