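import Pool.Agent.H.MP_86f3ed_an.Reg.Form

open scoped Topology

namespace Pool.Agent.MP_86f3ed.Reg.UPair

variable {B : Type*} [CStarAlgebra B] {X : Type*} [TopologicalSpace X] [CompactSpace X]
  {P : UPair B X} {x : X} {R : Type*} [Fintype R] {e : R → B}

/-- Composition of a bilinear form with right multiplication in the second variable. -/
theorem inv_form (G : B →L[ℂ] B →L[ℂ] ℂ) (hG : ‖G‖ ≤ 1) (n : B) :
    ∃ G' : B →L[ℂ] B →L[ℂ] ℂ, ‖G'‖ ≤ ‖n‖ ∧ ∀ u v, G' u v = G u (v * n) := by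
  refine ⟨((ContinuousLinearMap.compL ℂ B B ℂ).flip
    ((ContinuousLinearMap.mul ℂ B).flip n)).comp G, ?_, fun u v => rfl⟩
  refine ContinuousLinearMap.opNorm_le_bound₂ _ (norm_nonneg n) (fun u v => ?_)
  have h1 : ‖G u (v * n)‖ ≤ ‖G‖ * ‖u‖ * ‖v * n‖ := G.le_opNorm₂ u (v * n)
  refine h1.trans ?_
  have h2 : ‖v * n‖ ≤ ‖v‖ * ‖n‖ := norm_mul_le v n
  calc ‖G‖ * ‖u‖ * ‖v * n‖ ≤ 1 * ‖u‖ * (‖v‖ * ‖n‖) := by gcongr
    _ = ‖n‖ * ‖u‖ * ‖v‖ := by ring

/-- Approximate invariance of the diagonal functions in the `ℓ¹`-norm. -/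
theorem inv_sum {J : Type*} [Fintype J] {F : Finset B} {ε : ℝ} {a b : J → B}
    (hG : Good F ε a b) {n : B} (hn : n ∈ P.N) (hF : star n ∈ F) (hx : P.nu n x ≠ 0)
    (he : P.Ortho x e) :
    ∑ r, ‖(∑ j, P.ip x (a j * n) (e r) * P.ip x (e r) (b j * n)) / (P.nu n x : ℂ) -
      ∑ j, P.ip x (a j) (e r) * P.ip x (e r) (b j)‖ ≤ ε * ‖n‖ / P.nu n x := by
  have hν : 0 < P.nu n x := lt_of_le_of_ne (P.nu_nonneg n x) (Ne.symm hx)
  have hν' : (P.nu n x : ℂ) ≠ 0 := by exact_mod_cast hx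
  set u : R → ℂ := fun r => ∑ j, P.ip x (a j * n) (e r) * P.ip x (e r) (b j * n) with hu
  set w : R → ℂ := fun r => ∑ j, P.ip x (a j) (e r) * P.ip x (e r) (b j) with hw
  set d : R → ℂ := fun r => u r / (P.nu n x : ℂ) - w r with hd
  have hε : 0 ≤ ε := (norm_nonneg _).trans hG.1
  set σ : R → ℂ := fun r => (starRingEnd ℂ) (d r) / (‖d r‖ : ℂ) with hσ
  have hσ1 : ∀ r, ‖σ r‖ ≤ 1 := by
    intro r
    simp only [hσ, norm_div, RCLike.norm_conj, Complex.norm_real, norm_norm]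
    exact div_self_le_one _
  have hσ2 : ∀ r, σ r * d r = (‖d r‖ : ℂ) := by
    intro r
    by_cases h : d r = 0
    · simp [h]
    · have h1 : (‖d r‖ : ℂ) ≠ 0 := by
        exact_mod_cast norm_ne_zero_iff.mpr h
      simp only [hσ]
      rw [div_mul_eq_mul_div, mul_comm ((starRingEnd ℂ) (d r)) (d r), Complex.mul_conj,
        Complex.normSq_eq_norm_sq, div_eq_iff h1]
      push_cast
      ring
  obtain ⟨G, hG1, hG2⟩ := exists_form he σ hσ1
  obtain ⟨G', hG'1, hG'2⟩ := inv_form G hG1 n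
  have h1 := hG.2 G' (star n) hF
  have hA : ∀ j, G' (star n * star (a j)) (b j) =
      ∑ r, σ r * (P.ip x (a j * n) (e r) * P.ip x (e r) (b j * n)) := by
    intro j
    rw [hG'2, hG2]
    simp only [star_mul, star_star]
  have hB : ∀ j, G' (star (a j)) (b j * star n) =
      ∑ r, σ r * (P.ip x (a j) (e r) * P.ip x (e r) (b j) * (P.nu n x : ℂ)) := by
    intro j
    rw [hG'2, hG2]
    refine Finset.sum_congr rfl (fun r _ => ?_)
    have h2 : b j * star n * n = b j * P.ι (P.E (star n * n)) := by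
      rw [mul_assoc, ← P.star_mul_eq hn]
    have h3 : P.E (star n * n) x = (P.nu n x : ℂ) := P.ip_self x n
    rw [h2, ip_ι_right, h3, star_star]
    ring
  have hsum : ∑ j, (G' (star n * star (a j)) (b j) - G' (star (a j)) (b j * star n)) =
      ((P.nu n x * ∑ r, ‖d r‖ : ℝ) : ℂ) := by
    simp only [hA, hB]
    rw [Finset.sum_sub_distrib, Finset.sum_comm, Finset.sum_comm (s := Finset.univ)
      (t := Finset.univ) (f := fun j r =>
        σ r * (P.ip x (a j) (e r) * P.ip x (e r) (b j) * (P.nu n x : ℂ)))]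
    rw [← Finset.sum_sub_distrib]
    push_cast
    rw [Finset.mul_sum]
    refine Finset.sum_congr rfl (fun r _ => ?_)
    rw [← Finset.mul_sum, ← Finset.mul_sum, ← Finset.sum_mul, ← hσ2 r]
    have h4 : d r = u r / (P.nu n x : ℂ) - w r := rfl
    rw [h4]
    have h5 : (P.nu n x : ℂ) * (σ r * (u r / (P.nu n x : ℂ) - w r)) =
        σ r * u r - σ r * (w r * (P.nu n x : ℂ)) := by
      field_simp
    rw [h5]
  rw [hsum, Complex.norm_real, Real.norm_of_nonneg (by positivity)] at h1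
  have h6 : ε * ‖G'‖ ≤ ε * ‖n‖ := mul_le_mul_of_nonneg_left hG'1 hε
  rw [le_div_iff₀ hν, mul_comm]
  exact h1.trans h6

end Pool.Agent.MP_86f3ed.Reg.UPair
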