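import Pool.Agent.H.MP_86f3ed_an.Reg.Num

open scoped Topology

namespace Pool.Agent.MP_86f3ed.Reg

/-- lower bound for `∑ η²` -/
theorem num2_low {R J : Type*} [Fintype R] [Fintype J] (f : R → ℂ) (t : J → R → ℝ)
    (A : J → ℝ) {s ε : ℝ} (hs : 0 < s) (hA : ∀ j, 0 ≤ A j) (ht : ∀ j r, 0 ≤ t j r)
    (hone : ∀ j r r', t j r ≠ 0 → t j r' ≠ 0 → r = r')
    (hf : ∀ r, ‖f r‖ ≤ ∑ j, A j * t j r)
    (hsum : ‖∑ r, f r - 1‖ ≤ ε) (hsmall : ε + 2 * s * ∑ j, A j ≤ 1 / 2) :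
    1 / 2 ≤ ∑ r, eta f t (s ^ 4) r ^ 2 := by
  have h1 := sum_sub_eta_sq f t A hs hA ht hone hf
  have h2 : 1 - ε ≤ ∑ r, ‖f r‖ := by
    have k1 : (1 : ℝ) ≤ ‖∑ r, f r‖ + ‖∑ r, f r - 1‖ := by
      calc (1 : ℝ) = ‖(1 : ℂ)‖ := by simp
        _ = ‖∑ r, f r - (∑ r, f r - 1)‖ := by rw [sub_sub_cancel]
        _ ≤ _ := norm_sub_le _ _
    have k2 := norm_sum_le Finset.univ f
    linarith
  have h3 : ∑ r, ‖f r‖ - ∑ r, eta f t (s ^ 4) r ^ 2 ≤
      ∑ r, |‖f r‖ - eta f t (s ^ 4) r ^ 2| := by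
    rw [← Finset.sum_sub_distrib]
    exact Finset.sum_le_sum fun r _ => le_abs_self _
  linarith

/-- The numerical heart of the matter. -/
theorem num {R J : Type*} [Fintype R] [Fintype J] (f f' : R → ℂ) (t t' : J → R → ℝ)
    (A : J → ℝ) {s ε θ : ℝ} (hs : 0 < s) (hA : ∀ j, 0 ≤ A j)
    (ht : ∀ j r, 0 ≤ t j r) (ht' : ∀ j r, 0 ≤ t' j r)
    (hone : ∀ j r r', t j r ≠ 0 → t j r' ≠ 0 → r = r')
    (hone' : ∀ j r r', t' j r ≠ 0 → t' j r' ≠ 0 → r = r')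
    (hf : ∀ r, ‖f r‖ ≤ ∑ j, A j * t j r) (hf' : ∀ r, ‖f' r‖ ≤ ∑ j, A j * t' j r)
    (hsum : ‖∑ r, f r - 1‖ ≤ ε) (hsum' : ‖∑ r, f' r - 1‖ ≤ ε)
    (hdiff : ∑ r, ‖f' r - f r‖ ≤ θ) (hsmall : ε + 2 * s * ∑ j, A j ≤ 1 / 2) :
    1 / 2 ≤ ∑ r, eta f t (s ^ 4) r ^ 2 ∧ 1 / 2 ≤ ∑ r, eta f' t' (s ^ 4) r ^ 2 ∧
    0 ≤ 1 - (∑ r, eta f' t' (s ^ 4) r * eta f t (s ^ 4) r) /
      (Real.sqrt (∑ r, eta f' t' (s ^ 4) r ^ 2) * Real.sqrt (∑ r, eta f t (s ^ 4) r ^ 2)) ∧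
    1 - (∑ r, eta f' t' (s ^ 4) r * eta f t (s ^ 4) r) /
      (Real.sqrt (∑ r, eta f' t' (s ^ 4) r ^ 2) * Real.sqrt (∑ r, eta f t (s ^ 4) r ^ 2)) ≤
        8 * s * ∑ j, A j + 2 * θ := by
  have hS := num2_low f t A hs hA ht hone hf hsum hsmall
  have hS' := num2_low f' t' A hs hA ht' hone' hf' hsum' hsmall
  refine ⟨hS, hS', ?_⟩
  have hE := sum_sub_eta_sq f t A hs hA ht hone hf
  have hE' := sum_sub_eta_sq f' t' A hs hA ht' hone' hf'
  set η := eta f t (s ^ 4) with hη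
  set η' := eta f' t' (s ^ 4) with hη'
  have hη0 : ∀ r, 0 ≤ η r := eta_nonneg f t (by positivity)
  have hη0' : ∀ r, 0 ≤ η' r := eta_nonneg f' t' (by positivity)
  set S := ∑ r, η r ^ 2 with hSdef
  set S' := ∑ r, η' r ^ 2 with hSdef'
  set ε₁ := 2 * s * ∑ j, A j with hε₁
  have hSp : 0 < S := by linarith
  have hSp' : 0 < S' := by linarith
  -- the `ℓ¹` distance of the squares
  have hD : ∑ r, |η' r ^ 2 - η r ^ 2| ≤ 2 * ε₁ + θ := by
    have k1 : ∀ r, |η' r ^ 2 - η r ^ 2| ≤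
        |‖f' r‖ - η' r ^ 2| + |‖f r‖ - η r ^ 2| + ‖f' r - f r‖ := by
      intro r
      have e : η' r ^ 2 - η r ^ 2 = -(‖f' r‖ - η' r ^ 2) + (‖f r‖ - η r ^ 2) +
        (‖f' r‖ - ‖f r‖) := by ring
      rw [e]
      refine (abs_add_three _ _ _).trans ?_
      rw [abs_neg]
      have := abs_norm_sub_norm_le (f' r) (f r)
      linarith
    have k2 := Finset.sum_le_sum fun r (_ : r ∈ Finset.univ) => k1 r
    rw [Finset.sum_add_distrib, Finset.sum_add_distrib] at k2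
    linarith
  set D := ∑ r, |η' r ^ 2 - η r ^ 2| with hDdef
  have hD0 : 0 ≤ D := Finset.sum_nonneg fun r _ => abs_nonneg _
  have hSS : |S' - S| ≤ D := by
    rw [hSdef, hSdef', ← Finset.sum_sub_distrib]
    exact Finset.abs_sum_le_sum_abs _ _
  -- normalised vectors
  set q := Real.sqrt S with hq
  set q' := Real.sqrt S' with hq'
  have hqp : 0 < q := Real.sqrt_pos.2 hSp
  have hqp' : 0 < q' := Real.sqrt_pos.2 hSp'
  have hq2 : q ^ 2 = S := Real.sq_sqrt hSp.le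
  have hq2' : q' ^ 2 = S' := Real.sq_sqrt hSp'.le
  have hu1 : ∑ r, (η r / q) ^ 2 = 1 := by
    simp only [div_pow]
    rw [← Finset.sum_div, hq2, ← hSdef, div_self hSp.ne']
  have hu1' : ∑ r, (η' r / q') ^ 2 = 1 := by
    simp only [div_pow]
    rw [← Finset.sum_div, hq2', ← hSdef', div_self hSp'.ne']
  have hip : (∑ r, η' r * η r) / (q' * q) = ∑ r, (η' r / q') * (η r / q) := by
    rw [Finset.sum_div]
    exact Finset.sum_congr rfl fun r _ => by field_simp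
  have hhalf : 1 - (∑ r, η' r * η r) / (q' * q) =
      (1 / 2) * ∑ r, (η' r / q' - η r / q) ^ 2 := by
    rw [hip]
    have e : ∀ r, (η' r / q' - η r / q) ^ 2 =
        (η' r / q') ^ 2 + (η r / q) ^ 2 - 2 * ((η' r / q') * (η r / q)) := fun r => by ring
    simp only [e]
    rw [Finset.sum_sub_distrib, Finset.sum_add_distrib, ← Finset.mul_sum, hu1, hu1']
    ring
  rw [hhalf]
  refine ⟨by positivity, ?_⟩
  have hsq : ∀ r, (η' r / q' - η r / q) ^ 2 ≤ |(η' r / q') ^ 2 - (η r / q) ^ 2| := by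
    intro r
    have p1 : 0 ≤ η' r / q' := div_nonneg (hη0' r) hqp'.le
    have p2 : 0 ≤ η r / q := div_nonneg (hη0 r) hqp.le
    set x := η' r / q'
    set y := η r / q
    have e : x ^ 2 - y ^ 2 = (x - y) * (x + y) := by ring
    rw [e, abs_mul, ← sq_abs (x - y), sq]
    apply mul_le_mul_of_nonneg_left _ (abs_nonneg _)
    rw [abs_of_nonneg (by positivity : 0 ≤ x + y), abs_le]
    constructor <;> linarith
  have hterm : ∀ r, |(η' r / q') ^ 2 - (η r / q) ^ 2| ≤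
      |η' r ^ 2 - η r ^ 2| / S + η' r ^ 2 * (|S' - S| / (S' * S)) := by
    intro r
    rw [div_pow, div_pow, hq2, hq2']
    have e : η' r ^ 2 / S' - η r ^ 2 / S =
        (η' r ^ 2 - η r ^ 2) / S + η' r ^ 2 * (-((S' - S) / (S' * S))) := by
      field_simp
      ring
    rw [e]
    refine (abs_add_le _ _).trans ?_
    rw [abs_div, abs_of_pos hSp, abs_mul, abs_neg, abs_div, abs_of_pos (mul_pos hSp' hSp),
      abs_of_nonneg (sq_nonneg (η' r))]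
  have hfin : ∑ r, (η' r / q' - η r / q) ^ 2 ≤ 2 * (D / S) := by
    calc ∑ r, (η' r / q' - η r / q) ^ 2 ≤
          ∑ r, (|η' r ^ 2 - η r ^ 2| / S + η' r ^ 2 * (|S' - S| / (S' * S))) :=
          Finset.sum_le_sum fun r _ => (hsq r).trans (hterm r)
      _ = D / S + S' * (|S' - S| / (S' * S)) := by
          rw [Finset.sum_add_distrib, ← Finset.sum_div, ← Finset.sum_mul]
      _ = D / S + |S' - S| / S := by
          congr 1
          field_simp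
      _ ≤ D / S + D / S := by gcongr
      _ = 2 * (D / S) := by ring
  have hDS : D / S ≤ 2 * D := by
    rw [div_le_iff₀ hSp]
    nlinarith
  have : ε₁ = 2 * s * ∑ j, A j := hε₁
  linarith

end Pool.Agent.MP_86f3ed.Reg
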