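import Pool.Agent.H.MP_86f3ed_an.Reg.Zn

open scoped Topology

namespace Pool.Agent.MP_86f3ed.Reg.UPair

variable {B : Type*} [CStarAlgebra B] {X : Type*} [TopologicalSpace X] [CompactSpace X]
  (P : UPair B X)

/-- Approximation of `q` by `q q^* q g`. -/
theorem approx_q (q : C(X, ℂ)) {δ : ℝ} (hδ : 0 < δ) :
    ∃ g : C(X, ℂ), ‖q * (star q * (q * g)) - q‖ ≤ δ := by
  have hpos : ∀ x, 0 < ‖q x‖ ^ 2 + δ ^ 2 := fun x => by positivity
  let g : C(X, ℂ) := ⟨fun x => (((‖q x‖ ^ 2 + δ ^ 2)⁻¹ : ℝ) : ℂ),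
    Complex.continuous_ofReal.comp (((q.continuous.norm.pow 2).add continuous_const).inv₀
      (fun x => (hpos x).ne'))⟩
  refine ⟨g, ?_⟩
  rw [ContinuousMap.norm_le _ hδ.le]
  intro x
  have h1 : (q * (star q * (q * g)) - q) x = q x * (star (q x) * (q x * g x)) - q x := rfl
  have h2 : g x = (((‖q x‖ ^ 2 + δ ^ 2)⁻¹ : ℝ) : ℂ) := rfl
  have h3 : star (q x) * q x = ((‖q x‖ ^ 2 : ℝ) : ℂ) := by
    rw [mul_comm]
    have := Complex.mul_conj (q x)
    rw [Complex.normSq_eq_norm_sq] at this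
    exact this
  have h4 : q x * (star (q x) * (q x * g x)) - q x =
      q x * ((-(δ ^ 2 * (‖q x‖ ^ 2 + δ ^ 2)⁻¹) : ℝ) : ℂ) := by
    have h5 : q x * (star (q x) * (q x * g x)) = q x * ((star (q x) * q x) * g x) := by ring
    rw [h5, h3, h2, ← Complex.ofReal_mul]
    have h6 : ((‖q x‖ ^ 2 * (‖q x‖ ^ 2 + δ ^ 2)⁻¹ : ℝ)) =
        1 + (-(δ ^ 2 * (‖q x‖ ^ 2 + δ ^ 2)⁻¹)) := by
      field_simp [(hpos x).ne']
      ring
    rw [h6, Complex.ofReal_add, Complex.ofReal_one, mul_add, mul_one]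
    ring
  rw [h1, h4, norm_mul, Complex.norm_real, Real.norm_eq_abs, abs_neg, abs_of_nonneg
    (mul_nonneg (sq_nonneg _) (inv_nonneg.mpr (hpos x).le)), ← mul_assoc, ← div_eq_mul_inv,
    div_le_iff₀ (hpos x)]
  nlinarith [sq_nonneg (‖q x‖ - δ), norm_nonneg (q x), mul_pos hδ (hpos x),
    mul_nonneg hδ.le (sq_nonneg (‖q x‖ - δ))]

theorem block_mem_Z {m m' n : B} (hm : m ∈ P.N) (hm' : m' ∈ P.N) (hn : n ∈ P.N) :
    star m * P.ι (P.E (m * n * star m')) * m' ∈ P.Z n := by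
  set q := P.E (m * n * star m') with hq
  have hag : m * n * star m' * P.ι (star q) = P.ι (q * star q) :=
    P.agree _ (P.mul_mem _ (P.mul_mem _ hm _ hn) _ (P.star_mem _ hm'))
  have key : ∀ f : C(X, ℂ), star m * P.ι (q * (star q * f)) * m' ∈ P.Z n := by
    intro f
    have h1 : star m * P.ι (q * (star q * f)) * m' =
        P.ι (P.E (star m * m)) * (n * P.ι (P.E (star m' * P.ι (star q * f) * m'))) := by
      rw [← mul_assoc q, map_mul P.ι, ← hag, ← P.star_mul_eq hm, ← P.conj_eq hm',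
        map_mul P.ι (star q)]
      simp only [mul_assoc]
    rw [h1]
    exact P.ι_mul_mem_Z hn (P.mul_ι_mem_Z (P.self_mem_Z n) _) _
  have hclosed : star m * P.ι q * m' ∈ closure (P.Z n) := by
    rw [Metric.mem_closure_iff]
    intro ε hε
    have hC : 0 < ‖m‖ * ‖m'‖ + 1 := by positivity
    obtain ⟨g, hg⟩ := approx_q q (δ := ε / (2 * (‖m‖ * ‖m'‖ + 1))) (by positivity)
    refine ⟨_, key (q * g), ?_⟩
    have h1 : star m * P.ι q * m' - star m * P.ι (q * (star q * (q * g))) * m' =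
        -(star m * P.ι (q * (star q * (q * g)) - q) * m') := by
      rw [map_sub]
      noncomm_ring
    rw [dist_eq_norm, h1, norm_neg]
    calc ‖star m * P.ι (q * (star q * (q * g)) - q) * m'‖
        ≤ ‖star m‖ * ‖P.ι (q * (star q * (q * g)) - q)‖ * ‖m'‖ :=
          (norm_mul_le _ _).trans (mul_le_mul_of_nonneg_right (norm_mul_le _ _) (norm_nonneg _))
      _ = (‖m‖ * ‖m'‖) * ‖q * (star q * (q * g)) - q‖ := by
          rw [norm_star, P.norm_ι]
          ring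
      _ ≤ (‖m‖ * ‖m'‖ + 1) * (ε / (2 * (‖m‖ * ‖m'‖ + 1))) := by
          gcongr
          linarith
      _ = ε / 2 := by field_simp
      _ < ε := by linarith
  rwa [(P.isClosed_Z n).closure_eq] at hclosed

end Pool.Agent.MP_86f3ed.Reg.UPair
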