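import Pool.Agent.H.MP_86f3ed_an.Reg.Approx
import Pool.Agent.H.MP_86f3ed_an.Reg.Inv
import Pool.Agent.H.MP_86f3ed_an.Reg.Ortho
import Pool.Agent.H.MP_86f3ed_an.Reg.Eta
import Pool.Agent.H.MP_86f3ed_an.Reg.Eta2
import Pool.Agent.H.MP_86f3ed_an.Reg.Num2
import Pool.Agent.H.MP_86f3ed_an.Reg.Cont
import Pool.Agent.H.MP_86f3ed_an.Reg.Zn2
import Pool.Agent.H.MP_86f3ed_an.Reg.Block

open scoped Topology InnerProductSpace

namespace Pool.Agent.MP_86f3ed.Reg.UPair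

variable {B : Type*} [CStarAlgebra B] {X : Type*} [TopologicalSpace X] [CompactSpace X]
  [T2Space X] (P : UPair B X)

/-- The normalizing function. -/
noncomputable def kap {J : Type*} [Fintype J] (a b : J → B) (δ : ℝ) (x : X) : ℝ :=
  ∑ i, ∑ j, P.dd a b δ i x * P.dd a b δ j x * ‖P.ip x (b j) (b i)‖ ^ 2

theorem dd_nonneg {J : Type*} [Fintype J] (a b : J → B) {δ : ℝ} (hδ : 0 ≤ δ) (j : J) (x : X) :
    0 ≤ P.dd a b δ j x := by
  classical
  unfold dd
  have h1 : 0 ≤ P.ww b x (b j) := by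
    unfold ww
    refine Finset.sum_nonneg fun i _ => ?_
    split_ifs
    · positivity
    · exact le_rfl
  have h2 := P.nu_nonneg (b j) x
  positivity

theorem ip_trans_point {n : B} {x y : X}
    (hy : ∀ c : B, P.E (star n * c * n) x = P.nu n x * P.E c y) (a b : B) :
    P.ip x (a * n) (b * n) = P.nu n x * P.ip y a b := by
  rw [ip, ip, ← hy, star_mul]
  simp only [mul_assoc]

theorem nu_trans_point {n : B} {x y : X}
    (hy : ∀ c : B, P.E (star n * c * n) x = P.nu n x * P.E c y) (a : B) :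
    P.nu (a * n) x = P.nu n x * P.nu a y := by
  have h := P.ip_trans_point hy a a
  rw [P.ip_self, P.ip_self] at h
  exact_mod_cast h

theorem cross_sum {x : X} {R : Type*} [Fintype R] {e : R → B} (he : P.Ortho x e)
    {J : Type*} [Fintype J] (u v : J → B) (hu : ∀ j, P.Adapted x e (u j))
    (hv : ∀ j, P.Adapted x e (v j)) (c d : J → ℝ) :
    ∑ i, ∑ j, c i * d j * ‖P.ip x (v j) (u i)‖ ^ 2 =
      ∑ r, (∑ i, c i * ‖P.ip x (e r) (u i)‖ ^ 2) * (∑ j, d j * ‖P.ip x (e r) (v j)‖ ^ 2) := by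
  have h1 : ∀ i j, c i * d j * ‖P.ip x (v j) (u i)‖ ^ 2 =
      ∑ r, (c i * ‖P.ip x (e r) (u i)‖ ^ 2) * (d j * ‖P.ip x (e r) (v j)‖ ^ 2) := by
    intro i j
    rw [← he.sum_prod (hv j) (hu i), Finset.mul_sum]
    refine Finset.sum_congr rfl fun r _ => ?_
    ring
  simp only [h1]
  have h2 : ∀ i, ∑ j, ∑ r, (c i * ‖P.ip x (e r) (u i)‖ ^ 2) * (d j * ‖P.ip x (e r) (v j)‖ ^ 2) =
      ∑ r, ∑ j, (c i * ‖P.ip x (e r) (u i)‖ ^ 2) * (d j * ‖P.ip x (e r) (v j)‖ ^ 2) :=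
    fun i => Finset.sum_comm
  simp only [h2]
  rw [Finset.sum_comm]
  refine Finset.sum_congr rfl fun r _ => ?_
  rw [Finset.sum_mul_sum]

theorem key {J : Type} [Fintype J] {F : Finset B} {ε s : ℝ} {a b : J → B} (hG : Good F ε a b)
    (hb : ∀ j, b j ∈ P.N) (hs : 0 < s) (hsmall : ε + 2 * s * ∑ j, ‖a j‖ ≤ 1 / 2) {n : B}
    (hn : n ∈ P.N) (hF : star n ∈ F) {x y : X} (hx : P.nu n x ≠ 0)
    (hy : ∀ c : B, P.E (star n * c * n) x = P.nu n x * P.E c y) :
    1 / 2 ≤ P.kap a b (s ^ 4) x ∧ 1 / 2 ≤ P.kap a b (s ^ 4) y ∧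
    0 ≤ 1 - (∑ i, ∑ j, P.dd a b (s ^ 4) i y * P.dd a b (s ^ 4) j x *
        ‖P.ip x (b j) (b i * n)‖ ^ 2) / P.nu n x /
        (Real.sqrt (P.kap a b (s ^ 4) y) * Real.sqrt (P.kap a b (s ^ 4) x)) ∧
    1 - (∑ i, ∑ j, P.dd a b (s ^ 4) i y * P.dd a b (s ^ 4) j x *
        ‖P.ip x (b j) (b i * n)‖ ^ 2) / P.nu n x /
        (Real.sqrt (P.kap a b (s ^ 4) y) * Real.sqrt (P.kap a b (s ^ 4) x)) ≤
        8 * s * ∑ j, ‖a j‖ + 2 * (ε * ‖n‖ / P.nu n x) := by
  classical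
  have hν : 0 < P.nu n x := lt_of_le_of_ne (P.nu_nonneg n x) (Ne.symm hx)
  obtain ⟨R, _, e, he, had⟩ := P.exists_ortho (Sum.elim b (fun j => b j * n))
    (by rintro (j | j)
        · exact hb j
        · exact P.mul_mem _ (hb j) _ hn) x
  have had1 : ∀ j, P.Adapted x e (b j) := fun j => had (Sum.inl j)
  have had2 : ∀ j, P.Adapted x e (b j * n) := fun j => had (Sum.inr j)
  have hδ : 0 < s ^ 4 := by positivity
  set f : R → ℂ := fun r => ∑ j, P.ip x (a j) (e r) * P.ip x (e r) (b j) with hf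
  set f' : R → ℂ := fun r =>
    (∑ j, P.ip x (a j * n) (e r) * P.ip x (e r) (b j * n)) / (P.nu n x : ℂ) with hf'
  set t : J → R → ℝ := fun j r => ‖P.ip x (e r) (b j)‖ with ht
  set t' : J → R → ℝ := fun j r => ‖P.ip x (e r) (b j * n)‖ / Real.sqrt (P.nu n x) with ht'
  have hsq : Real.sqrt (P.nu n x) ^ 2 = P.nu n x := Real.sq_sqrt hν.le
  have hsp : 0 < Real.sqrt (P.nu n x) := Real.sqrt_pos.mpr hν
  have hone_e : ∀ r, P.nu (e r) x = 1 := by
    intro r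
    have h := he.one r
    rw [P.ip_self] at h
    exact_mod_cast h
  have hb1 : ∀ (v : B) r, ‖P.ip x v (e r)‖ ≤ Real.sqrt (P.nu v x) := by
    intro v r
    have h := P.norm_ip_sq_le x v (e r)
    rw [hone_e r, mul_one] at h
    exact Real.le_sqrt_of_sq_le h
  have hone : ∀ v : B, P.Adapted x e v → ∀ r r', P.ip x (e r) v ≠ 0 → P.ip x (e r') v ≠ 0 →
      r = r' := by
    intro v hv r r' h1 h2
    have h0 : P.nu v x ≠ 0 := fun h => h1 (P.ip_eq_zero_of_nu h _)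
    obtain ⟨r0, _, h3, _⟩ := he.exists_unique hv h0
    have h4 : r = r0 := by
      by_contra h
      exact h1 (h3 r h)
    have h5 : r' = r0 := by
      by_contra h
      exact h2 (h3 r' h)
    rw [h4, h5]
  have hnum := num (R := R) (J := J) f f' t t' (fun j => ‖a j‖) (s := s) (ε := ε)
    (θ := ε * ‖n‖ / P.nu n x) hs (fun j => norm_nonneg _) (fun j r => norm_nonneg _)
    (fun j r => by positivity)
    (fun j r r' h1 h2 => hone _ (had1 j) r r' (norm_ne_zero_iff.mp h1) (norm_ne_zero_iff.mp h2))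
    (fun j r r' h1 h2 => hone _ (had2 j) r r' (norm_ne_zero_iff.mp fun h => h1 (by
        simp only [ht', h, zero_div])) (norm_ne_zero_iff.mp fun h => h2 (by
        simp only [ht', h, zero_div])))
    (fun r => by
      refine (norm_sum_le _ _).trans (Finset.sum_le_sum fun j _ => ?_)
      rw [norm_mul]
      refine mul_le_mul_of_nonneg_right ?_ (norm_nonneg _)
      refine (hb1 _ r).trans ?_
      exact Real.sqrt_le_iff.mpr ⟨norm_nonneg _, P.nu_le _ _⟩)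
    (fun r => by
      have h1 : ‖f' r‖ = ‖∑ j, P.ip x (a j * n) (e r) * P.ip x (e r) (b j * n)‖ / P.nu n x := by
        rw [hf', norm_div, Complex.norm_real, Real.norm_of_nonneg hν.le]
      rw [h1, div_le_iff₀ hν, Finset.sum_mul]
      refine (norm_sum_le _ _).trans (Finset.sum_le_sum fun j _ => ?_)
      rw [norm_mul]
      have h2 : ‖P.ip x (a j * n) (e r)‖ ≤ ‖a j‖ * Real.sqrt (P.nu n x) := by
        refine (hb1 _ r).trans ?_
        rw [P.nu_trans_point hy, mul_comm, Real.sqrt_mul (P.nu_nonneg _ _)]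
        exact mul_le_mul_of_nonneg_right (Real.sqrt_le_iff.mpr ⟨norm_nonneg _, P.nu_le _ _⟩)
          (Real.sqrt_nonneg _)
      calc ‖P.ip x (a j * n) (e r)‖ * ‖P.ip x (e r) (b j * n)‖
          ≤ (‖a j‖ * Real.sqrt (P.nu n x)) * ‖P.ip x (e r) (b j * n)‖ :=
            mul_le_mul_of_nonneg_right h2 (norm_nonneg _)
        _ = ‖a j‖ * t' j r * P.nu n x := by
            simp only [ht']
            field_simp
            rw [hsq]
            ring)
    (total_sum hG he had1)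
    (by
      have h1 : ∑ r, f' r = P.E (∑ j, star (a j) * b j) y := by
        simp only [hf']
        rw [← Finset.sum_div, Finset.sum_comm]
        have h2 : ∀ j, ∑ r, P.ip x (a j * n) (e r) * P.ip x (e r) (b j * n) =
            (P.nu n x : ℂ) * P.ip y (a j) (b j) := fun j => by
          rw [he.parseval (had2 j), P.ip_trans_point hy]
        simp only [h2]
        rw [← Finset.mul_sum, mul_div_cancel_left₀ _ (Complex.ofReal_ne_zero.mpr hx)]
        rw [map_sum, ContinuousMap.sum_apply]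
        rfl
      have h3 : ∑ r, f' r - 1 = P.E (∑ j, star (a j) * b j - 1) y := by
        rw [h1, map_sub, P.E_one]
        rfl
      rw [h3]
      exact (((P.E _).norm_coe_le_norm y).trans (P.E_norm _)).trans hG.1)
    (inv_sum hG hn hF hx he) hsmall
  have hη : ∀ r, eta f t (s ^ 4) r = ∑ j, P.dd a b (s ^ 4) j x * ‖P.ip x (e r) (b j)‖ ^ 2 :=
    fun r => (eta_eq he had1 hδ r).symm
  have hη' : ∀ r, eta f' t' (s ^ 4) r =
      ∑ j, P.dd a b (s ^ 4) j y * (‖P.ip x (e r) (b j * n)‖ ^ 2 / P.nu n x) :=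
    fun r => (eta_eq' he hx hy had2 hδ r).symm
  have hκ : P.kap a b (s ^ 4) x = ∑ r, eta f t (s ^ 4) r ^ 2 := by
    unfold kap
    rw [P.cross_sum he b b had1 had1]
    refine Finset.sum_congr rfl fun r _ => ?_
    rw [hη, sq]
  have hκ' : P.kap a b (s ^ 4) y = ∑ r, eta f' t' (s ^ 4) r ^ 2 := by
    unfold kap
    have h1 : ∀ i j, P.dd a b (s ^ 4) i y * P.dd a b (s ^ 4) j y * ‖P.ip y (b j) (b i)‖ ^ 2 =
        (P.dd a b (s ^ 4) i y / P.nu n x) * (P.dd a b (s ^ 4) j y / P.nu n x) *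
          ‖P.ip x (b j * n) (b i * n)‖ ^ 2 := by
      intro i j
      rw [P.ip_trans_point hy, norm_mul, Complex.norm_real, Real.norm_of_nonneg hν.le]
      field_simp
    simp only [h1]
    rw [P.cross_sum he (fun j => b j * n) (fun j => b j * n) had2 had2]
    refine Finset.sum_congr rfl fun r _ => ?_
    rw [hη', sq]
    congr 1 <;>
    · refine Finset.sum_congr rfl fun j _ => ?_
      ring
  have hcross : (∑ i, ∑ j, P.dd a b (s ^ 4) i y * P.dd a b (s ^ 4) j x *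
        ‖P.ip x (b j) (b i * n)‖ ^ 2) / P.nu n x =
      ∑ r, eta f' t' (s ^ 4) r * eta f t (s ^ 4) r := by
    rw [P.cross_sum he (fun j => b j * n) b had2 had1, Finset.sum_div]
    refine Finset.sum_congr rfl fun r _ => ?_
    rw [hη, hη', mul_div_right_comm, Finset.sum_div]
    congr 1
    refine Finset.sum_congr rfl fun j _ => ?_
    ring
  rw [hκ, hκ', hcross]
  exact hnum

theorem continuous_kap {J : Type} [Fintype J] {a b : J → B} (hb : ∀ j, b j ∈ P.N) {δ : ℝ}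
    (hδ : 0 < δ) : Continuous (P.kap a b δ) := by
  unfold kap
  refine continuous_finset_sum _ fun i _ => continuous_finset_sum _ fun j _ => ?_
  exact ((P.continuous_dd a b hb hδ i).mul (P.continuous_dd a b hb hδ j)).mul
    ((P.continuous_ip (b j) (b i)).norm.pow 2)

theorem psi_mem_Z {J : Type} [Fintype J] {b : J → B} (hb : ∀ j, b j ∈ P.N) (c : J → C(X, ℂ))
    {n : B} (hn : n ∈ P.N) : P.psi b c n ∈ P.Z n := by
  unfold psi
  refine P.sum_mem_Z _ _ fun i _ => P.sum_mem_Z _ _ fun j _ => ?_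
  have h1 : star (b i * P.ι (c i)) * P.ι (P.E (b i * n * star (b j))) * (b j * P.ι (c j)) =
      P.ι (star (c i)) * (star (b i) * P.ι (P.E (b i * n * star (b j))) * b j) * P.ι (c j) := by
    rw [star_mul, map_star]
    simp only [mul_assoc]
  rw [h1]
  exact P.mul_ι_mem_Z (P.ι_mul_mem_Z hn (P.block_mem_Z (hb i) (hb j) hn) _) _

theorem main_step {J : Type} [Fintype J] {F : Finset B} {ε s : ℝ} {a b : J → B}
    (hG : Good F ε a b) (hb : ∀ j, b j ∈ P.N) (hs : 0 < s) (hε : 0 ≤ ε)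
    (hsmall : ε + 2 * s * ∑ j, ‖a j‖ ≤ 1 / 2) (h1F : (1 : B) ∈ F) :
    ∃ c : J → C(X, ℂ), ∀ n ∈ P.N, star n ∈ F →
      ‖P.psi b c n - n‖ ^ 2 ≤ 8 * s * (∑ j, ‖a j‖) * ‖n‖ ^ 2 + 2 * ε * ‖n‖ := by
  have hδ : 0 < s ^ 4 := by positivity
  have hκ : ∀ x, 1 / 2 ≤ P.kap a b (s ^ 4) x := fun x =>
    (P.key hG hb hs hsmall P.one_mem (by rwa [star_one]) (x := x) (y := x)
      (by rw [P.nu_one]; exact one_ne_zero)
      (fun c => by rw [P.nu_one, star_one, one_mul, mul_one, Complex.ofReal_one, one_mul])).1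
  have hκ0 : ∀ x, 0 < P.kap a b (s ^ 4) x := fun x => lt_of_lt_of_le (by norm_num) (hκ x)
  let c : J → C(X, ℂ) := fun j =>
    ⟨fun x => ((P.dd a b (s ^ 4) j x / Real.sqrt (P.kap a b (s ^ 4) x) : ℝ) : ℂ), by
      refine Complex.continuous_ofReal.comp ?_
      exact (P.continuous_dd a b hb hδ j).div ((P.continuous_kap hb hδ).sqrt)
        fun x => (Real.sqrt_pos.mpr (hκ0 x)).ne'⟩
  have hc : ∀ j x, c j x = ((P.dd a b (s ^ 4) j x / Real.sqrt (P.kap a b (s ^ 4) x) : ℝ) : ℂ) :=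
    fun _ _ => rfl
  refine ⟨c, fun n hn hF => ?_⟩
  have hA : 0 ≤ ∑ j, ‖a j‖ := Finset.sum_nonneg fun j _ => norm_nonneg _
  refine P.norm_sq_le_of_Z hn (sub_eq_add_neg (P.psi b c n) n ▸
    P.add_mem_Z (P.psi_mem_Z hb c hn) (P.neg_mem_Z (P.self_mem_Z n))) (by positivity) ?_
  intro x hx
  have hν : 0 < P.nu n x := lt_of_le_of_ne (P.nu_nonneg n x) (Ne.symm hx)
  obtain ⟨y, hy⟩ := P.exists_transport hn hx
  obtain ⟨_, _, h0, h1⟩ := P.key hG hb hs hsmall hn hF hx hy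
  set h : ℝ := (∑ i, ∑ j, P.dd a b (s ^ 4) i y * P.dd a b (s ^ 4) j x *
        ‖P.ip x (b j) (b i * n)‖ ^ 2) / P.nu n x /
        (Real.sqrt (P.kap a b (s ^ 4) y) * Real.sqrt (P.kap a b (s ^ 4) x)) with hh
  have hh0 : 0 ≤ h := by
    rw [hh]
    refine div_nonneg (div_nonneg ?_ hν.le) (by positivity)
    exact Finset.sum_nonneg fun i _ => Finset.sum_nonneg fun j _ =>
      mul_nonneg (mul_nonneg (P.dd_nonneg a b hδ.le i y) (P.dd_nonneg a b hδ.le j x))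
        (by positivity)
  have hE : P.E (star n * (P.psi b c n - n)) x = ((P.nu n x * (h - 1) : ℝ) : ℂ) := by
    have e1 : P.E (star n * P.psi b c n) x = ((P.nu n x * h : ℝ) : ℂ) := by
      unfold psi
      rw [Finset.mul_sum, map_sum, ContinuousMap.sum_apply]
      have e2 : ∀ i j, P.E (star n * (star (b i * P.ι (c i)) *
          P.ι (P.E (b i * n * star (b j))) * (b j * P.ι (c j)))) x =
          ((P.dd a b (s ^ 4) i y * P.dd a b (s ^ 4) j x * ‖P.ip x (b j) (b i * n)‖ ^ 2 /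
            (Real.sqrt (P.kap a b (s ^ 4) y) * Real.sqrt (P.kap a b (s ^ 4) x)) : ℝ) : ℂ) := by
        intro i j
        rw [P.E_block (hb i) (hb j) hn hx hy, hc, hc, Complex.conj_ofReal,
          ← Complex.ofReal_mul, ← Complex.ofReal_mul]
        congr 1
        ring
      have e3 : ∀ i, P.E (star n * ∑ j, star (b i * P.ι (c i)) *
          P.ι (P.E (b i * n * star (b j))) * (b j * P.ι (c j))) x =
          ((∑ j, P.dd a b (s ^ 4) i y * P.dd a b (s ^ 4) j x * ‖P.ip x (b j) (b i * n)‖ ^ 2 /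
            (Real.sqrt (P.kap a b (s ^ 4) y) * Real.sqrt (P.kap a b (s ^ 4) x)) : ℝ) : ℂ) := by
        intro i
        rw [Finset.mul_sum, map_sum, ContinuousMap.sum_apply, Complex.ofReal_sum]
        exact Finset.sum_congr rfl fun j _ => e2 i j
      rw [Finset.sum_congr rfl fun i _ => e3 i, ← Complex.ofReal_sum]
      congr 1
      rw [hh]
      simp only [← Finset.sum_div]
      field_simp
    have e4 : P.E (star n * n) x = (P.nu n x : ℂ) := P.ip_self x n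
    rw [mul_sub, map_sub, ContinuousMap.sub_apply, e1, e4]
    push_cast
    ring
  rw [hE, Complex.norm_real, Real.norm_eq_abs, sq_abs]
  have h2 : (h - 1) ^ 2 ≤ 8 * s * ∑ j, ‖a j‖ + 2 * (ε * ‖n‖ / P.nu n x) := by
    nlinarith
  have h3 : P.nu n x ≤ ‖n‖ ^ 2 := P.nu_le n x
  have h4 : P.nu n x * (8 * s * ∑ j, ‖a j‖ + 2 * (ε * ‖n‖ / P.nu n x)) =
      8 * s * (∑ j, ‖a j‖) * P.nu n x + 2 * ε * ‖n‖ := by
    field_simp
  calc (P.nu n x * (h - 1)) ^ 2 = P.nu n x * (P.nu n x * (h - 1) ^ 2) := by ring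
    _ ≤ P.nu n x * (P.nu n x * (8 * s * ∑ j, ‖a j‖ + 2 * (ε * ‖n‖ / P.nu n x))) := by gcongr
    _ = P.nu n x * (8 * s * (∑ j, ‖a j‖) * P.nu n x + 2 * ε * ‖n‖) := by rw [h4]
    _ ≤ P.nu n x * (8 * s * (∑ j, ‖a j‖) * ‖n‖ ^ 2 + 2 * ε * ‖n‖) := by gcongr
    _ = (8 * s * (∑ j, ‖a j‖) * ‖n‖ ^ 2 + 2 * ε * ‖n‖) * P.nu n x := by ring

theorem main (hB : NearDiag B) (F : Finset B) (ε : ℝ) (hε : 0 < ε) (hF : ∀ n ∈ F, n ∈ P.N) :
    ∃ (J : Type) (_ : Fintype J) (b : J → B) (c : J → C(X, ℂ)), (∀ j, b j ∈ P.N) ∧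
      ∀ n ∈ F, ‖P.psi b c n - n‖ ≤ ε := by
  classical
  obtain ⟨M, hM⟩ : ∃ M : ℝ, ∀ n ∈ F, ‖n‖ ≤ M := by
    obtain ⟨M, hM⟩ := (F.finite_toSet.image fun n => ‖n‖).bddAbove
    exact ⟨M, fun n hn => hM ⟨n, hn, rfl⟩⟩
  set M' : ℝ := max M 1 with hM'
  have hM1 : 1 ≤ M' := le_max_right _ _
  have hM0 : 0 < M' := by linarith
  set ε₀ : ℝ := min (ε ^ 2 / (4 * M')) (1 / 4) with hε₀
  have hε₀0 : 0 < ε₀ := by
    rw [hε₀]
    exact lt_min (by positivity) (by norm_num)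
  have hε₀1 : 2 * ε₀ * M' ≤ ε ^ 2 / 2 := by
    have h : ε₀ ≤ ε ^ 2 / (4 * M') := min_le_left _ _
    calc 2 * ε₀ * M' ≤ 2 * (ε ^ 2 / (4 * M')) * M' := by gcongr
      _ = ε ^ 2 / 2 := by field_simp; norm_num
  have hε₀2 : ε₀ ≤ 1 / 4 := min_le_right _ _
  obtain ⟨J, _, a, b, hb, hG⟩ := P.exists_good hB (insert 1 (F.image star)) ε₀ hε₀0
  have hA : 0 ≤ ∑ j, ‖a j‖ := Finset.sum_nonneg fun j _ => norm_nonneg _
  set S : ℝ := (∑ j, ‖a j‖) + 1 with hS
  have hS0 : 0 < S := by linarith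
  set s : ℝ := min (ε ^ 2 / (16 * S * M' ^ 2)) (1 / (8 * S)) with hs
  have hs0 : 0 < s := by
    rw [hs]
    exact lt_min (by positivity) (by positivity)
  have hs1 : 8 * s * S * M' ^ 2 ≤ ε ^ 2 / 2 := by
    have h : s ≤ ε ^ 2 / (16 * S * M' ^ 2) := min_le_left _ _
    calc 8 * s * S * M' ^ 2 ≤ 8 * (ε ^ 2 / (16 * S * M' ^ 2)) * S * M' ^ 2 := by gcongr
      _ = ε ^ 2 / 2 := by field_simp; norm_num
  have hs2 : 2 * s * S ≤ 1 / 4 := by
    have h : s ≤ 1 / (8 * S) := min_le_right _ _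
    calc 2 * s * S ≤ 2 * (1 / (8 * S)) * S := by gcongr
      _ = 1 / 4 := by field_simp; norm_num
  have hAS : ∑ j, ‖a j‖ ≤ S := by linarith
  obtain ⟨c, hc⟩ := P.main_step hG hb hs0 hε₀0.le (by
    have h : 2 * s * ∑ j, ‖a j‖ ≤ 2 * s * S := by gcongr
    linarith) (Finset.mem_insert_self _ _)
  refine ⟨J, inferInstance, b, c, hb, fun n hn => ?_⟩
  have h1 := hc n (hF n hn) (Finset.mem_insert_of_mem (Finset.mem_image_of_mem _ hn))
  have hnM : ‖n‖ ≤ M' := (hM n hn).trans (le_max_left _ _)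
  have h2 : ‖P.psi b c n - n‖ ^ 2 ≤ ε ^ 2 := by
    refine h1.trans ?_
    have h3 : 8 * s * (∑ j, ‖a j‖) * ‖n‖ ^ 2 ≤ 8 * s * S * M' ^ 2 := by gcongr
    have h4 : 2 * ε₀ * ‖n‖ ≤ 2 * ε₀ * M' := by gcongr
    linarith
  exact (pow_le_pow_iff_left₀ (norm_nonneg _) hε.le two_ne_zero).mp h2

end Pool.Agent.MP_86f3ed.Reg.UPair
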