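import Mathlib

open scoped Topology

namespace Pool.Agent.MP_86f3ed.Reg

/-- The function `η = √|f| W / (W + δ)`. -/
noncomputable def eta {R J : Type*} [Fintype J] (f : R → ℂ) (t : J → R → ℝ) (δ : ℝ) (r : R) : ℝ :=
  Real.sqrt ‖f r‖ * (∑ j, t j r ^ 4) / ((∑ j, t j r ^ 4) + δ)

theorem eta_nonneg {R J : Type*} [Fintype J] (f : R → ℂ) (t : J → R → ℝ) {δ : ℝ} (hδ : 0 ≤ δ)
    (r : R) : 0 ≤ eta f t δ r := by
  unfold eta
  have h : 0 ≤ ∑ j, t j r ^ 4 := Finset.sum_nonneg fun j _ => by positivity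
  positivity

/-- elementary inequality -/
theorem num_elem {W δ a : ℝ} (hW : 0 ≤ W) (hδ : 0 < δ) (ha : 0 ≤ a) :
    |a - (Real.sqrt a * W / (W + δ)) ^ 2| ≤ a * (2 * δ / (W + δ)) := by
  have hWd : 0 < W + δ := by linarith
  have h1 : (Real.sqrt a * W / (W + δ)) ^ 2 = a * (W / (W + δ)) ^ 2 := by
    rw [mul_div_assoc, mul_pow, Real.sq_sqrt ha]
  set u : ℝ := W / (W + δ) with hu
  have hu0 : 0 ≤ u := by positivity
  have hu1 : u ≤ 1 := (div_le_one hWd).2 (by linarith)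
  have h2 : 2 * δ / (W + δ) = 2 * (1 - u) := by
    rw [hu]
    field_simp
    ring
  have h3 : 0 ≤ a - a * u ^ 2 := by
    nlinarith [mul_nonneg ha (mul_nonneg hu0 (sub_nonneg.2 hu1)),
      mul_nonneg ha (sub_nonneg.2 hu1)]
  rw [h1, h2, abs_of_nonneg h3]
  nlinarith [mul_nonneg ha (sq_nonneg (1 - u))]

theorem num_elem2 {W t s : ℝ} (ht : 0 ≤ t) (hs : 0 < s) (hW : t ^ 4 ≤ W) :
    t * (2 * s ^ 4 / (W + s ^ 4)) ≤ if t ≠ 0 then 2 * s else 0 := by
  by_cases h0 : t = 0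
  · simp [h0]
  · rw [if_pos h0]
    have htp : 0 < t := lt_of_le_of_ne ht (Ne.symm h0)
    have hWd : 0 < W + s ^ 4 := by
      have h1 : 0 < t ^ 4 := by positivity
      have h2 : 0 < s ^ 4 := by positivity
      linarith
    rw [mul_div_assoc', div_le_iff₀ hWd]
    have key : t * s ^ 3 ≤ t ^ 4 + s ^ 4 := by
      rcases le_total t s with h | h
      · have : t * s ^ 3 ≤ s * s ^ 3 := mul_le_mul_of_nonneg_right h (by positivity)
        nlinarith [pow_pos htp 4]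
      · have h3 : s ^ 3 ≤ t ^ 3 := pow_le_pow_left₀ hs.le h 3
        have : t * s ^ 3 ≤ t * t ^ 3 := mul_le_mul_of_nonneg_left h3 ht
        nlinarith [pow_pos hs 4]
    have : t * s ^ 3 ≤ W + s ^ 4 := by linarith
    nlinarith

/-- `η²` is close to `|f|` in `ℓ¹`. -/
theorem sum_sub_eta_sq {R J : Type*} [Fintype R] [Fintype J] (f : R → ℂ) (t : J → R → ℝ)
    (A : J → ℝ) {s : ℝ} (hs : 0 < s) (hA : ∀ j, 0 ≤ A j) (ht : ∀ j r, 0 ≤ t j r)
    (hone : ∀ j r r', t j r ≠ 0 → t j r' ≠ 0 → r = r')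
    (hf : ∀ r, ‖f r‖ ≤ ∑ j, A j * t j r) :
    ∑ r, |‖f r‖ - eta f t (s ^ 4) r ^ 2| ≤ 2 * s * ∑ j, A j := by
  classical
  have hδ : 0 < s ^ 4 := by positivity
  have hW : ∀ r, 0 ≤ ∑ j, t j r ^ 4 := fun r => Finset.sum_nonneg fun j _ => by positivity
  have h1 : ∀ r, |‖f r‖ - eta f t (s ^ 4) r ^ 2| ≤
      ∑ j, A j * (if t j r ≠ 0 then 2 * s else 0) := by
    intro r
    have h2 := num_elem (hW r) hδ (norm_nonneg (f r))
    refine (show |‖f r‖ - eta f t (s ^ 4) r ^ 2| ≤ _ from h2).trans ?_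
    have h3 : 0 ≤ 2 * s ^ 4 / ((∑ j, t j r ^ 4) + s ^ 4) := by
      have := hW r
      positivity
    refine (mul_le_mul_of_nonneg_right (hf r) h3).trans ?_
    rw [Finset.sum_mul]
    refine Finset.sum_le_sum fun j _ => ?_
    rw [mul_assoc]
    refine mul_le_mul_of_nonneg_left (num_elem2 (ht j r) hs ?_) (hA j)
    exact Finset.single_le_sum (f := fun j => t j r ^ 4) (fun i _ => by positivity)
      (Finset.mem_univ j)
  refine (Finset.sum_le_sum fun r _ => h1 r).trans ?_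
  rw [Finset.sum_comm, Finset.mul_sum]
  refine Finset.sum_le_sum fun j _ => ?_
  rw [← Finset.mul_sum, mul_comm (2 * s)]
  refine mul_le_mul_of_nonneg_left ?_ (hA j)
  rw [← Finset.sum_filter, Finset.sum_const, nsmul_eq_mul]
  have hcard : (Finset.univ.filter fun r => t j r ≠ 0).card ≤ 1 := by
    rw [Finset.card_le_one]
    intro a ha b hb
    rw [Finset.mem_filter] at ha hb
    exact hone j a b ha.2 hb.2
  have hc : ((Finset.univ.filter fun r => t j r ≠ 0).card : ℝ) ≤ 1 := by exact_mod_cast hcard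
  nlinarith

end Pool.Agent.MP_86f3ed.Reg
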