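import Pool.Agent.H.MP_86f3ed_an.Reg.Basic

open scoped Topology

namespace Pool.Agent.MP_86f3ed.Reg.UPair

variable {B : Type*} [CStarAlgebra B] {X : Type*} [TopologicalSpace X] [CompactSpace X]
  (P : UPair B X)

theorem mul_conj_ip (x : X) (a b : B) :
    P.ip x a b * P.ip x b a = ((‖P.ip x a b‖ ^ 2 : ℝ) : ℂ) := by
  rw [P.ip_conj x a b, Complex.mul_conj, Complex.normSq_eq_norm_sq]

/-- The case of equality in the Cauchy-Schwarz inequality. -/
theorem par {m n : B} {x : X} (h : ‖P.ip x m n‖ ^ 2 = P.nu m x * P.nu n x) (a : B) :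
    P.ip x a m * P.ip x m n = P.nu m x * P.ip x a n := by
  have hz : P.nu ((P.nu m x : ℂ) • n - (P.ip x m n) • m) x = 0 := by
    have h1 := P.ip_self x ((P.nu m x : ℂ) • n - (P.ip x m n) • m)
    have h2 : P.ip x ((P.nu m x : ℂ) • n - (P.ip x m n) • m)
        ((P.nu m x : ℂ) • n - (P.ip x m n) • m) = 0 := by
      have e3 : P.ip x n m = (starRingEnd ℂ) (P.ip x m n) := P.ip_conj x m n
      have e4 : P.ip x m n * (starRingEnd ℂ) (P.ip x m n) = (P.nu m x : ℂ) * (P.nu n x : ℂ) := by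
        rw [Complex.mul_conj, Complex.normSq_eq_norm_sq, h]
        push_cast
        ring
      have e5 : P.ip x m m = (P.nu m x : ℂ) := P.ip_self x m
      have e6 : P.ip x n n = (P.nu n x : ℂ) := P.ip_self x n
      simp only [ip_sub_left, ip_sub_right, ip_smul_left, ip_smul_right, e3, e5, e6,
        Complex.conj_ofReal]
      linear_combination (-(P.nu m x : ℂ)) * e4
    rw [h2] at h1
    exact_mod_cast h1.symm
  have h3 := P.ip_eq_zero_of_nu hz a
  rw [P.ip_sub_right, P.ip_smul_right, P.ip_smul_right] at h3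
  linear_combination -h3

/-- `e` is an orthonormal family at `x`. -/
structure Ortho (x : X) {R : Type*} (e : R → B) : Prop where
  one : ∀ r, P.ip x (e r) (e r) = 1
  zero : ∀ r s, r ≠ s → P.ip x (e r) (e s) = 0

/-- The vector `v` is null at `x` or parallel to one of the `e r`. -/
def Adapted (x : X) {R : Type*} (e : R → B) (v : B) : Prop :=
  P.nu v x = 0 ∨ ∃ r, ‖P.ip x (e r) v‖ ^ 2 = P.nu v x

variable {P} {x : X} {R : Type*} [Fintype R] {e : R → B}

/-- Bessel's inequality. -/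
theorem Ortho.bessel (he : P.Ortho x e) (v : B) : ∑ r, ‖P.ip x (e r) v‖ ^ 2 ≤ P.nu v x := by
  classical
  set w : B := ∑ r, P.ip x (e r) v • e r with hw
  have h0 := P.nu_nonneg (v - w) x
  have h1 := P.ip_self x (v - w)
  have hwe : ∀ r, P.ip x (e r) w = P.ip x (e r) v := by
    intro r
    rw [hw, P.ip_sum_right, Finset.sum_eq_single r]
    · rw [P.ip_smul_right, he.one, mul_one]
    · intro s _ hs
      rw [P.ip_smul_right, he.zero r s hs.symm, mul_zero]
    · intro h
      exact absurd (Finset.mem_univ r) h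
  have hvw : P.ip x v w = ((∑ r, ‖P.ip x (e r) v‖ ^ 2 : ℝ) : ℂ) := by
    rw [hw, P.ip_sum_right, Complex.ofReal_sum]
    refine Finset.sum_congr rfl fun r _ => ?_
    rw [P.ip_smul_right, P.mul_conj_ip]
  have hwv : P.ip x w v = ((∑ r, ‖P.ip x (e r) v‖ ^ 2 : ℝ) : ℂ) := by
    rw [P.ip_conj x v w, hvw, Complex.conj_ofReal]
  have hww : P.ip x w w = ((∑ r, ‖P.ip x (e r) v‖ ^ 2 : ℝ) : ℂ) := by
    conv_lhs => rw [hw]
    rw [P.ip_sum_left, Complex.ofReal_sum]
    refine Finset.sum_congr rfl fun r _ => ?_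
    rw [P.ip_smul_left, hwe, mul_comm, Complex.mul_conj, Complex.normSq_eq_norm_sq]
  have h2 : P.ip x (v - w) (v - w) =
      ((P.nu v x - ∑ r, ‖P.ip x (e r) v‖ ^ 2 : ℝ) : ℂ) := by
    rw [P.ip_sub_left, P.ip_sub_right, P.ip_sub_right, hvw, hwv, hww, P.ip_self]
    push_cast
    ring
  rw [h1] at h2
  have h3 := Complex.ofReal_injective h2
  linarith

/-- A nonnull adapted vector is orthogonal to all but one of the `e r`, and this one carries it. -/
theorem Ortho.exists_unique (he : P.Ortho x e) {v : B} (hv : P.Adapted x e v)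
    (h0 : P.nu v x ≠ 0) : ∃ r, ‖P.ip x (e r) v‖ ^ 2 = P.nu v x ∧
      (∀ s, s ≠ r → P.ip x (e s) v = 0) ∧ ∀ a, P.ip x a (e r) * P.ip x (e r) v = P.ip x a v := by
  obtain h | ⟨r, hr⟩ := hv
  · exact absurd h h0
  · have h1 : P.nu (e r) x = 1 := by
      have h := he.one r
      rw [P.ip_self] at h
      exact_mod_cast h
    have h2 : ∀ a, P.ip x a (e r) * P.ip x (e r) v = P.ip x a v := by
      intro a
      have h := P.par (m := e r) (n := v) (x := x) (by rw [h1, one_mul, hr]) a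
      rw [h, h1, Complex.ofReal_one, one_mul]
    refine ⟨r, hr, fun s hs => ?_, h2⟩
    rw [← h2 (e s), he.zero s r hs, zero_mul]

theorem Ortho.parseval (he : P.Ortho x e) {v : B} (hv : P.Adapted x e v) (a : B) :
    ∑ r, P.ip x a (e r) * P.ip x (e r) v = P.ip x a v := by
  by_cases h0 : P.nu v x = 0
  · rw [P.ip_eq_zero_of_nu h0]
    exact Finset.sum_eq_zero fun r _ => by rw [P.ip_eq_zero_of_nu h0, mul_zero]
  · obtain ⟨r, _, h2, h3⟩ := he.exists_unique hv h0
    rw [Finset.sum_eq_single r]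
    · exact h3 a
    · intro s _ hs
      rw [h2 s hs, mul_zero]
    · intro h
      exact absurd (Finset.mem_univ r) h

theorem Ortho.sum_sq (he : P.Ortho x e) {v : B} (hv : P.Adapted x e v) :
    ∑ r, ‖P.ip x (e r) v‖ ^ 2 = P.nu v x := by
  have h := he.parseval hv v
  have h1 : ∀ r, P.ip x v (e r) * P.ip x (e r) v = ((‖P.ip x (e r) v‖ ^ 2 : ℝ) : ℂ) := by
    intro r
    rw [mul_comm, P.mul_conj_ip]
  simp only [h1] at h
  rw [P.ip_self, ← Complex.ofReal_sum] at h
  exact Complex.ofReal_injective h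

/-- For adapted vectors. -/
theorem Ortho.sum_prod (he : P.Ortho x e) {v w : B} (hv : P.Adapted x e v)
    (hw : P.Adapted x e w) :
    ∑ r, ‖P.ip x (e r) v‖ ^ 2 * ‖P.ip x (e r) w‖ ^ 2 = ‖P.ip x v w‖ ^ 2 := by
  by_cases h0 : P.nu w x = 0
  · rw [P.ip_eq_zero_of_nu h0, norm_zero]
    refine (Finset.sum_eq_zero fun r _ => ?_).trans (by norm_num)
    rw [P.ip_eq_zero_of_nu h0, norm_zero]
    norm_num
  · obtain ⟨r, _, h2, h3⟩ := he.exists_unique hw h0
    rw [Finset.sum_eq_single r]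
    · rw [← h3 v, norm_mul, P.ip_conj x (e r) v, RCLike.norm_conj]
      ring
    · intro s _ hs
      rw [h2 s hs, norm_zero]
      norm_num
    · intro h
      exact absurd (Finset.mem_univ r) h

theorem Ortho.ip_ne_zero_iff (he : P.Ortho x e) {v w : B} (hv : P.Adapted x e v)
    (hw : P.Adapted x e w) {r : R} (hr : P.ip x (e r) w ≠ 0) :
    P.ip x v w ≠ 0 ↔ P.ip x (e r) v ≠ 0 := by
  have h0 : P.nu w x ≠ 0 := fun h => hr (P.ip_eq_zero_of_nu h _)
  obtain ⟨r', _, h2, h3⟩ := he.exists_unique hw h0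
  have hrr : r = r' := by
    by_contra h
    exact hr (h2 r h)
  subst hrr
  rw [← h3 v, P.ip_conj x (e r) v]
  constructor
  · intro h h4
    rw [h4, map_zero, zero_mul] at h
    exact h rfl
  · intro h
    exact mul_ne_zero ((map_ne_zero _).mpr h) hr

end Pool.Agent.MP_86f3ed.Reg.UPair
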