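import Pool.Agent.H.MP_86f3ed_an.Reg.CP
import Pool.Agent.H.MP_86f3ed_an.Reg.Basic

open scoped Topology InnerProductSpace

namespace Pool.Agent.MP_86f3ed.Reg.UPair

variable {B : Type*} [CStarAlgebra B] {X : Type*} [TopologicalSpace X] [CompactSpace X]
  (P : UPair B X)

open Classical in
/-- The block diagonal compression. -/
theorem exists_phi (N : ℕ) {T : Type*} (τ : Fin N → T) (p : T → X) (e : Fin N → B)
    (he : ∀ α, P.ip (p (τ α)) (e α) (e α) = 1)
    (he' : ∀ α β, α ≠ β → τ α = τ β → P.ip (p (τ α)) (e α) (e β) = 0) :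
    ∃ φ : B →ₗ[ℂ] Mat N, IsCP φ ∧ φ 1 = 1 ∧
      ∀ b α β, ⟪EuclideanSpace.single α (1 : ℂ), φ b (EuclideanSpace.single β (1 : ℂ))⟫_ℂ =
        if τ α = τ β then P.ip (p (τ α)) (e α) (b * e β) else 0 := by
  let M : B → Matrix (Fin N) (Fin N) ℂ := fun b => Matrix.of fun α β =>
    if τ α = τ β then P.ip (p (τ α)) (e α) (b * e β) else 0
  have hM : ∀ b α β, M b α β = if τ α = τ β then P.ip (p (τ α)) (e α) (b * e β) else 0 :=
    fun b α β => rfl
  let φ : B →ₗ[ℂ] Mat N :=
    { toFun := fun b => Matrix.toEuclideanCLM (𝕜 := ℂ) (n := Fin N) (M b)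
      map_add' := by
        intro b b'
        rw [← map_add]
        congr 1
        ext α β
        rw [Matrix.add_apply, hM, hM, hM]
        split_ifs
        · rw [add_mul, P.ip_add_right]
        · rw [add_zero]
      map_smul' := by
        intro r b
        rw [← map_smul, RingHom.id_apply]
        congr 1
        ext α β
        rw [Matrix.smul_apply, hM, hM]
        split_ifs
        · rw [smul_mul_assoc, P.ip_smul_right, smul_eq_mul]
        · rw [smul_zero] }
  have hφ : ∀ b, φ b = Matrix.toEuclideanCLM (𝕜 := ℂ) (n := Fin N) (M b) := fun b => rfl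
  have hin : ∀ (b : B) (v w : EuclideanSpace ℂ (Fin N)), ⟪v, φ b w⟫_ℂ =
      ∑ α, ∑ β, (starRingEnd ℂ) (v α) * (M b α β * w β) := by
    intro b v w
    rw [PiLp.inner_apply]
    refine Finset.sum_congr rfl fun α _ => ?_
    rw [RCLike.inner_apply', hφ, Matrix.ofLp_toEuclideanCLM, Matrix.mulVec, dotProduct,
      Finset.mul_sum]
  refine ⟨φ, ?_, ?_, ?_⟩
  · intro n a S
    let T' : Finset T := Finset.univ.image τ
    have hpos : ContinuousLinearMap.IsPositive
        (∑ i, ∑ j, star (S i) * φ (star (a i) * a j) * S j) := by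
      rw [ContinuousLinearMap.isPositive_iff_complex]
      intro v
      let u : T → Fin n × Fin N → B := fun t q =>
        if τ q.2 = t then ((S q.1 v) q.2) • (a q.1 * e q.2) else 0
      have hu : ∀ i α j β, ∑ t ∈ T', P.ip (p t) (u t (i, α)) (u t (j, β)) =
          (starRingEnd ℂ) ((S i v) α) * (M (star (a i) * a j) α β * (S j v) β) := by
        intro i α j β
        have h1 : ∀ t ∈ T', P.ip (p t) (u t (i, α)) (u t (j, β)) =
            if τ α = t then
              (starRingEnd ℂ) ((S i v) α) * (M (star (a i) * a j) α β * (S j v) β) else 0 := by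
          intro t _
          simp only [u, hM]
          by_cases ha : τ α = t
          · subst ha
            simp only [if_true]
            by_cases hb : τ β = τ α
            · rw [if_pos hb, if_pos hb.symm, P.ip_smul_left, P.ip_smul_right, P.ip_mul_left,
                ← mul_assoc (star (a i))]
              ring
            · rw [if_neg hb, if_neg (fun h => hb h.symm)]
              simp [ip]
          · rw [if_neg ha, if_neg ha]
            simp [ip]
        rw [Finset.sum_congr rfl h1, Finset.sum_ite_eq, if_pos]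
        exact Finset.mem_image_of_mem _ (Finset.mem_univ _)
      have hval : ⟪v, (∑ i, ∑ j, star (S i) * φ (star (a i) * a j) * S j) v⟫_ℂ =
          ((∑ t ∈ T', P.nu (∑ q, u t q) (p t) : ℝ) : ℂ) := by
        calc ⟪v, (∑ i, ∑ j, star (S i) * φ (star (a i) * a j) * S j) v⟫_ℂ
            = ∑ i, ∑ j, ⟪S i v, φ (star (a i) * a j) (S j v)⟫_ℂ := by
              simp only [ContinuousLinearMap.sum_apply, inner_sum]
              refine Finset.sum_congr rfl fun i _ => Finset.sum_congr rfl fun j _ => ?_
              rw [ContinuousLinearMap.star_eq_adjoint]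
              exact ContinuousLinearMap.adjoint_inner_right (S i) v _
          _ = ∑ i, ∑ j, ∑ α, ∑ β, ∑ t ∈ T', P.ip (p t) (u t (i, α)) (u t (j, β)) := by
              simp only [hin, hu]
          _ = ∑ t ∈ T', ∑ i, ∑ j, ∑ α, ∑ β, P.ip (p t) (u t (i, α)) (u t (j, β)) :=
              Eq.symm (Finset.sum_comm.trans (Finset.sum_congr rfl fun i _ =>
                Finset.sum_comm.trans (Finset.sum_congr rfl fun j _ =>
                Finset.sum_comm.trans (Finset.sum_congr rfl fun α _ => Finset.sum_comm))))
          _ = ∑ t ∈ T', P.ip (p t) (∑ q, u t q) (∑ q, u t q) := by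
              refine Finset.sum_congr rfl fun t _ => ?_
              rw [P.ip_sum_left]
              simp only [P.ip_sum_right]
              simp only [Fintype.sum_prod_type]
              refine Finset.sum_congr rfl fun i _ => ?_
              rw [Finset.sum_comm]
          _ = ((∑ t ∈ T', P.nu (∑ q, u t q) (p t) : ℝ) : ℂ) := by
              rw [Complex.ofReal_sum]
              exact Finset.sum_congr rfl fun t _ => P.ip_self _ _
      have hval' : ⟪(∑ i, ∑ j, star (S i) * φ (star (a i) * a j) * S j) v, v⟫_ℂ =
          ((∑ t ∈ T', P.nu (∑ q, u t q) (p t) : ℝ) : ℂ) := by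
        rw [← inner_conj_symm, hval, Complex.conj_ofReal]
      rw [hval']
      constructor
      · simp
      · have : 0 ≤ ∑ t ∈ T', P.nu (∑ q, u t q) (p t) :=
          Finset.sum_nonneg fun t _ => P.nu_nonneg _ _
        simpa using this
    rw [← ContinuousLinearMap.nonneg_iff_isPositive] at hpos
    exact CStarAlgebra.nonneg_iff_eq_star_mul_self.mp hpos
  · rw [hφ]
    have h1 : M 1 = 1 := by
      ext α β
      rw [hM, one_mul, Matrix.one_apply]
      by_cases h : α = β
      · subst h
        rw [if_pos rfl, if_pos rfl, he]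
      · rw [if_neg h]
        split_ifs with h2
        · exact he' α β h h2
        · rfl
    rw [h1, map_one]
  · intro b α β
    rw [EuclideanSpace.inner_single_left, map_one, one_mul, hφ, Matrix.ofLp_toEuclideanCLM]
    simp [hM]

end Pool.Agent.MP_86f3ed.Reg.UPair
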