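import Pool.Agent.H.MP_86f3ed_an.Reg.Basic

open scoped Topology

namespace Pool.Agent.MP_86f3ed.Reg.UPair

variable {B : Type*} [CStarAlgebra B] {X : Type*} [TopologicalSpace X] [CompactSpace X]
  [T2Space X] (P : UPair B X)

/-- Every unital multiplicative linear functional on `C(X)` is an evaluation. -/
theorem exists_eval (φ : C(X, ℂ) →ₐ[ℂ] ℂ) : ∃ y : X, ∀ f, φ f = f y := by
  obtain ⟨y, hy⟩ := (WeakDual.CharacterSpace.continuousMapEval_bijective (X := X)
    (𝕜 := ℂ)).2 (WeakDual.CharacterSpace.equivAlgHom.symm φ)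
  refine ⟨y, fun f => ?_⟩
  have h := congrArg (fun c : WeakDual.characterSpace ℂ C(X, ℂ) => c f) hy
  simp only [WeakDual.CharacterSpace.continuousMapEval_apply_apply] at h
  rw [h]
  rfl

/-- For a normalizer `n` with `ν_n(x) ≠ 0` the normalized functional `f ↦ E(n^* f n)(x)` is a
character of `C(X)`, i.e. the evaluation at a point. -/
theorem exists_point {n : B} (hn : n ∈ P.N) {x : X} (hx : P.nu n x ≠ 0) :
    ∃ y : X, ∀ f : C(X, ℂ), P.E (star n * P.ι f * n) x = P.nu n x * f y := by
  have hν : (P.nu n x : ℂ) ≠ 0 := Complex.ofReal_ne_zero.mpr hx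
  have h1 : P.E (star n * n) x = (P.nu n x : ℂ) := P.ip_self x n
  have hmul : ∀ f g : C(X, ℂ), P.E (star n * P.ι (f * g) * n) x * P.nu n x =
      P.E (star n * P.ι f * n) x * P.E (star n * P.ι g * n) x := by
    intro f g
    have e1 : star n * P.ι (f * g) * n * (star n * n) =
        (star n * P.ι f * n) * (star n * P.ι g * n) := by
      have e2 : P.ι g * (n * star n) = (n * star n) * P.ι g := by
        rw [P.mul_star_eq hn, P.ι_comm]
      calc star n * P.ι (f * g) * n * (star n * n) =
          star n * P.ι f * (P.ι g * (n * star n)) * n := by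
            rw [map_mul]; simp only [mul_assoc]
        _ = star n * P.ι f * ((n * star n) * P.ι g) * n := by rw [e2]
        _ = _ := by simp only [mul_assoc]
    have e3 : P.E (star n * P.ι (f * g) * n * (star n * n)) x =
        P.E ((star n * P.ι f * n) * (star n * P.ι g * n)) x := by rw [e1]
    rw [P.star_mul_eq hn, P.E_right, P.conj_eq hn g, P.E_right, ContinuousMap.mul_apply,
      ContinuousMap.mul_apply, h1] at e3
    exact e3
  let L : C(X, ℂ) →ₗ[ℂ] ℂ :=
    { toFun := fun f => (P.nu n x : ℂ)⁻¹ * P.E (star n * P.ι f * n) x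
      map_add' := fun f g => by
        rw [map_add, mul_add, add_mul, map_add, ContinuousMap.add_apply, mul_add]
      map_smul' := fun z f => by
        rw [map_smul, mul_smul_comm, smul_mul_assoc, map_smul, ContinuousMap.smul_apply,
          RingHom.id_apply, smul_eq_mul, smul_eq_mul]
        ring }
  have hL : ∀ f, L f = (P.nu n x : ℂ)⁻¹ * P.E (star n * P.ι f * n) x := fun f => rfl
  obtain ⟨y, hy⟩ := exists_eval (AlgHom.ofLinearMap L
    (by rw [hL, map_one, mul_one, h1, inv_mul_cancel₀ hν])
    (fun f g => by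
      rw [hL, hL, hL]
      field_simp
      rw [mul_comm]
      exact hmul f g))
  refine ⟨y, fun f => ?_⟩
  have h2 : L f = f y := hy f
  rw [← h2, hL, ← mul_assoc, mul_inv_cancel₀ hν, one_mul]

end Pool.Agent.MP_86f3ed.Reg.UPair
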