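import Pool.Agent.H.MP_86f3ed_an.Reg.Trans

open scoped Topology

namespace Pool.Agent.MP_86f3ed.Reg.UPair

variable {B : Type*} [CStarAlgebra B] {X : Type*} [TopologicalSpace X] [CompactSpace X]
  [T2Space X] (P : UPair B X)

/-- The value of `n ι(h) n^*` at the transported point. -/
theorem E_conj' {n : B} (hn : n ∈ P.N) {x y : X} (hx : P.nu n x ≠ 0)
    (hy : ∀ f : C(X, ℂ), P.E (star n * P.ι f * n) x = P.nu n x * f y) (h : C(X, ℂ)) :
    P.E (n * P.ι h * star n) y = P.nu n x * h x := by
  have h1 : star n * (n * P.ι h * star n) * n = (star n * n) * P.ι h * (star n * n) := by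
    simp only [mul_assoc]
  have h2 := hy (P.E (n * P.ι h * star n))
  rw [← P.conj_eq' hn h, h1, P.star_mul_eq hn, ← map_mul, ← map_mul, P.E_ι] at h2
  have h3 : P.E (star n * n) x = (P.nu n x : ℂ) := P.ip_self x n
  simp only [ContinuousMap.mul_apply, h3] at h2
  have h4 : (P.nu n x : ℂ) ≠ 0 := Complex.ofReal_ne_zero.mpr hx
  have h5 : (P.nu n x : ℂ) * P.E (n * P.ι h * star n) y =
      (P.nu n x : ℂ) * (P.nu n x * h x) := by
    rw [← h2]
    ring
  exact mul_left_cancel₀ h4 h5

theorem transport_N {n : B} (hn : n ∈ P.N) {x y : X} (hx : P.nu n x ≠ 0)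
    (hy : ∀ f : C(X, ℂ), P.E (star n * P.ι f * n) x = P.nu n x * f y) {a : B} (ha : a ∈ P.N) :
    P.E (star n * a * n) x = P.nu n x * P.E a y := by
  have hν : (P.nu n x : ℂ) ≠ 0 := Complex.ofReal_ne_zero.mpr hx
  have h3 : P.E (star n * n) x = (P.nu n x : ℂ) := P.ip_self x n
  set p := P.E a with hp
  set q := P.E (star n * a * n) with hq
  have hpa : a * P.ι (star p) = P.ι (p * star p) := P.agree a ha
  have hqa : star n * a * n * P.ι (star q) = P.ι (q * star q) :=
    P.agree _ (P.mul_mem _ (P.mul_mem _ (P.star_mem n hn) _ ha) _ hn)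
  by_cases hpy : p y = 0
  · rw [hpy, mul_zero]
    by_contra hqx
    -- multiply by `n` on the left and `n^*` on the right
    have h1 : (n * star n) * a * (n * P.ι (star q) * star n) = n * P.ι (q * star q) * star n := by
      rw [← hqa]
      simp only [mul_assoc]
    have h2 : P.E ((n * star n) * a * (n * P.ι (star q) * star n)) y =
      P.E (n * P.ι (q * star q) * star n) y := by rw [h1]
    rw [P.E_conj' hn hx hy, P.conj_eq' hn (star q), P.mul_star_eq hn, P.E_right, P.E_left] at h2
    simp only [ContinuousMap.mul_apply, ← hp, hpy, mul_zero, zero_mul] at h2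
    have h4 : q x * (star q) x ≠ 0 := by
      rw [ContinuousMap.star_apply]
      exact mul_ne_zero hqx (star_ne_zero.mpr hqx)
    exact (mul_ne_zero hν h4) h2.symm
  · -- first computation
    have h1 : P.E (star n * (a * P.ι (star p)) * n) x = P.nu n x * (p y * star (p y)) := by
      rw [hpa, hy]
      simp [ContinuousMap.mul_apply]
    have h2 : star n * (a * P.ι (star p)) * n * (star n * n) =
        star n * a * n * (star n * P.ι (star p) * n) := by
      have e1 : P.ι (star p) * (n * star n) = (n * star n) * P.ι (star p) := by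
        rw [P.mul_star_eq hn, P.ι_comm]
      calc star n * (a * P.ι (star p)) * n * (star n * n) =
          star n * a * (P.ι (star p) * (n * star n)) * n := by simp only [mul_assoc]
        _ = star n * a * ((n * star n) * P.ι (star p)) * n := by rw [e1]
        _ = star n * a * n * (star n * P.ι (star p) * n) := by simp only [mul_assoc]
    have h4 : P.E (star n * (a * P.ι (star p)) * n * (star n * n)) x =
      P.E (star n * a * n * (star n * P.ι (star p) * n)) x := by rw [h2]
    rw [P.star_mul_eq hn, P.E_right, P.conj_eq hn (star p), P.E_right] at h4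
    simp only [ContinuousMap.mul_apply, h1, h3, ← hq, hy (star p)] at h4
    have h5 : star (p y) ≠ 0 := star_ne_zero.mpr hpy
    have h6 : (star p) y = star (p y) := rfl
    rw [h6] at h4
    have h7 : q x * ((P.nu n x : ℂ) * star (p y)) =
        (P.nu n x * p y) * ((P.nu n x : ℂ) * star (p y)) := by
      rw [← h4]
      ring
    exact mul_right_cancel₀ (mul_ne_zero hν h5) h7

/-- The conditional expectation is equivariant under normalizers. -/
theorem exists_transport {n : B} (hn : n ∈ P.N) {x : X} (hx : P.nu n x ≠ 0) :
    ∃ y : X, ∀ b : B, P.E (star n * b * n) x = P.nu n x * P.E b y := by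
  obtain ⟨y, hy⟩ := P.exists_point hn hx
  refine ⟨y, fun b => ?_⟩
  have hcl : IsClosed {b : B | P.E (star n * b * n) x = P.nu n x * P.E b y} := by
    have hev : ∀ z : X, Continuous fun b : B => P.E b z := fun z =>
      (ContinuousEvalConst.continuous_eval_const z).comp P.E_cont
    refine isClosed_eq ?_ ?_
    · exact (hev x).comp ((continuous_const.mul continuous_id).mul continuous_const)
    · exact continuous_const.mul (hev y)
  have hsub : (Submodule.span ℂ P.N : Set B) ⊆
      {b : B | P.E (star n * b * n) x = P.nu n x * P.E b y} := by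
    intro b hb
    induction hb using Submodule.span_induction with
    | mem a ha => exact P.transport_N hn hx hy ha
    | zero => simp
    | add a b _ _ h1 h2 =>
      simp only [Set.mem_ofPred_eq] at h1 h2 ⊢
      rw [mul_add, add_mul, map_add, map_add, ContinuousMap.add_apply, ContinuousMap.add_apply,
        h1, h2, mul_add]
    | smul z a _ h1 =>
      simp only [Set.mem_ofPred_eq] at h1 ⊢
      rw [mul_smul_comm, smul_mul_assoc, map_smul, map_smul, ContinuousMap.smul_apply,
        ContinuousMap.smul_apply, h1, smul_eq_mul, smul_eq_mul]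
      ring
  exact closure_minimal hsub hcl (P.dense b)

end Pool.Agent.MP_86f3ed.Reg.UPair
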