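import Pool.Agent.H.MP_86f3ed_an.Reg.Defs

open scoped Topology ZeroAtInfty
open Filter

namespace Pool.Agent.MP_86f3ed.Reg

section

variable {X : Type*} [TopologicalSpace X] [T2Space X]

/-- extension by `0` to the one point compactification -/
noncomputable def uExt (f : C₀(X, ℂ)) : C(OnePoint X, ℂ) :=
  OnePoint.continuousMapMk f.toContinuousMap 0 (by
    rw [coclosedCompact_eq_cocompact]; exact f.zero_at_infty')

@[simp] theorem uExt_infty (f : C₀(X, ℂ)) : uExt f (OnePoint.infty : OnePoint X) = 0 := rfl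

@[simp] theorem uExt_coe (f : C₀(X, ℂ)) (x : X) : uExt f (x : OnePoint X) = f x := rfl

/-- `g ↦ (g - g(∞))|_X` -/
noncomputable def uRes (g : C(OnePoint X, ℂ)) : C₀(X, ℂ) where
  toFun x := g (x : OnePoint X) - g (OnePoint.infty : OnePoint X)
  continuous_toFun := (g.continuous.comp OnePoint.continuous_coe).sub continuous_const
  zero_at_infty' := by
    have h1 : Tendsto (fun x : X => g (x : OnePoint X)) (coclosedCompact X)
        (𝓝 (g (OnePoint.infty : OnePoint X))) :=
      (g.continuous.tendsto _).comp OnePoint.tendsto_coe_infty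
    rw [coclosedCompact_eq_cocompact] at h1
    have := h1.sub_const (g (OnePoint.infty : OnePoint X))
    rwa [sub_self] at this

@[simp] theorem uRes_apply (g : C(OnePoint X, ℂ)) (x : X) :
    uRes g x = g (x : OnePoint X) - g (OnePoint.infty : OnePoint X) := rfl

omit [T2Space X] in
theorem uExt_ext {f g : C(OnePoint X, ℂ)}
    (h0 : f (OnePoint.infty : OnePoint X) = g (OnePoint.infty : OnePoint X))
    (h : ∀ x : X, f (x : OnePoint X) = g (x : OnePoint X)) : f = g := by
  ext x
  induction x using OnePoint.rec with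
  | infty => exact h0
  | coe x => exact h x

theorem exists_bump [LocallyCompactSpace X] (x : X) : ∃ f : C₀(X, ℂ), f x = 1 ∧ ‖f‖ ≤ 1 := by
  obtain ⟨f, hf1, -, hfc, hf⟩ := exists_continuous_one_zero_of_isCompact
    (isCompact_singleton (x := x)) isClosed_empty (Set.disjoint_empty _)
  have hcs : HasCompactSupport (fun y : X => ((f y : ℝ) : ℂ)) :=
    hfc.comp_left (g := fun r : ℝ => (r : ℂ)) Complex.ofReal_zero
  let F : C₀(X, ℂ) :=
    ⟨⟨fun y : X => ((f y : ℝ) : ℂ), Complex.continuous_ofReal.comp f.continuous⟩,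
      hcs.is_zero_at_infty⟩
  refine ⟨F, ?_, ?_⟩
  · change ((f x : ℝ) : ℂ) = 1
    rw [hf1 (Set.mem_singleton x)]
    simp
  · rw [← ZeroAtInftyContinuousMap.norm_toBCF_eq_norm]
    refine (BoundedContinuousFunction.norm_le zero_le_one).2 fun y => ?_
    change ‖((f y : ℝ) : ℂ)‖ ≤ 1
    rw [Complex.norm_real, Real.norm_eq_abs, abs_of_nonneg (hf y).1]
    exact (hf y).2

end

section

variable {A : Type*} [NonUnitalCStarAlgebra A] {X : Type*} [TopologicalSpace X]
    [T2Space X] (P : DiagonalPair A X)

/-- the extended inclusion -/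
noncomputable def uι : C(OnePoint X, ℂ) →⋆ₐ[ℂ] Unitization ℂ A where
  toFun g := Unitization.inl (g (OnePoint.infty : OnePoint X)) + (P.ι (uRes g) : Unitization ℂ A)
  map_one' := by
    have : uRes (1 : C(OnePoint X, ℂ)) = 0 := by ext x; simp
    rw [this, map_zero]
    ext <;> simp
  map_mul' f g := by
    have : uRes (f * g) = f (OnePoint.infty : OnePoint X) • uRes g
        + g (OnePoint.infty : OnePoint X) • uRes f + uRes f * uRes g := by
      ext x; simp; ring
    rw [this]
    ext <;> simp
  map_zero' := by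
    have : uRes (0 : C(OnePoint X, ℂ)) = 0 := by ext x; simp
    rw [this, map_zero]
    ext <;> simp
  map_add' f g := by
    have : uRes (f + g) = uRes f + uRes g := by ext x; simp; ring
    rw [this]
    ext <;> simp
  commutes' r := by
    have : uRes (algebraMap ℂ C(OnePoint X, ℂ) r) = 0 := by ext x; simp
    rw [this, map_zero, Unitization.algebraMap_eq_inl]
    ext <;> simp
  map_star' f := by
    have : uRes (star f) = star (uRes f) := by ext x; simp
    rw [this, map_star]
    ext <;> simp

theorem uι_fst (g : C(OnePoint X, ℂ)) : (uι P g).fst = g (OnePoint.infty : OnePoint X) := by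
  simp [uι]

theorem uι_snd (g : C(OnePoint X, ℂ)) : (uι P g).snd = P.ι (uRes g) := by
  simp [uι]

/-- the extended expectation -/
noncomputable def uE : Unitization ℂ A →ₗ[ℂ] C(OnePoint X, ℂ) where
  toFun b := ContinuousMap.const _ b.fst + uExt (P.E b.snd)
  map_add' a b := by
    refine uExt_ext ?_ fun x => ?_
    · simp
    · simp; ring
  map_smul' r a := by
    refine uExt_ext ?_ fun x => ?_
    · simp
    · simp

theorem uE_infty (b : Unitization ℂ A) : uE P b (OnePoint.infty : OnePoint X) = b.fst := by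
  simp [uE]

theorem uE_coe (b : Unitization ℂ A) (x : X) :
    uE P b (x : OnePoint X) = b.fst + P.E b.snd x := by
  simp [uE]

theorem uE_uι (f : C(OnePoint X, ℂ)) : uE P (uι P f) = f := by
  refine uExt_ext ?_ fun x => ?_
  · rw [uE_infty, uι_fst]
  · rw [uE_coe, uι_fst, uι_snd, P.E_ι]; simp

theorem uE_left (f : C(OnePoint X, ℂ)) (b : Unitization ℂ A) :
    uE P (uι P f * b) = f * uE P b := by
  refine uExt_ext ?_ fun x => ?_
  · rw [uE_infty, ContinuousMap.mul_apply, uE_infty, Unitization.fst_mul, uι_fst]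
  · rw [uE_coe, ContinuousMap.mul_apply, uE_coe, Unitization.fst_mul, Unitization.snd_mul,
      uι_fst, uι_snd]
    simp only [map_add, map_smul, P.E_ι, P.E_left, ZeroAtInftyContinuousMap.add_apply,
      ZeroAtInftyContinuousMap.smul_apply, ZeroAtInftyContinuousMap.mul_apply, uRes_apply,
      smul_eq_mul]
    ring

theorem uE_right (f : C(OnePoint X, ℂ)) (b : Unitization ℂ A) :
    uE P (b * uι P f) = uE P b * f := by
  refine uExt_ext ?_ fun x => ?_
  · rw [uE_infty, ContinuousMap.mul_apply, uE_infty, Unitization.fst_mul, uι_fst]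
  · rw [uE_coe, ContinuousMap.mul_apply, uE_coe, Unitization.fst_mul, Unitization.snd_mul,
      uι_fst, uι_snd]
    simp only [map_add, map_smul, P.E_ι, P.E_right, ZeroAtInftyContinuousMap.add_apply,
      ZeroAtInftyContinuousMap.smul_apply, ZeroAtInftyContinuousMap.mul_apply, uRes_apply,
      smul_eq_mul]
    ring

theorem uE_star (b : Unitization ℂ A) : uE P (star b) = star (uE P b) := by
  refine uExt_ext ?_ fun x => ?_
  · rw [uE_infty, ContinuousMap.star_apply, uE_infty, Unitization.fst_star]
  · rw [uE_coe, ContinuousMap.star_apply, uE_coe, Unitization.fst_star, Unitization.snd_star,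
      P.E_star, star_add, ZeroAtInftyContinuousMap.star_apply]

theorem uι_uExt (f : C₀(X, ℂ)) : uι P (uExt f) = (P.ι f : Unitization ℂ A) := by
  have : uRes (uExt f) = f := by ext x; simp
  ext
  · rw [uι_fst]; simp
  · rw [uι_snd, this]; simp

/-- localisation of an element at a point of `X` -/
theorem uE_local (b : Unitization ℂ A) (f : C₀(X, ℂ)) :
    ∃ a : A, b * uι P (uExt f) = (a : Unitization ℂ A) := by
  refine ⟨b.fst • P.ι f + b.snd * P.ι f, ?_⟩
  rw [uι_uExt]
  ext <;> simp

end

/-- The inclusion and the expectation extend to the unitization. -/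
theorem exists_maps {A : Type*} [NonUnitalCStarAlgebra A] {X : Type*} [TopologicalSpace X]
    [T2Space X] [LocallyCompactSpace X] (P : DiagonalPair A X) :
    ∃ (ι' : C(OnePoint X, ℂ) →⋆ₐ[ℂ] Unitization ℂ A)
      (E' : Unitization ℂ A →ₗ[ℂ] C(OnePoint X, ℂ)),
      (∀ f, E' (ι' f) = f) ∧ (∀ f b, E' (ι' f * b) = f * E' b) ∧
      (∀ f b, E' (b * ι' f) = E' b * f) ∧ (∀ b, E' (star b) = star (E' b)) ∧
      (∀ b x, 0 ≤ (E' (star b * b) x).re) ∧ (∀ b, ‖E' b‖ ≤ ‖b‖) ∧
      (∀ f : C₀(X, ℂ), ∃ g, ι' g = (P.ι f : Unitization ℂ A)) ∧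
      (∀ g, ∃ (z : ℂ) (f : C₀(X, ℂ)),
        ι' g = algebraMap ℂ (Unitization ℂ A) z + (P.ι f : Unitization ℂ A)) ∧
      (∀ a : A, ι' (E' (a : Unitization ℂ A)) = (P.ι (P.E a) : Unitization ℂ A)) := by
  refine ⟨uι P, uE P, uE_uι P, uE_left P, uE_right P, uE_star P, ?_, ?_, ?_, ?_, ?_⟩
  · intro b x
    induction x using OnePoint.rec with
    | infty =>
      rw [uE_infty, Unitization.fst_mul, Unitization.fst_star]
      have : star b.fst * b.fst = ((‖b.fst‖ ^ 2 : ℝ) : ℂ) := by
        rw [← Complex.normSq_eq_norm_sq]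
        exact (Complex.normSq_eq_conj_mul_self (z := b.fst)).symm
      rw [this, Complex.ofReal_re]
      positivity
    | coe x =>
      obtain ⟨f, hf1, -⟩ := exists_bump x
      obtain ⟨a, ha⟩ := uE_local P b f
      have h1 : star (b * uι P (uExt f)) * (b * uι P (uExt f))
          = uι P (star (uExt f)) * (star b * b) * uι P (uExt f) := by
        rw [star_mul, map_star]
        noncomm_ring
      have h2 : uE P (star (b * uι P (uExt f)) * (b * uι P (uExt f))) (x : OnePoint X)
          = uE P (star b * b) (x : OnePoint X) := by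
        rw [h1, uE_right, uE_left, ContinuousMap.mul_apply, ContinuousMap.mul_apply,
          ContinuousMap.star_apply, uExt_coe, hf1]
        simp
      rw [← h2, ha, ← Unitization.inr_star, ← Unitization.inr_mul, uE_coe]
      simp only [Unitization.fst_inr, Unitization.snd_inr, zero_add]
      exact P.E_pos a x
  · intro b
    rw [ContinuousMap.norm_le _ (norm_nonneg b)]
    intro x
    induction x using OnePoint.rec with
    | infty =>
      rw [uE_infty, Unitization.norm_eq_sup]
      exact le_sup_left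
    | coe x =>
      obtain ⟨f, hf1, hf2⟩ := exists_bump x
      obtain ⟨a, ha⟩ := uE_local P b f
      have h2 : uE P (b * uι P (uExt f)) (x : OnePoint X) = uE P b (x : OnePoint X) := by
        rw [uE_right, ContinuousMap.mul_apply, uExt_coe, hf1, mul_one]
      rw [← h2, ha, uE_coe]
      simp only [Unitization.fst_inr, Unitization.snd_inr, zero_add]
      have h3 : ‖P.E a x‖ ≤ ‖P.E a‖ := by
        rw [← ZeroAtInftyContinuousMap.norm_toBCF_eq_norm]
        exact (P.E a).toBCF.norm_coe_le_norm x
      have h4 : ‖a‖ ≤ ‖b‖ := by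
        rw [← Unitization.norm_inr (𝕜 := ℂ) a, ← ha, uι_uExt]
        refine (norm_mul_le _ _).trans ?_
        rw [Unitization.norm_inr]
        have h5 : ‖P.ι f‖ ≤ 1 := (NonUnitalStarAlgHom.norm_apply_le P.ι f).trans hf2
        calc ‖b‖ * ‖P.ι f‖ ≤ ‖b‖ * 1 := by gcongr
          _ = ‖b‖ := mul_one _
      exact h3.trans ((P.E_norm a).trans h4)
  · exact fun f => ⟨uExt f, uι_uExt P f⟩
  · intro g
    refine ⟨g (OnePoint.infty : OnePoint X), uRes g, ?_⟩
    rfl
  · intro a
    have : uE P (a : Unitization ℂ A) = uExt (P.E a) := by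
      refine uExt_ext ?_ fun x => ?_
      · rw [uE_infty]; simp
      · rw [uE_coe]; simp
    rw [this, uι_uExt]

end Pool.Agent.MP_86f3ed.Reg
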