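import Pool.Agent.H.MP_86f3ed_an.Reg.Basic

open scoped Topology

namespace Pool.Agent.MP_86f3ed.Reg.UPair

variable {B : Type*} [CStarAlgebra B] {X : Type*} [TopologicalSpace X] [CompactSpace X]
  (P : UPair B X)

/-- The closure of `n C(X)`. -/
def Z (n : B) : Set B := closure (Set.range fun f : C(X, ℂ) => n * P.ι f)

theorem self_mem_Z (n : B) : n ∈ P.Z n :=
  subset_closure ⟨1, by simp⟩

/-- The linear map `f ↦ n ι(f)`. -/
noncomputable def ZL (n : B) : C(X, ℂ) →ₗ[ℂ] B where
  toFun f := n * P.ι f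
  map_add' f g := by rw [map_add, mul_add]
  map_smul' c f := by rw [map_smul, mul_smul_comm, RingHom.id_apply]

theorem Z_eq (n : B) : P.Z n = ((LinearMap.range (P.ZL n)).topologicalClosure : Set B) := rfl

theorem add_mem_Z {n u v : B} (hu : u ∈ P.Z n) (hv : v ∈ P.Z n) : u + v ∈ P.Z n := by
  rw [Z_eq] at *
  exact Submodule.add_mem _ hu hv

theorem neg_mem_Z {n u : B} (hu : u ∈ P.Z n) : -u ∈ P.Z n := by
  rw [Z_eq] at *
  exact Submodule.neg_mem _ hu

theorem sum_mem_Z {n : B} {K : Type*} (s : Finset K) (u : K → B) (hu : ∀ k ∈ s, u k ∈ P.Z n) :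
    ∑ k ∈ s, u k ∈ P.Z n := by
  simp only [Z_eq] at *
  exact Submodule.sum_mem _ hu

theorem isClosed_Z (n : B) : IsClosed (P.Z n) := isClosed_closure

/-- Induction principle: a closed property that holds on `n C(X)` holds on `Z n`. -/
theorem Z_induction {n : B} {p : B → Prop} (hp : IsClosed {z | p z})
    (h : ∀ f : C(X, ℂ), p (n * P.ι f)) {z : B} (hz : z ∈ P.Z n) : p z := by
  have h1 : closure (Set.range fun f : C(X, ℂ) => n * P.ι f) ⊆ {z | p z} := by
    refine closure_minimal ?_ hp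
    rintro _ ⟨f, rfl⟩
    exact h f
  exact h1 hz

theorem mul_ι_mem_Z {n u : B} (hu : u ∈ P.Z n) (f : C(X, ℂ)) : u * P.ι f ∈ P.Z n := by
  refine P.Z_induction (p := fun u => u * P.ι f ∈ P.Z n) ?_ ?_ hu
  · exact (P.isClosed_Z n).preimage (continuous_id.mul continuous_const)
  · intro g
    refine subset_closure ⟨g * f, ?_⟩
    simp only
    rw [map_mul, mul_assoc]

theorem E_star_mul_self_apply (n : B) (x : X) : P.E (star n * n) x = (P.nu n x : ℂ) :=
  P.ip_self x n

/-- approximate units of `n`. -/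
theorem approx_n {n : B} (hn : n ∈ P.N) {ε : ℝ} (hε : 0 < ε) :
    ∃ g : C(X, ℂ), ‖n * P.ι (P.E (star n * n) * g) - n‖ ^ 2 ≤ ε := by
  have hpos : ∀ x, 0 < P.nu n x + ε := fun x => by
    have := P.nu_nonneg n x
    linarith
  let g : C(X, ℂ) := ⟨fun x => (((P.nu n x + ε)⁻¹ : ℝ) : ℂ),
    Complex.continuous_ofReal.comp (((P.continuous_nu n).add continuous_const).inv₀
      (fun x => (hpos x).ne'))⟩
  refine ⟨g, ?_⟩
  let k : C(X, ℂ) := P.E (star n * n) * g - 1
  have h1 : n * P.ι (P.E (star n * n) * g) - n = n * P.ι k := by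
    rw [map_sub, map_one, mul_sub, mul_one]
  have hk : ∀ x, k x = ((-(ε * (P.nu n x + ε)⁻¹) : ℝ) : ℂ) := by
    intro x
    have h2 : k x = P.E (star n * n) x * g x - 1 := rfl
    have h3 : g x = (((P.nu n x + ε)⁻¹ : ℝ) : ℂ) := rfl
    rw [h2, h3, E_star_mul_self_apply, ← Complex.ofReal_mul, ← Complex.ofReal_one,
      ← Complex.ofReal_sub]
    congr 1
    field_simp [(hpos x).ne']
    ring
  rw [h1]
  have h4 : star (n * P.ι k) * (n * P.ι k) = P.ι (star k * P.E (star n * n) * k) := by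
    rw [star_mul, ← map_star P.ι k, map_mul, map_mul, ← P.star_mul_eq hn]
    simp only [mul_assoc]
  have h5 : ‖n * P.ι k‖ ^ 2 = ‖star k * P.E (star n * n) * k‖ := by
    rw [sq, ← CStarRing.norm_star_mul_self, h4, P.norm_ι]
  rw [h5, ContinuousMap.norm_le _ hε.le]
  intro x
  have h6 : (star k * P.E (star n * n) * k) x = star (k x) * P.E (star n * n) x * k x := rfl
  rw [h6, E_star_mul_self_apply, hk, norm_mul, norm_mul, norm_star, Complex.norm_real,
    Complex.norm_real, Real.norm_eq_abs, Real.norm_eq_abs, abs_neg,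
    abs_of_nonneg (mul_nonneg hε.le (inv_nonneg.mpr (hpos x).le)), abs_of_nonneg (P.nu_nonneg n x)]
  have h7 := P.nu_nonneg n x
  have h8 : ε * (P.nu n x + ε)⁻¹ * P.nu n x * (ε * (P.nu n x + ε)⁻¹) =
      ε * (ε * P.nu n x / (P.nu n x + ε) ^ 2) := by
    field_simp [(hpos x).ne']
  rw [h8]
  have h9 : ε * P.nu n x / (P.nu n x + ε) ^ 2 ≤ 1 := by
    rw [div_le_one (pow_pos (hpos x) 2)]
    nlinarith
  nlinarith

theorem ι_mul_n_mem_Z {n : B} (hn : n ∈ P.N) (f : C(X, ℂ)) : P.ι f * n ∈ P.Z n := by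
  have key : ∀ g : C(X, ℂ), P.ι f * (n * P.ι (P.E (star n * n) * g)) =
      n * P.ι (P.E (star n * P.ι f * n) * g) := by
    intro g
    rw [map_mul P.ι, map_mul P.ι, ← P.star_mul_eq hn, ← P.conj_eq hn]
    have h1 : P.ι f * (n * star n) = (n * star n) * P.ι f := by
      rw [P.mul_star_eq hn, P.ι_comm]
    calc P.ι f * (n * (star n * n * P.ι g)) = (P.ι f * (n * star n)) * (n * P.ι g) := by
          simp only [mul_assoc]
      _ = ((n * star n) * P.ι f) * (n * P.ι g) := by rw [h1]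
      _ = n * (star n * P.ι f * n * P.ι g) := by simp only [mul_assoc]
  rw [Z, Metric.mem_closure_iff]
  intro ε hε
  have hC : 0 < ‖P.ι f‖ + 1 := by positivity
  obtain ⟨g, hg⟩ := P.approx_n hn (ε := (ε / (2 * (‖P.ι f‖ + 1))) ^ 2) (by positivity)
  refine ⟨n * P.ι (P.E (star n * P.ι f * n) * g), ⟨_, rfl⟩, ?_⟩
  rw [← key, dist_eq_norm, ← mul_sub, ← norm_neg, ← mul_neg, neg_sub]
  have h2 : ‖n * P.ι (P.E (star n * n) * g) - n‖ ≤ ε / (2 * (‖P.ι f‖ + 1)) :=
    abs_le_of_sq_le_sq' hg (by positivity) |>.2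
  calc ‖P.ι f * (n * P.ι (P.E (star n * n) * g) - n)‖
      ≤ ‖P.ι f‖ * ‖n * P.ι (P.E (star n * n) * g) - n‖ := norm_mul_le _ _
    _ ≤ (‖P.ι f‖ + 1) * (ε / (2 * (‖P.ι f‖ + 1))) := by gcongr; linarith
    _ = ε / 2 := by field_simp
    _ < ε := by linarith

theorem ι_mul_mem_Z {n u : B} (hn : n ∈ P.N) (hu : u ∈ P.Z n) (f : C(X, ℂ)) :
    P.ι f * u ∈ P.Z n := by
  refine P.Z_induction (p := fun u => P.ι f * u ∈ P.Z n) ?_ ?_ hu
  · exact (P.isClosed_Z n).preimage (continuous_const.mul continuous_id)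
  · intro g
    rw [← mul_assoc]
    exact P.mul_ι_mem_Z (P.ι_mul_n_mem_Z hn f) g

theorem continuous_star_mul_self : Continuous fun z : B => star z * z :=
  continuous_star.mul continuous_id

theorem continuous_E_apply (x : X) : Continuous fun z : B => P.E z x :=
  (continuous_eval_const x).comp P.E_cont

/-- The norm on the closure of `n C(X)` is determined by the expectation. -/
theorem norm_sq_le_of_Z {n z : B} (hn : n ∈ P.N) (hz : z ∈ P.Z n) {C : ℝ} (hC : 0 ≤ C)
    (h : ∀ x, P.nu n x ≠ 0 → ‖P.E (star n * z) x‖ ^ 2 ≤ C * P.nu n x) : ‖z‖ ^ 2 ≤ C := by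
  have ha : star z * z = P.ι (P.E (star z * z)) := by
    refine P.Z_induction (p := fun z => star z * z = P.ι (P.E (star z * z))) ?_ ?_ hz
    · refine isClosed_eq continuous_star_mul_self ?_
      have h1 : Continuous P.ι := AddMonoidHomClass.continuous_of_bound P.ι 1
        (fun b => by rw [one_mul]; exact (P.norm_ι b).le)
      exact h1.comp (P.E_cont.comp continuous_star_mul_self)
    · intro f
      have h1 : star (n * P.ι f) * (n * P.ι f) = P.ι (star f * P.E (star n * n) * f) := by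
        rw [star_mul, ← map_star P.ι f, map_mul, map_mul, ← P.star_mul_eq hn]
        simp only [mul_assoc]
      rw [h1, P.E_ι]
  have hcn : ∀ x, Continuous fun z : B => P.nu z x := fun x =>
    Complex.continuous_re.comp ((P.continuous_E_apply x).comp continuous_star_mul_self)
  have hb : ∀ x, ‖P.E (star n * z) x‖ ^ 2 = P.nu n x * P.nu z x := by
    intro x
    refine P.Z_induction (p := fun z => ‖P.E (star n * z) x‖ ^ 2 = P.nu n x * P.nu z x) ?_ ?_ hz
    · refine isClosed_eq ?_ ?_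
      · exact ((P.continuous_E_apply x).comp (continuous_const.mul continuous_id)).norm.pow 2
      · exact continuous_const.mul (hcn x)
    · intro f
      rw [P.nu_mul_ι, ← mul_assoc, P.E_right]
      have h1 : (P.E (star n * n) * f) x = P.E (star n * n) x * f x := rfl
      rw [h1, E_star_mul_self_apply, norm_mul, Complex.norm_real, Real.norm_eq_abs,
        abs_of_nonneg (P.nu_nonneg n x)]
      ring
  have hc : ∀ x, P.nu n x = 0 → P.nu z x = 0 := by
    intro x hx
    refine P.Z_induction (p := fun z => P.nu z x = 0) ?_ ?_ hz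
    · exact isClosed_eq (hcn x) continuous_const
    · intro f
      rw [P.nu_mul_ι, hx, mul_zero]
  rw [sq, ← CStarRing.norm_star_mul_self, ha, P.norm_ι, ContinuousMap.norm_le _ hC]
  intro x
  rw [E_star_mul_self_apply, Complex.norm_real, Real.norm_eq_abs, abs_of_nonneg (P.nu_nonneg z x)]
  by_cases hx : P.nu n x = 0
  · rw [hc x hx]
    exact hC
  · have h1 := h x hx
    rw [hb x] at h1
    have h2 : 0 < P.nu n x := lt_of_le_of_ne (P.nu_nonneg n x) (Ne.symm hx)
    rw [mul_comm C] at h1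
    exact le_of_mul_le_mul_left h1 h2

end Pool.Agent.MP_86f3ed.Reg.UPair
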